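import Mathlib

set_option autoImplicit false

open NumberField

namespace Pool.Agent.Lib.MP_695920_nt.Od

open Classical in
/-- squarefree numbers up to `Y` all of whose prime factors satisfy `P` -/
noncomputable def prods (P : ℕ → Prop) (Y : ℕ) : Finset ℕ :=
  (Finset.Icc 1 Y).filter (fun s => Squarefree s ∧ ∀ p, p.Prime → p ∣ s → P p)

lemma mem_prods {P : ℕ → Prop} {Y s : ℕ} : s ∈ prods P Y ↔
    (1 ≤ s ∧ s ≤ Y) ∧ Squarefree s ∧ ∀ p, p.Prime → p ∣ s → P p := by
  classical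
  unfold prods
  rw [Finset.mem_filter, Finset.mem_Icc]

/-- some prime of `E` above `p` has norm `2` modulo `3` -/
def NormTwo (E : Type) [Field E] [NumberField E] (p : ℕ) : Prop :=
  ∃ q : Ideal (𝓞 E), q.IsPrime ∧ (p : 𝓞 E) ∈ q ∧ Ideal.absNorm q % 3 = 2

end Pool.Agent.Lib.MP_695920_nt.Od
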