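import Mathlib
import Pool.Agent.Lib.MP_695920_nt.NonSplit
import Pool.Agent.Lib.MP_695920_nt.Od.Defs

set_option autoImplicit false

open Finset NumberField Module
open scoped IntermediateField

namespace Pool.Agent.Lib.MP_695920_nt.Od

theorem p1_powerBasis {E : Type} [Field E] [NumberField E] (θ : E) (h : ℚ⟮θ⟯ = ⊤) :
    ∃ B : PowerBasis ℚ E, B.gen = θ := by
  refine ⟨(IntermediateField.adjoin.powerBasis
    (Algebra.IsIntegral.isIntegral (R := ℚ) θ)).map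
    ((IntermediateField.equivOfEq h).trans IntermediateField.topEquiv), ?_⟩
  rw [PowerBasis.map_gen, IntermediateField.adjoin.powerBasis_gen]
  rfl

theorem cover (n : ℕ) : ∃ C : ℕ, ∀ (E : Type) [Field E] [NumberField E], finrank ℚ E = n →
    ∀ w : ℕ, 2 ≤ w → |(discr E : ℝ)| ≤ w →
      ∀ x : E, ∃ β : 𝓞 E, ∀ φ : E →+* ℂ, ‖φ (x - β)‖ ≤ (w : ℝ) ^ C := by
  refine ⟨n + (n + 2) * n, ?_⟩
  intro E _ _ hE w hw hD x
  obtain ⟨θ, hgen, hφ⟩ := exists_small_gen' E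
  rw [hE] at hφ
  obtain ⟨B, hB⟩ := p1_powerBasis (θ : E) hgen
  have hdim : B.dim = n := by rw [← hE, B.finrank]
  have hw2 : (2 : ℝ) ≤ w := by exact_mod_cast hw
  have hw1 : (1 : ℝ) ≤ w := by linarith
  -- size of the generator
  have hθ : ∀ φ : E →+* ℂ, ‖φ (θ : E)‖ ≤ (w : ℝ) ^ (n + 2) := by
    intro φ
    refine (hφ φ).trans ?_
    have h1 : Real.sqrt |(discr E : ℝ)| ≤ w := by
      rw [Real.sqrt_le_left (by linarith)]
      nlinarith
    have h2 : (2 : ℝ) ^ n ≤ (w : ℝ) ^ n := pow_le_pow_left₀ (by norm_num) hw2 n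
    have h3 : Real.sqrt |(discr E : ℝ)| * 2 ^ n ≤ w * (w : ℝ) ^ n :=
      mul_le_mul h1 h2 (by positivity) (by linarith)
    have h4 : (1 : ℝ) ≤ (w : ℝ) ^ n := one_le_pow₀ hw1
    have h5 : (2 : ℝ) ≤ w * (w : ℝ) ^ n := by nlinarith
    have h6 : (w : ℝ) ^ (n + 2) = w * (w * (w : ℝ) ^ n) := by ring
    rw [h6]
    have h7 : 2 * (w * (w : ℝ) ^ n) ≤ w * (w * (w : ℝ) ^ n) :=
      mul_le_mul_of_nonneg_right hw2 (by positivity)
    linarith
  set c : Fin B.dim → ℚ := fun i => B.basis.repr x i with hc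
  refine ⟨∑ i : Fin B.dim, (⌊c i⌋ : 𝓞 E) * θ ^ (i : ℕ), ?_⟩
  intro φ
  have hx : x = ∑ i : Fin B.dim, ((c i : ℚ) : E) * (θ : E) ^ (i : ℕ) := by
    have h1 := B.basis.sum_repr x
    rw [← h1]
    apply Finset.sum_congr rfl
    intro i _
    rw [B.coe_basis, hB, Algebra.smul_def]
    rfl
  have hdiff : x - ((∑ i : Fin B.dim, (⌊c i⌋ : 𝓞 E) * θ ^ (i : ℕ) : 𝓞 E) : E) =
      ∑ i : Fin B.dim, ((Int.fract (c i) : ℚ) : E) * (θ : E) ^ (i : ℕ) := by
    have e1 : ((∑ i : Fin B.dim, (⌊c i⌋ : 𝓞 E) * θ ^ (i : ℕ) : 𝓞 E) : E) =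
        ∑ i : Fin B.dim, ((⌊c i⌋ : ℤ) : E) * (θ : E) ^ (i : ℕ) := by
      show algebraMap (𝓞 E) E (∑ i : Fin B.dim, (⌊c i⌋ : 𝓞 E) * θ ^ (i : ℕ)) = _
      rw [map_sum]
      apply Finset.sum_congr rfl
      intro i _
      rw [map_mul, map_pow, map_intCast]
    rw [e1]
    conv_lhs => rw [hx]
    rw [← Finset.sum_sub_distrib]
    apply Finset.sum_congr rfl
    intro i _
    rw [← sub_mul]
    congr 1
    rw [← Int.self_sub_floor]
    push_cast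
    ring
  rw [hdiff, map_sum]
  have hterm : ∀ i : Fin B.dim, ‖φ (((Int.fract (c i) : ℚ) : E) * (θ : E) ^ (i : ℕ))‖ ≤
      (w : ℝ) ^ ((n + 2) * n) := by
    intro i
    rw [map_mul, map_pow, norm_mul, norm_pow, map_ratCast]
    have h1 : ‖((Int.fract (c i) : ℚ) : ℂ)‖ ≤ 1 := by
      rw [Complex.norm_ratCast, abs_le]
      have h2 := Int.fract_nonneg (c i)
      have h3 := (Int.fract_lt_one (c i)).le
      have h2' : (0 : ℝ) ≤ ((Int.fract (c i) : ℚ) : ℝ) := by exact_mod_cast h2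
      have h3' : ((Int.fract (c i) : ℚ) : ℝ) ≤ 1 := by exact_mod_cast h3
      constructor <;> linarith
    have h4 : ‖φ (θ : E)‖ ^ (i : ℕ) ≤ (w : ℝ) ^ ((n + 2) * n) := by
      calc ‖φ (θ : E)‖ ^ (i : ℕ) ≤ ((w : ℝ) ^ (n + 2)) ^ (i : ℕ) :=
            pow_le_pow_left₀ (norm_nonneg _) (hθ φ) _
        _ ≤ ((w : ℝ) ^ (n + 2)) ^ n := by
            apply pow_le_pow_right₀ (one_le_pow₀ hw1)
            have := i.2
            omega
        _ = _ := by rw [pow_mul]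
    calc ‖((Int.fract (c i) : ℚ) : ℂ)‖ * ‖φ (θ : E)‖ ^ (i : ℕ) ≤ 1 * (w : ℝ) ^ ((n + 2) * n) :=
          mul_le_mul h1 h4 (by positivity) (by norm_num)
      _ = _ := one_mul _
  refine (norm_sum_le _ _).trans ((Finset.sum_le_sum fun i _ => hterm i).trans ?_)
  rw [Finset.sum_const, Finset.card_univ, Fintype.card_fin, hdim, nsmul_eq_mul, pow_add]
  apply mul_le_mul_of_nonneg_right _ (by positivity)
  calc (n : ℝ) ≤ 2 ^ n := by exact_mod_cast (Nat.lt_two_pow_self).le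
    _ ≤ (w : ℝ) ^ n := pow_le_pow_left₀ (by norm_num) hw2 n

end Pool.Agent.Lib.MP_695920_nt.Od
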