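import Mathlib
import Pool.Agent.Lib.MP_695920_nt.Od.Defs

set_option autoImplicit false

open Finset NumberField Module IsDedekindDomain
open scoped nonZeroDivisors Pointwise

namespace Pool.Agent.Lib.MP_695920_nt.Od

lemma p6_multiset (s : Multiset ℕ) (h : ∀ x ∈ s, x % 3 ≠ 2) : s.prod % 3 ≠ 2 := by
  induction s using Multiset.induction_on with
  | empty => simp
  | cons a s ih =>
    rw [Multiset.prod_cons]
    have h1 := h a (Multiset.mem_cons_self a s)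
    have h2 := ih (fun x hx => h x (Multiset.mem_cons_of_mem hx))
    rw [Nat.mul_mod]
    have h3 : a % 3 < 3 := Nat.mod_lt _ (by norm_num)
    have h4 : s.prod % 3 < 3 := Nat.mod_lt _ (by norm_num)
    generalize a % 3 = u at *
    generalize s.prod % 3 = v at *
    interval_cases u <;> interval_cases v <;> simp_all

section ring

variable {R : Type*} [CommRing R]

lemma p6_nat_mem {q : Ideal R} (hq : q.IsPrime) (m : ℕ) (hm : m ≠ 0) (hmq : (m : R) ∈ q) :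
    ∃ p : ℕ, p.Prime ∧ p ∣ m ∧ (p : R) ∈ q := by
  induction m using induction_on_primes with
  | zero => exact absurd rfl hm
  | one =>
    exfalso
    apply hq.ne_top
    rw [Ideal.eq_top_iff_one]
    simpa using hmq
  | prime_mul p a hp ih =>
    rw [Nat.cast_mul] at hmq
    rcases hq.mem_or_mem hmq with h | h
    · exact ⟨p, hp, dvd_mul_right _ _, h⟩
    · have ha : a ≠ 0 := by rintro rfl; simp at hm
      obtain ⟨r, hr, hra, hrq⟩ := ih ha h
      exact ⟨r, hr, hra.mul_left _, hrq⟩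

end ring

section field

variable {E : Type} [Field E] [NumberField E]

lemma p6_exists_prime {I : Ideal (𝓞 E)} (hI : Ideal.absNorm I % 3 = 2) :
    ∃ (p : ℕ) (q : Ideal (𝓞 E)), p.Prime ∧ q.IsPrime ∧ (p : 𝓞 E) ∈ q ∧ q ∣ I ∧
      Ideal.absNorm q % 3 = 2 ∧ p ≤ Ideal.absNorm I ∧ p ≠ 3 := by
  classical
  have hI0 : I ≠ ⊥ := by
    rintro rfl
    simp at hI
  have hex : ∃ q ∈ UniqueFactorizationMonoid.normalizedFactors I, Ideal.absNorm q % 3 = 2 := by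
    by_contra hcon
    push Not at hcon
    have h1 : Ideal.absNorm I =
        ((UniqueFactorizationMonoid.normalizedFactors I).map Ideal.absNorm).prod := by
      conv_lhs => rw [← Ideal.prod_normalizedFactors_eq_self hI0]
      rw [map_multiset_prod]
    apply p6_multiset _ _ (h1 ▸ hI)
    intro x hx
    obtain ⟨q, hq, rfl⟩ := Multiset.mem_map.mp hx
    exact hcon q hq
  obtain ⟨q, hq, hqN⟩ := hex
  rw [Ideal.mem_normalizedFactors_iff hI0] at hq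
  obtain ⟨hqp, hqI⟩ := hq
  have hqd : q ∣ I := Ideal.dvd_iff_le.mpr hqI
  have hNI : Ideal.absNorm I ≠ 0 := by
    intro h
    rw [h] at hI
    simp at hI
  have hNq : Ideal.absNorm q ≠ 0 := by
    intro h
    rw [h] at hqN
    simp at hqN
  obtain ⟨p, hp, hpN, hpq⟩ := p6_nat_mem hqp (Ideal.absNorm q) hNq (Ideal.absNorm_mem q)
  have hdvd : Ideal.absNorm q ∣ Ideal.absNorm I := Ideal.absNorm_dvd_absNorm_of_le hqI
  refine ⟨p, q, hp, hqp, hpq, hqd, hqN, Nat.le_of_dvd (Nat.pos_of_ne_zero hNI)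
    (hpN.trans hdvd), ?_⟩
  rintro rfl
  omega

lemma p6_span_max {p : ℕ} (hp : p.Prime) : (Ideal.span {(p : ℤ)}).IsMaximal :=
  ((Ideal.span_singleton_prime (by exact_mod_cast hp.ne_zero)).mpr
    (Nat.prime_iff_prime_int.mp hp)).isMaximal (by simpa using hp.ne_zero)

lemma p6_mem_over {p : ℕ} (hp : p.Prime) {q : Ideal (𝓞 E)} (hq : q.IsPrime)
    (hpq : (p : 𝓞 E) ∈ q) : q ∈ IsDedekindDomain.primesOverFinset (Ideal.span {(p : ℤ)}) (𝓞 E) := by
  have hmax := p6_span_max hp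
  rw [IsDedekindDomain.mem_primesOverFinset_iff (by simpa using hp.ne_zero)]
  refine ⟨hq, ⟨?_⟩⟩
  apply hmax.eq_of_le
  · intro h
    apply hq.ne_top
    rw [Ideal.eq_top_iff_one]
    have h1 : (1 : ℤ) ∈ q.under ℤ := by rw [h]; trivial
    rw [Ideal.under, Ideal.mem_comap] at h1
    simpa using h1
  · rw [Ideal.span_singleton_le_iff_mem, Ideal.under, Ideal.mem_comap]
    simpa using hpq

lemma p6_card {p : ℕ} (hp : p.Prime) :
    (IsDedekindDomain.primesOverFinset (Ideal.span {(p : ℤ)}) (𝓞 E)).card ≤ finrank ℚ E := by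
  have hmax := p6_span_max hp
  have hne : Ideal.span {(p : ℤ)} ≠ ⊥ := by simpa using hp.ne_zero
  rw [← Ideal.sum_ramification_inertia (𝓞 E) ℚ E hne, Finset.card_eq_sum_ones]
  apply Finset.sum_le_sum
  intro P hP
  rw [IsDedekindDomain.mem_primesOverFinset_iff hne] at hP
  obtain ⟨hPp, hPo⟩ := hP
  have hP0 : P ≠ ⊥ := by
    rintro rfl
    have h1 : (p : ℤ) ∈ (⊥ : Ideal (𝓞 E)).under ℤ := by
      rw [← hPo.over]
      exact Ideal.mem_span_singleton_self _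
    rw [Ideal.under, Ideal.mem_comap, Ideal.mem_bot] at h1
    exact hp.ne_zero (by simpa using h1)
  have hPM : P.IsMaximal := hPp.isMaximal hP0
  have h1 : 0 < Ideal.ramificationIdx' (Ideal.span {(p : ℤ)}) P :=
    Nat.pos_of_ne_zero (Ideal.IsDedekindDomain.ramificationIdx'_ne_zero_of_liesOver P hne)
  have h2 : 0 < Ideal.inertiaDeg' (Ideal.span {(p : ℤ)}) P := Ideal.inertiaDeg'_pos _ _
  exact Nat.mul_pos h1 h2

end field

/-- the congruence part: the data for the sieve -/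
lemma p6_omega {E : Type} [Field E] [NumberField E] {n : ℕ} (hn : finrank ℚ E = n)
    (I : ℕ → Ideal (𝓞 E)) (X Y Q : ℕ) (z : ℕ)
    (hQ : ∀ p : ℕ, p.Prime → p ≠ 3 → p ≤ z → p ∣ Q)
    (hI : ∀ m : ℕ, m ≤ X → Ideal.absNorm (I m) % 3 = 2 ∧ Ideal.absNorm (I m) ≤ Y)
    (hI2 : ∀ m : ℕ, (∀ p : ℕ, p.Prime → p ∣ Q → ∀ q : Ideal (𝓞 E), q.IsPrime → (p : 𝓞 E) ∈ q →
        ¬ q ∣ I m) ∧
        ∀ m' p : ℕ, p.Prime → ∀ q : Ideal (𝓞 E), q.IsPrime → (p : 𝓞 E) ∈ q → q ∣ I m →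
          q ∣ I m' → m ≡ m' [MOD p]) :
    ∃ (S : Finset ℕ) (Ω : ℕ → Finset ℕ), (∀ p ∈ S, (p.Prime ∧ z < p ∧ p ≤ Y) ∧ NormTwo E p) ∧
      (∀ p, (Ω p).card ≤ n) ∧ (∀ m ∈ Finset.Icc 1 X, ∃ p ∈ S, ∃ r ∈ Ω p, m ≡ r [MOD p]) := by
  classical
  let g : Ideal (𝓞 E) → ℕ := fun q => if h : ∃ m, q ∣ I m then h.choose else 0
  have hg : ∀ q, (∃ m, q ∣ I m) → q ∣ I (g q) := by
    intro q h
    have h1 : g q = h.choose := dif_pos h
    rw [h1]
    exact h.choose_spec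
  refine ⟨(Finset.Icc (z + 1) Y).filter (fun p => p.Prime ∧ NormTwo E p),
    fun p => if p.Prime then
      (IsDedekindDomain.primesOverFinset (Ideal.span {(p : ℤ)}) (𝓞 E)).image g else ∅, ?_, ?_, ?_⟩
  · intro p hp
    rw [Finset.mem_filter, Finset.mem_Icc] at hp
    obtain ⟨⟨h1, h2⟩, h3, h4⟩ := hp
    exact ⟨⟨h3, by omega, h2⟩, h4⟩
  · intro p
    by_cases hp : p.Prime
    · simp only [hp, if_true]
      refine Finset.card_image_le.trans ?_
      rw [← hn]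
      exact p6_card hp
    · simp only [hp, if_false, Finset.card_empty, Nat.zero_le]
  · intro m hm
    rw [Finset.mem_Icc] at hm
    obtain ⟨hm2, hmY⟩ := hI m hm.2
    obtain ⟨p, q, hp, hq, hpq, hqI, hqN, hpI, hp3⟩ := p6_exists_prime hm2
    have hzp : z < p := by
      by_contra h
      push Not at h
      exact (hI2 m).1 p hp (hQ p hp hp3 h) q hq hpq hqI
    refine ⟨p, ?_, g q, ?_, ?_⟩
    · rw [Finset.mem_filter, Finset.mem_Icc]
      exact ⟨⟨hzp, hpI.trans hmY⟩, hp, q, hq, hpq, hqN⟩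
    · simp only [hp, if_true]
      exact Finset.mem_image_of_mem _ (p6_mem_over hp hq hpq)
    · exact (hI2 m).2 (g q) p hp q hq hpq hqI (hg q ⟨m, hqI⟩)

lemma p6_Q (z : ℕ) : ∃ Q : ℕ, 0 < Q ∧ ¬ 3 ∣ Q ∧ (Q : ℝ) ≤ 4 ^ z ∧
    ∀ p : ℕ, p.Prime → p ≠ 3 → p ≤ z → p ∣ Q := by
  classical
  set T := (Finset.range (z + 1)).filter (fun p => p.Prime ∧ p ≠ 3) with hT
  have hTm : ∀ p, p ∈ T ↔ p ≤ z ∧ p.Prime ∧ p ≠ 3 := by
    intro p
    rw [hT, Finset.mem_filter, Finset.mem_range, Nat.lt_succ_iff]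
  refine ⟨∏ p ∈ T, p, ?_, ?_, ?_, ?_⟩
  · exact Finset.prod_pos (fun p hp => ((hTm p).mp hp).2.1.pos)
  · intro h
    rw [Prime.dvd_finsetProd_iff Nat.prime_three.prime] at h
    obtain ⟨p, hp, h3⟩ := h
    obtain ⟨-, hpp, hp3⟩ := (hTm p).mp hp
    exact hp3 ((Nat.prime_dvd_prime_iff_eq Nat.prime_three hpp).mp h3).symm
  · have h1 : ∏ p ∈ T, p ≤ primorial z := by
      unfold primorial
      apply Finset.prod_le_prod_of_subset_of_one_le'
      · intro p hp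
        obtain ⟨h1, h2, h3⟩ := (hTm p).mp hp
        simp only [Finset.mem_filter, Finset.mem_range]
        exact ⟨by omega, h2⟩
      · intro p hp _
        simp only [Finset.mem_filter, Finset.mem_range] at hp
        exact hp.2.one_lt.le
    have h2 : ∏ p ∈ T, p ≤ 4 ^ z := h1.trans (primorial_le_four_pow z)
    exact_mod_cast h2
  · intro p hp hp3 hpz
    exact Finset.dvd_prod_of_mem _ ((hTm p).mpr ⟨hpz, hp, hp3⟩)

/-- the conclusion of the task about many products of odd primes -/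
theorem many_odd_aux (n C1 : ℕ)
    (hseq : ∀ (E : Type) [Field E] [NumberField E], finrank ℚ E = n →
    (∀ x : E, x ^ 2 ≠ -3) → ∀ w : ℕ, 2 ≤ w → |(discr E : ℝ)| ≤ w →
      ∀ Q : ℕ, 0 < Q → ¬ 3 ∣ Q → ∃ I : ℕ → Ideal (𝓞 E), ∀ m : ℕ,
        Ideal.absNorm (I m) % 3 = 2 ∧ Ideal.absNorm (I m) ≤ (w ^ C1 * Q * (m + 1)) ^ n ∧
        (∀ p : ℕ, p.Prime → p ∣ Q → ∀ q : Ideal (𝓞 E), q.IsPrime → (p : 𝓞 E) ∈ q → ¬ q ∣ I m) ∧
        ∀ m' p : ℕ, p.Prime → ∀ q : Ideal (𝓞 E), q.IsPrime → (p : 𝓞 E) ∈ q → q ∣ I m →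
          q ∣ I m' → m ≡ m' [MOD p])
    (c κ : ℝ) (z₁ : ℕ) (hc : 0 < c) (hκ : 0 < κ)
    (hsieve : ∀ (z X Y : ℕ) (S V : Finset ℕ) (Ω : ℕ → Finset ℕ), z₁ ≤ z → z ≤ X → X ≤ Y →
      Real.log Y ≤ ((n * (C1 + 4) : ℕ) : ℝ) * z → (∀ p ∈ S, p.Prime ∧ z < p ∧ p ≤ Y) →
      (V.card : ℝ) ≤ κ * z →
      (∀ p, (Ω p).card ≤ n) →
      (∀ m ∈ Finset.Icc 1 X, ∃ p ∈ S, ∃ r ∈ Ω p, m ≡ r [MOD p]) →
      (X : ℝ) ^ c ≤ (prods (fun p => p ∈ S ∧ p ∉ V) Y).card) (C' : ℝ) :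
    ∃ (c : ℝ) (B w₀ : ℕ), 0 < c ∧
    ∀ (E : Type) [Field E] [NumberField E], finrank ℚ E = n → (∀ x : E, x ^ 2 ≠ -3) →
      ∀ (w : ℕ) (V : Finset ℕ), w₀ ≤ w → |(discr E : ℝ)| ≤ w →
        (V.card : ℝ) ≤ C' * Real.log w →
        (w : ℝ) ^ c ≤ (prods (fun p => p ∉ V ∧ NormTwo E p) (w ^ B)).card := by
  classical
  set K : ℝ := max 1 (C' / κ) with hK
  have hK1 : 1 ≤ K := le_max_left _ _
  have hK2 : C' ≤ κ * K := by
    have h1 : C' / κ ≤ K := le_max_right _ _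
    rw [div_le_iff₀ hκ] at h1
    linarith
  have hev : ∀ᶠ w : ℕ in Filter.atTop, (z₁ : ℝ) ≤ Real.log w ∧ 1 ≤ Real.log w ∧
      (K + 1) * Real.log w ≤ w ∧ 2 ≤ w := by
    have h1 : Filter.Tendsto (fun w : ℕ => Real.log (w : ℝ)) Filter.atTop Filter.atTop :=
      Real.tendsto_log_atTop.comp tendsto_natCast_atTop_atTop
    have h2 : ∀ᶠ w : ℕ in Filter.atTop, ‖Real.log (w : ℝ)‖ ≤ (1 / (K + 1)) * ‖(w : ℝ)‖ := by
      have h3 := Real.isLittleO_log_id_atTop.bound (c := 1 / (K + 1)) (by positivity)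
      exact tendsto_natCast_atTop_atTop.eventually h3
    filter_upwards [h1.eventually_ge_atTop (z₁ : ℝ), h1.eventually_ge_atTop 1, h2,
      Filter.eventually_ge_atTop 2] with w hw1 hw2 hw3 hw4
    refine ⟨hw1, hw2, ?_, hw4⟩
    rw [Real.norm_of_nonneg (by linarith), Real.norm_of_nonneg (Nat.cast_nonneg w)] at hw3
    rw [one_div, inv_mul_eq_div, le_div_iff₀ (by linarith)] at hw3
    linarith
  obtain ⟨w₀, hw₀⟩ := Filter.eventually_atTop.mp hev
  refine ⟨c, n * (C1 + 4) * (⌈K⌉₊ + 1), w₀, hc, ?_⟩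
  intro E _ _ hn h3 w V hw hdisc hV
  obtain ⟨hz1, hL1, hKL, hw2⟩ := hw₀ w hw
  set L := Real.log w with hL
  set z := ⌈K * L⌉₊ with hz
  have hKL0 : 0 ≤ K * L := by positivity
  have hz_ge : K * L ≤ z := Nat.le_ceil _
  have hz_lt : (z : ℝ) < K * L + 1 := Nat.ceil_lt_add_one hKL0
  have hLz : L ≤ z := le_trans (by nlinarith) hz_ge
  have hzw : z ≤ w := by
    have h1 : (z : ℝ) ≤ w := by nlinarith
    exact_mod_cast h1
  have hz1z : z₁ ≤ z := by
    have h1 : (z₁ : ℝ) ≤ z := hz1.trans hLz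
    exact_mod_cast h1
  have hVz : (V.card : ℝ) ≤ κ * z := by
    calc (V.card : ℝ) ≤ C' * L := hV
      _ ≤ κ * K * L := by
        apply mul_le_mul_of_nonneg_right hK2 (by linarith)
      _ = κ * (K * L) := by ring
      _ ≤ κ * z := by
        apply mul_le_mul_of_nonneg_left hz_ge hκ.le
  obtain ⟨Q, hQ0, hQ3, hQ4, hQp⟩ := p6_Q z
  obtain ⟨I, hI⟩ := hseq E hn h3 w hw2 hdisc Q hQ0 hQ3
  set Y := (w ^ C1 * Q * (w + 1)) ^ n with hY
  have hnpos : 0 < n := by rw [← hn]; exact finrank_pos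
  have hw0 : 0 < w := by omega
  have hbase : w ≤ w ^ C1 * Q * (w + 1) := by
    have h1 : 1 ≤ w ^ C1 * Q := Nat.one_le_iff_ne_zero.mpr (by positivity)
    nlinarith
  have hXY : w ≤ Y := hbase.trans (Nat.le_self_pow hnpos.ne' _)
  have hwR : (0 : ℝ) < w := by exact_mod_cast hw0
  have hlog4 : Real.log 4 ≤ 2 := by
    have h1 : Real.log 4 = 2 * Real.log 2 := by
      rw [show (4 : ℝ) = 2 ^ 2 by norm_num, Real.log_pow]
      norm_num
    have h2 := Real.log_two_lt_d9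
    rw [h1]
    linarith
  have hQR : (0 : ℝ) < Q := by exact_mod_cast hQ0
  have hlogQ : Real.log Q ≤ 2 * z := by
    calc Real.log Q ≤ Real.log ((4 : ℝ) ^ z) := Real.log_le_log hQR hQ4
      _ = z * Real.log 4 := Real.log_pow _ _
      _ ≤ z * 2 := mul_le_mul_of_nonneg_left hlog4 (Nat.cast_nonneg z)
      _ = 2 * z := by ring
  have hlogw1 : Real.log ((w : ℝ) + 1) ≤ 2 * L := by
    have hw2' : (2 : ℝ) ≤ w := by exact_mod_cast hw2
    calc Real.log ((w : ℝ) + 1) ≤ Real.log ((w : ℝ) ^ 2) := by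
          apply Real.log_le_log (by positivity)
          nlinarith
      _ = 2 * L := by rw [Real.log_pow, ← hL]; norm_num
  have hlogY : Real.log Y ≤ ((n * (C1 + 4) : ℕ) : ℝ) * z := by
    have h1 : Real.log (Y : ℝ) = n * (C1 * L + Real.log Q + Real.log ((w : ℝ) + 1)) := by
      rw [hY]
      push_cast
      rw [Real.log_pow, Real.log_mul (by positivity) (by positivity),
        Real.log_mul (by positivity) (by positivity), Real.log_pow]
    rw [h1]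
    push_cast
    have h2 : (C1 : ℝ) * L ≤ C1 * z := mul_le_mul_of_nonneg_left hLz (Nat.cast_nonneg _)
    have h3 : (C1 : ℝ) * L + Real.log Q + Real.log ((w : ℝ) + 1) ≤ (C1 + 4) * z := by
      nlinarith
    calc (n : ℝ) * (C1 * L + Real.log Q + Real.log ((w : ℝ) + 1)) ≤ n * ((C1 + 4) * z) :=
          mul_le_mul_of_nonneg_left h3 (Nat.cast_nonneg _)
      _ = n * (C1 + 4) * z := by ring
  obtain ⟨S, Ω, hS, hΩ, hcov⟩ := p6_omega hn I w Y Q z hQp (by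
    intro m hm
    obtain ⟨h1, h2, -, -⟩ := hI m
    refine ⟨h1, h2.trans ?_⟩
    rw [hY]
    apply Nat.pow_le_pow_left
    apply Nat.mul_le_mul_left
    omega) (fun m => (hI m).2.2)
  have hmain := hsieve z w Y S V Ω hz1z hzw hXY hlogY (fun p hp => (hS p hp).1) hVz hΩ hcov
  refine hmain.trans ?_
  have hYw : Y ≤ w ^ (n * (C1 + 4) * (⌈K⌉₊ + 1)) := by
    have hY0 : (0 : ℝ) < Y := by
      have : 0 < Y := lt_of_lt_of_le hw0 hXY
      exact_mod_cast this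
    have h1 : Real.log Y ≤ Real.log ((w : ℝ) ^ (n * (C1 + 4) * (⌈K⌉₊ + 1))) := by
      rw [Real.log_pow]
      refine hlogY.trans ?_
      rw [Nat.cast_mul (n * (C1 + 4)) (⌈K⌉₊ + 1), mul_assoc]
      apply mul_le_mul_of_nonneg_left _ (Nat.cast_nonneg _)
      have h2 : K ≤ ⌈K⌉₊ := Nat.le_ceil K
      push_cast
      have h3 : K * L ≤ ⌈K⌉₊ * L := mul_le_mul_of_nonneg_right h2 (by linarith)
      nlinarith
    have h2 : (Y : ℝ) ≤ (w : ℝ) ^ (n * (C1 + 4) * (⌈K⌉₊ + 1)) :=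
      (Real.log_le_log_iff hY0 (by positivity)).mp h1
    exact_mod_cast h2
  have hsub : prods (fun p => p ∈ S ∧ p ∉ V) Y ⊆
      prods (fun p => p ∉ V ∧ NormTwo E p) (w ^ (n * (C1 + 4) * (⌈K⌉₊ + 1))) := by
    intro s hs
    rw [mem_prods] at hs ⊢
    obtain ⟨⟨h1, h2⟩, h3, h4⟩ := hs
    refine ⟨⟨h1, h2.trans hYw⟩, h3, fun p hp hps => ?_⟩
    obtain ⟨h5, h6⟩ := h4 p hp hps
    exact ⟨h6, (hS p h5).2⟩
  exact_mod_cast Finset.card_le_card hsub

end Pool.Agent.Lib.MP_695920_nt.Od
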