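import Mathlib
import Pool.Agent.Lib.MP_695920_nt.Refl.Quad
import Pool.Agent.Lib.MP_695920_nt.Sx.Close

/-!
A number field without `√-3` has a prime of norm `2` modulo `3`.
-/

set_option autoImplicit false

open Filter Topology NumberField IsDedekindDomain Module
open scoped nonZeroDivisors IntermediateField

namespace Pool.Agent.Lib.MP_695920_nt.Od

open Pool.Agent.Lib.MP_695920_nt.Refl

/-- an inert prime which does not contain `3` -/
lemma p7_exists_inert (K K' : Type) [Field K] [NumberField K] [Field K'] [NumberField K']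
    [Algebra K K'] (h2 : finrank K K' = 2) :
    ∃ P : HeightOneSpectrum (𝓞 K), (P.asIdeal.map (algebraMap (𝓞 K) (𝓞 K'))).IsPrime ∧
      (3 : 𝓞 K) ∉ P.asIdeal := by
  classical
  by_contra hcon
  push Not at hcon
  obtain ⟨C, hC⟩ := psum_inert K K' h2
  obtain ⟨C', hC'⟩ := psum_univ K
  set I : Set (HeightOneSpectrum (𝓞 K)) :=
    {P | (P.asIdeal.map (algebraMap (𝓞 K) (𝓞 K'))).IsPrime} with hI
  have h3 : (Ideal.span {(3 : 𝓞 K)}) ≠ 0 := by
    intro h
    rw [Ideal.zero_eq_bot, Ideal.span_singleton_eq_bot] at h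
    have h4 : (3 : 𝓞 K) ≠ 0 := by exact_mod_cast (show (3 : ℕ) ≠ 0 by norm_num)
    exact h4 h
  have hfin : I.Finite := by
    refine (Ideal.finite_factors h3).subset fun P hP => ?_
    have h4 := hcon P hP
    exact Ideal.dvd_iff_le.mpr ((Ideal.span_singleton_le_iff_mem _).2 h4)
  have hIle : ∀ s : ℝ, 1 < s → psum K I s ≤ hfin.toFinset.card := by
    intro s hs
    rw [psum, ← tsum_subtype]
    have hf := hfin.fintype
    rw [tsum_fintype]
    have hone : ∀ P : I, (Ideal.absNorm P.1.asIdeal : ℝ) ^ (-s) ≤ 1 := by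
      intro P
      have h3 : (1 : ℝ) ≤ Ideal.absNorm P.1.asIdeal := by
        have h4 : Ideal.absNorm P.1.asIdeal ≠ 0 := by
          rw [Ne, Ideal.absNorm_eq_zero_iff]
          exact P.1.ne_bot
        exact_mod_cast Nat.one_le_iff_ne_zero.mpr h4
      exact Real.rpow_le_one_of_one_le_of_nonpos h3 (by linarith)
    refine (Finset.sum_le_sum fun P _ => hone P).trans_eq ?_
    rw [Finset.sum_const, nsmul_eq_mul, mul_one]
    congr 1
    rw [Finset.card_univ, Set.Finite.card_toFinset]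
  have hlog : Tendsto (fun s : ℝ => Real.log (s - 1)) (𝓝[>] 1) atBot := by
    have h5 : Tendsto (fun s : ℝ => s - 1) (𝓝[>] 1) (𝓝[>] 0) := by
      refine tendsto_nhdsWithin_iff.2 ⟨?_, ?_⟩
      · have : Tendsto (fun s : ℝ => s - 1) (𝓝 1) (𝓝 (1 - 1)) :=
          (continuous_id.sub continuous_const).tendsto 1
        rw [sub_self] at this
        exact this.mono_left nhdsWithin_le_nhds
      · filter_upwards [self_mem_nhdsWithin] with s hs
        have : (1 : ℝ) < s := hs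
        simpa using this
    exact Real.tendsto_log_nhdsGT_zero.comp h5
  have h6 := hlog.eventually (eventually_lt_atBot (-(2 * (hfin.toFinset.card : ℝ) + C + C')))
  obtain ⟨s, h7, h8, h9, h10⟩ := (hC.and (hC'.and (h6.and self_mem_nhdsWithin))).exists
  have hs : 1 < s := h10
  have h11 := hIle s hs
  have h12 := (abs_le.1 h8).1
  linarith

/-- the conjugation of a quadratic extension `K(s)`, `s ^ 2 = -3` -/
lemma p7_exists_conj (K K' : Type) [Field K] [NumberField K] [Field K'] [NumberField K']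
    [Algebra K K'] (h2 : finrank K K' = 2) (s : K') (hs : s ^ 2 = -3) (htop : K⟮s⟯ = ⊤) :
    ∃ σ : K' ≃ₐ[K] K', σ s = -s := by
  have hq : Algebra.IsQuadraticExtension K K' := { finrank_eq_two' := h2 }
  have hgal : IsGalois K K' := inferInstance
  have hcard : Nat.card (K' ≃ₐ[K] K') = 2 := by
    rw [IsGalois.card_aut_eq_finrank, h2]
  have hnt : Nontrivial (K' ≃ₐ[K] K') := by
    have : Finite (K' ≃ₐ[K] K') := Nat.finite_of_card_ne_zero (by omega)
    exact Finite.one_lt_card_iff_nontrivial.1 (by omega)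
  obtain ⟨σ, hσ⟩ := exists_ne (1 : K' ≃ₐ[K] K')
  refine ⟨σ, ?_⟩
  have h3 : (σ s) ^ 2 = s ^ 2 := by
    rw [← map_pow, hs, map_neg, map_ofNat]
  rcases sq_eq_sq_iff_eq_or_eq_neg.1 h3 with h4 | h4
  · exfalso
    apply hσ
    ext x
    have hx : x ∈ K⟮s⟯ := by rw [htop]; trivial
    induction hx using IntermediateField.adjoin_induction with
    | mem y hy =>
      rw [Set.mem_singleton_iff.1 hy, h4]
      rfl
    | algebraMap y => simp
    | add y z _ _ h5 h6 => rw [map_add, map_add, h5, h6]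
    | inv y _ h5 => rw [map_inv₀, map_inv₀, h5]
    | mul y z _ _ h5 h6 => rw [map_mul, map_mul, h5, h6]
  · exact h4

lemma p7_norm_mod (K : Type) [Field K] [NumberField K] (P : HeightOneSpectrum (𝓞 K))
    (h3 : (3 : 𝓞 K) ∉ P.asIdeal) (ha : ∀ a : 𝓞 K, a ^ 2 + a + 1 ∉ P.asIdeal) :
    Ideal.absNorm P.asIdeal % 3 = 2 := by
  have hmax : P.asIdeal.IsMaximal := P.isMaximal
  have hcard : Nat.card (𝓞 K ⧸ P.asIdeal) = Ideal.absNorm P.asIdeal := by
    rw [Ideal.absNorm_apply, Submodule.cardQuot_apply]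
  have hN0 : Ideal.absNorm P.asIdeal ≠ 0 := by
    rw [Ne, Ideal.absNorm_eq_zero_iff]
    exact P.ne_bot
  have hfin : Finite (𝓞 K ⧸ P.asIdeal) := Nat.finite_of_card_ne_zero (by rw [hcard]; exact hN0)
  let _ := Ideal.Quotient.field P.asIdeal
  have h0 : Ideal.absNorm P.asIdeal % 3 ≠ 0 := by
    intro h
    have hdvd : 3 ∣ Nat.card (𝓞 K ⧸ P.asIdeal) := by
      rw [hcard]; exact Nat.dvd_of_mod_eq_zero h
    obtain ⟨x, hx⟩ := exists_prime_addOrderOf_dvd_card' 3 hdvd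
    have h1 : (3 : ℕ) • x = 0 := by rw [← hx]; exact addOrderOf_nsmul_eq_zero x
    have h2 : x ≠ 0 := by
      rintro rfl
      rw [addOrderOf_zero] at hx
      omega
    rw [nsmul_eq_mul] at h1
    have h4 : ((3 : ℕ) : 𝓞 K ⧸ P.asIdeal) = 0 := (mul_eq_zero.1 h1).resolve_right h2
    apply h3
    rw [← Ideal.Quotient.eq_zero_iff_mem, map_ofNat]
    simpa using h4
  have h1 : Ideal.absNorm P.asIdeal % 3 ≠ 1 := by
    intro h
    have hdvd : 3 ∣ Nat.card (𝓞 K ⧸ P.asIdeal)ˣ := by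
      rw [Nat.card_units, hcard]
      exact (Nat.modEq_iff_dvd' (by omega)).1 (by unfold Nat.ModEq; omega)
    obtain ⟨u, hu⟩ := exists_prime_orderOf_dvd_card' 3 hdvd
    have h2 : u ^ 3 = 1 := by rw [← hu]; exact pow_orderOf_eq_one u
    have h4 : u ≠ 1 := by
      rintro rfl
      rw [orderOf_one] at hu
      omega
    obtain ⟨a, ha'⟩ := Ideal.Quotient.mk_surjective (u : 𝓞 K ⧸ P.asIdeal)
    apply ha a
    rw [← Ideal.Quotient.eq_zero_iff_mem, map_add, map_add, map_pow, map_one, ha']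
    have h5 : (u : 𝓞 K ⧸ P.asIdeal) ^ 3 = 1 := by
      rw [← Units.val_pow_eq_pow_val, h2, Units.val_one]
    have h6 : (u : 𝓞 K ⧸ P.asIdeal) - 1 ≠ 0 := by
      rw [sub_ne_zero]
      intro h7
      exact h4 (Units.ext h7)
    have h7 : ((u : 𝓞 K ⧸ P.asIdeal) - 1) * ((u : 𝓞 K ⧸ P.asIdeal) ^ 2 + u + 1) = 0 := by
      linear_combination h5
    exact (mul_eq_zero.1 h7).resolve_left h6
  omega

theorem exists_two (E : Type) [Field E] [NumberField E] (h3 : ∀ x : E, x ^ 2 ≠ -3) :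
    ∃ P : Ideal (𝓞 E), P.IsPrime ∧ P ≠ ⊥ ∧ Ideal.absNorm P % 3 = 2 := by
  obtain ⟨K', _, _, _, s, h2, hs, htop⟩ :=
    Pool.Agent.Lib.MP_695920_nt.Sx.exists_adjoin E h3
  obtain ⟨P, hP, hP3⟩ := p7_exists_inert E K' h2
  refine ⟨P.asIdeal, P.isPrime, P.ne_bot, p7_norm_mod E P hP3 fun a haP => ?_⟩
  obtain ⟨σ, hσ⟩ := p7_exists_conj E K' h2 s hs htop
  -- omega
  have hw : ((-1 + s) / 2 : K') ^ 2 + (-1 + s) / 2 + 1 = 0 := by
    linear_combination (1 / 4 : K') * hs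
  have hint : IsIntegral ℤ ((-1 + s) / 2 : K') := by
    refine ⟨Polynomial.X ^ 2 + Polynomial.X + 1, ?_, ?_⟩
    · monicity!
    · simpa using hw
  let ω : 𝓞 K' := ⟨(-1 + s) / 2, hint⟩
  have hωc : (ω : K') = (-1 + s) / 2 := rfl
  have hω : ω ^ 2 + ω + 1 = 0 := by
    apply RingOfIntegers.ext
    push_cast
    exact hw
  let τ : 𝓞 K' →+* 𝓞 K' := RingOfIntegers.mapRingHom (σ : K' →+* K')
  have hτ : ∀ x : 𝓞 K', ((τ x : 𝓞 K') : K') = σ x := fun x => rfl
  have hτω : τ ω = -1 - ω := by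
    apply RingOfIntegers.ext
    rw [hτ, hωc]
    change σ ((-1 + s) / 2) = -1 - (-1 + s) / 2
    rw [map_div₀, map_add, map_neg, map_one, hσ, map_ofNat]
    ring
  have hτa : ∀ b : 𝓞 E, τ (algebraMap (𝓞 E) (𝓞 K') b) = algebraMap (𝓞 E) (𝓞 K') b := by
    intro b
    apply RingOfIntegers.ext
    rw [hτ]
    exact σ.commutes (b : E)
  have hstab : ∀ x ∈ P.asIdeal.map (algebraMap (𝓞 E) (𝓞 K')),
      τ x ∈ P.asIdeal.map (algebraMap (𝓞 E) (𝓞 K')) := by
    intro x hx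
    have h4 := Ideal.mem_map_of_mem τ hx
    rw [Ideal.map_map] at h4
    have h5 : τ.comp (algebraMap (𝓞 E) (𝓞 K')) = algebraMap (𝓞 E) (𝓞 K') :=
      RingHom.ext hτa
    rwa [h5] at h4
  have hcomap : ∀ b : 𝓞 E, algebraMap (𝓞 E) (𝓞 K') b ∈
      P.asIdeal.map (algebraMap (𝓞 E) (𝓞 K')) → b ∈ P.asIdeal := by
    intro b hb
    have h4 : P.asIdeal ≤ (P.asIdeal.map (algebraMap (𝓞 E) (𝓞 K'))).comap
        (algebraMap (𝓞 E) (𝓞 K')) := Ideal.le_comap_map
    have h5 : (P.asIdeal.map (algebraMap (𝓞 E) (𝓞 K'))).comap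
        (algebraMap (𝓞 E) (𝓞 K')) ≠ ⊤ := by
      intro h6
      rw [Ideal.comap_eq_top_iff] at h6
      exact hP.ne_top h6
    have h6 := P.isMaximal.eq_of_le h5 h4
    rw [h6]
    exact hb
  have h2a : (1 + 2 * a) ∈ P.asIdeal := by
    apply hcomap
    have h4 : (ω - algebraMap (𝓞 E) (𝓞 K') a) * (ω + 1 + algebraMap (𝓞 E) (𝓞 K') a) ∈
        P.asIdeal.map (algebraMap (𝓞 E) (𝓞 K')) := by
      have h5 := Ideal.mem_map_of_mem (algebraMap (𝓞 E) (𝓞 K')) haP
      have h6 : (ω - algebraMap (𝓞 E) (𝓞 K') a) * (ω + 1 + algebraMap (𝓞 E) (𝓞 K') a) =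
          -(algebraMap (𝓞 E) (𝓞 K') (a ^ 2 + a + 1)) := by
        rw [map_add, map_add, map_pow, map_one]
        linear_combination hω
      rw [h6]
      exact Ideal.neg_mem_iff _ |>.2 h5
    have h7 : algebraMap (𝓞 E) (𝓞 K') (1 + 2 * a) = 1 + 2 * algebraMap (𝓞 E) (𝓞 K') a := by
      rw [map_add, map_mul, map_one, map_ofNat]
    rw [h7]
    rcases hP.mem_or_mem h4 with h5 | h5
    · have h6 := hstab _ h5
      rw [map_sub, hτω, hτa] at h6
      have h8 := Ideal.neg_mem_iff _ |>.2 (Ideal.add_mem _ h5 h6)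
      have h9 : -(ω - algebraMap (𝓞 E) (𝓞 K') a + (-1 - ω - algebraMap (𝓞 E) (𝓞 K') a)) =
          1 + 2 * algebraMap (𝓞 E) (𝓞 K') a := by ring
      rwa [h9] at h8
    · have h6 := hstab _ h5
      rw [map_add, map_add, map_one, hτω, hτa] at h6
      have h8 := Ideal.add_mem _ h5 h6
      have h9 : ω + 1 + algebraMap (𝓞 E) (𝓞 K') a + (-1 - ω + 1 + algebraMap (𝓞 E) (𝓞 K') a) =
          1 + 2 * algebraMap (𝓞 E) (𝓞 K') a := by ring
      rwa [h9] at h8
  apply hP3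
  have h4 : (3 : 𝓞 E) = 4 * (a ^ 2 + a + 1) - (1 + 2 * a) * (1 + 2 * a) := by ring
  rw [h4]
  exact Ideal.sub_mem _ (Ideal.mul_mem_left _ _ haP) (Ideal.mul_mem_left _ _ h2a)

end Pool.Agent.Lib.MP_695920_nt.Od
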