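import Mathlib
import Pool.Agent.Lib.MP_695920_nt.Od.Defs
import Pool.Agent.Lib.MP_695920_nt.Od.Cover
import Pool.Agent.Lib.MP_695920_nt.Od.ExTwo

set_option autoImplicit false

open Finset NumberField Module IsDedekindDomain
open scoped nonZeroDivisors Pointwise

namespace Pool.Agent.Lib.MP_695920_nt.Od

/-! ### norms modulo 3 -/

lemma p2_norm_mod {E : Type} [Field E] [NumberField E] (g β : 𝓞 E) :
    ((Algebra.norm ℤ (g - 3 * β) : ℤ) : ZMod 3) = ((Algebra.norm ℤ g : ℤ) : ZMod 3) := by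
  classical
  set b := RingOfIntegers.basis E with hb
  rw [Algebra.norm_eq_matrix_det b, Algebra.norm_eq_matrix_det b]
  have key : ((Algebra.leftMulMatrix b (g - 3 * β)).map (Int.castRingHom (ZMod 3))) =
      ((Algebra.leftMulMatrix b g).map (Int.castRingHom (ZMod 3))) := by
    rw [map_sub, map_mul]
    have h3 : Algebra.leftMulMatrix b (3 : 𝓞 E) = (3 : ℤ) • 1 := by
      have : (3 : 𝓞 E) = algebraMap ℤ (𝓞 E) 3 := by simp
      rw [this, AlgHom.commutes, Algebra.algebraMap_eq_smul_one]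
    rw [h3, smul_mul_assoc, one_mul]
    ext i j
    simp only [Matrix.map_apply, Matrix.sub_apply, Matrix.smul_apply, map_sub, smul_eq_mul, map_mul]
    have : (Int.castRingHom (ZMod 3)) 3 = 0 := by decide
    rw [this, zero_mul, sub_zero]
  have h1 := (Int.castRingHom (ZMod 3)).map_det (Algebra.leftMulMatrix b (g - 3 * β))
  have h2 := (Int.castRingHom (ZMod 3)).map_det (Algebra.leftMulMatrix b g)
  rw [RingHom.mapMatrix_apply] at h1 h2
  rw [key, ← h2] at h1
  exact h1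

/-! ### the norm as a product over the embeddings -/

lemma p2_norm_prod {E : Type} [Field E] [NumberField E] (x : 𝓞 E) :
    ((Algebra.norm ℤ x : ℤ) : ℂ) = ∏ φ : E →+* ℂ, φ (x : E) := by
  have h1 := Algebra.norm_eq_prod_embeddings ℚ ℂ (x : E)
  rw [← Fintype.prod_equiv (RingHom.equivRatAlgHom E ℂ) (fun f : E →+* ℂ => f (x : E))
      (fun φ => φ (x : E)) fun _ => by simp [RingHom.equivRatAlgHom_apply]] at h1
  rw [← h1, ← Algebra.coe_norm_int]
  simp

lemma p2_norm_le {E : Type} [Field E] [NumberField E] (x : 𝓞 E) (M : ℝ)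
    (hM : ∀ φ : E →+* ℂ, ‖φ (x : E)‖ ≤ M) :
    ((Algebra.norm ℤ x).natAbs : ℝ) ≤ M ^ finrank ℚ E := by
  have h1 := congrArg (fun z : ℂ => ‖z‖) (p2_norm_prod x)
  rw [norm_prod] at h1
  have h2 : ∏ φ : E →+* ℂ, ‖φ (x : E)‖ ≤ ∏ _φ : E →+* ℂ, M :=
    Finset.prod_le_prod (fun _ _ => norm_nonneg _) (fun φ _ => hM φ)
  rw [Finset.prod_const, Finset.card_univ, Embeddings.card] at h2
  rw [← h1] at h2
  refine le_trans (le_of_eq ?_) h2
  rw [Complex.norm_intCast, Nat.cast_natAbs, Int.cast_abs]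

open InfinitePlace in
/-- the contribution of an infinite place -/
noncomputable def p2_q {E : Type} [Field E] [NumberField E] (w : InfinitePlace E) (x : E) : ℝ :=
  open Classical in if IsReal w then (w.embedding x).re else ‖w.embedding x‖ ^ 2

open InfinitePlace in
lemma p2_fiber {E : Type} [Field E] [NumberField E] [DecidableEq (InfinitePlace E)]
    (w : InfinitePlace E) (x : E) :
    ∏ φ ∈ univ.filter (fun φ : E →+* ℂ => mk φ = w), φ x = ((p2_q w x : ℝ) : ℂ) := by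
  classical
  unfold p2_q
  split_ifs with hw
  · have h1 : univ.filter (fun φ : E →+* ℂ => mk φ = w) = {w.embedding} := by
      ext φ
      simp only [mem_filter, mem_univ, true_and, mem_singleton]
      constructor
      · rintro rfl
        exact (embedding_mk_eq_of_isReal (isReal_of_mk_isReal hw)).symm
      · rintro rfl
        exact mk_embedding w
    rw [h1, prod_singleton]
    have h2 := embedding_of_isReal_apply hw x
    rw [← h2, Complex.ofReal_re]
  · have hw' : IsComplex w := not_isReal_iff_isComplex.1 hw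
    have hne : w.embedding ≠ ComplexEmbedding.conjugate w.embedding := by
      intro h
      apply isComplex_iff.1 hw'
      exact h.symm
    have h1 : univ.filter (fun φ : E →+* ℂ => mk φ = w) =
        {w.embedding, ComplexEmbedding.conjugate w.embedding} := by
      ext φ
      simp only [mem_filter, mem_univ, true_and, mem_insert, mem_singleton]
      constructor
      · intro h
        rw [← mk_embedding w, eq_comm, mk_eq_iff] at h
        exact h.imp Eq.symm Eq.symm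
      · rintro (rfl | rfl)
        · exact mk_embedding w
        · rw [mk_conjugate_eq, mk_embedding]
    rw [h1, prod_pair hne, ComplexEmbedding.conjugate_coe_eq, Complex.mul_conj,
      Complex.normSq_eq_norm_sq]

open InfinitePlace in
lemma p2_norm_q {E : Type} [Field E] [NumberField E] (x : 𝓞 E) :
    ((Algebra.norm ℤ x : ℤ) : ℝ) = ∏ w : InfinitePlace E, p2_q w (x : E) := by
  classical
  apply Complex.ofReal_injective
  rw [Complex.ofReal_intCast, p2_norm_prod,
    ← Finset.prod_fiberwise Finset.univ InfinitePlace.mk (fun φ : E →+* ℂ => φ (x : E)),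
    Complex.ofReal_prod]
  exact Finset.prod_congr rfl fun w _ => p2_fiber w _

open InfinitePlace in
lemma p2_neg {E : Type} [Field E] [NumberField E] (v0 : InfinitePlace E) (hv0 : IsReal v0)
    (x : 𝓞 E) (hx : x ≠ 0) (h0 : (v0.embedding (x : E)).re < 0)
    (h1 : ∀ w : InfinitePlace E, w ≠ v0 → 0 < (w.embedding (x : E)).re ∨ IsComplex w) :
    Algebra.norm ℤ x < 0 := by
  classical
  have hx' : (x : E) ≠ 0 := by simpa using hx
  have h2 : ((Algebra.norm ℤ x : ℤ) : ℝ) < 0 := by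
    rw [p2_norm_q, ← Finset.mul_prod_erase _ _ (mem_univ v0)]
    apply mul_neg_of_neg_of_pos
    · unfold p2_q
      rw [if_pos hv0]
      exact h0
    · refine Finset.prod_pos fun w hw => ?_
      have hw' := ne_of_mem_erase hw
      unfold p2_q
      split_ifs with hr
      · rcases h1 w hw' with h | h
        · exact h
        · exact absurd hr (not_isReal_iff_isComplex.2 h)
      · have : w.embedding (x : E) ≠ 0 := by simpa using hx'
        positivity
  exact_mod_cast h2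

open InfinitePlace in
lemma p2_pos {E : Type} [Field E] [NumberField E] (hE : ∀ w : InfinitePlace E, IsComplex w)
    (x : 𝓞 E) (hx : x ≠ 0) : 0 < Algebra.norm ℤ x := by
  classical
  have hx' : (x : E) ≠ 0 := by simpa using hx
  have h2 : 0 < ((Algebra.norm ℤ x : ℤ) : ℝ) := by
    rw [p2_norm_q]
    refine Finset.prod_pos fun w _ => ?_
    unfold p2_q
    rw [if_neg (not_isReal_iff_isComplex.2 (hE w))]
    have : w.embedding (x : E) ≠ 0 := by simpa using hx'
    positivity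
  exact_mod_cast h2

lemma p2_approx {E : Type} [Field E] [NumberField E] (v0 : InfinitePlace E) (T : ℕ) :
    ∃ x : E, (∀ v : InfinitePlace E, v ≠ v0 → v (x - T) < 1) ∧ v0 (x + T) < 1 := by
  classical
  have hd := InfinitePlace.denseRange_algebraMap_pi E
  let z : (v : InfinitePlace E) → WithAbs v.1 := fun v =>
    WithAbs.toAbs v.1 (if v = v0 then -(T : E) else (T : E))
  obtain ⟨x, hx⟩ := hd.exists_dist_lt z one_pos
  rw [dist_pi_lt_iff one_pos] at hx
  refine ⟨x, fun v hv => ?_, ?_⟩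
  · have h1 := hx v
    rw [dist_comm, dist_eq_norm] at h1
    have h2 : ‖(algebraMap E ((v : InfinitePlace E) → WithAbs v.1)) x v - z v‖ = v (x - T) := by
      simp only [z, if_neg hv]
      rfl
    rw [h2] at h1
    exact h1
  · have h1 := hx v0
    rw [dist_comm, dist_eq_norm] at h1
    have h2 : ‖(algebraMap E ((v : InfinitePlace E) → WithAbs v.1)) x v0 - z v0‖ = v0 (x + T) := by
      simp only [z, if_true]
      rw [← sub_neg_eq_add]
      rfl
    rw [h2] at h1
    exact h1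

lemma p2_mod_int {a b : ℤ} (h : (a : ZMod 3) = (b : ZMod 3)) : a % 3 = b % 3 :=
  (ZMod.intCast_eq_intCast_iff' a b 3).1 h

open InfinitePlace in
lemma p2_norm_apply {E : Type} [Field E] [NumberField E] (φ : E →+* ℂ) (x : E) :
    ‖φ x‖ = InfinitePlace.mk φ x := rfl

/-! ### a real place -/

open InfinitePlace in
lemma p2_real {E : Type} [Field E] [NumberField E] (R : ℝ) (hR : 1 ≤ R)
    (hc : ∀ x : E, ∃ β : 𝓞 E, ∀ φ : E →+* ℂ, ‖φ (x - β)‖ ≤ R) (v0 : InfinitePlace E)
    (hv0 : IsReal v0) :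
    ∃ A : Ideal (𝓞 E), Ideal.absNorm A % 3 = 2 ∧
      (Ideal.absNorm A : ℝ) ≤ (19 * R) ^ finrank ℚ E := by
  set T : ℕ := ⌈R⌉₊ + 2 with hT
  have hT1 : R + 2 ≤ T := by
    rw [hT]; push_cast
    have := Nat.le_ceil R
    linarith
  have hT2 : (T : ℝ) ≤ R + 3 := by
    rw [hT]; push_cast
    have := (Nat.ceil_lt_add_one (by linarith : 0 ≤ R)).le
    linarith
  obtain ⟨x, hx1, hx2⟩ := p2_approx v0 T
  obtain ⟨β, hβ⟩ := hc x
  set γ : 𝓞 E := 1 - 3 * (-β) with hγ
  have hγφ : ∀ φ : E →+* ℂ, φ (γ : E) = 1 + 3 * φ (β : E) := by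
    intro φ
    have e4 : (γ : E) = 1 + 3 * (β : E) := by
      rw [hγ]
      change algebraMap (𝓞 E) E (1 - 3 * (-β)) = 1 + 3 * algebraMap (𝓞 E) E β
      rw [map_sub, map_mul, map_neg, map_one, map_ofNat]
      ring
    rw [e4, map_add, map_mul, map_one, map_ofNat]
  have hbnd : ∀ φ : E →+* ℂ, ‖φ x‖ ≤ 1 + T := by
    intro φ
    by_cases h : InfinitePlace.mk φ = v0
    · have h1 : ‖φ (x + T)‖ < 1 := by rw [p2_norm_apply, h]; exact hx2
      have h2 : φ x = φ (x + T) - (T : ℂ) := by simp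
      rw [h2]
      refine (norm_sub_le _ _).trans ?_
      rw [Complex.norm_natCast]
      linarith
    · have h1 : ‖φ (x - T)‖ < 1 := by rw [p2_norm_apply]; exact hx1 _ h
      have h2 : φ x = φ (x - T) + (T : ℂ) := by simp
      rw [h2]
      refine (norm_add_le _ _).trans ?_
      rw [Complex.norm_natCast]
      linarith
  have hbnd2 : ∀ φ : E →+* ℂ, ‖φ (γ : E)‖ ≤ 19 * R := by
    intro φ
    rw [hγφ]
    have h1 := hβ φ
    have h2 : φ (β : E) = φ x - φ (x - β) := by simp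
    have h3 : ‖φ (β : E)‖ ≤ 1 + T + R := by
      rw [h2]
      refine (norm_sub_le _ _).trans ?_
      have := hbnd φ
      linarith
    refine (norm_add_le _ _).trans ?_
    rw [norm_mul, norm_one, Complex.norm_ofNat]
    linarith
  have hneg0 : (v0.embedding (γ : E)).re < 0 := by
    have h1 : ‖v0.embedding (x + T)‖ < 1 := by rw [norm_embedding_eq]; exact hx2
    have h2 := (Complex.abs_re_le_norm _).trans h1.le
    have h3 := (Complex.abs_re_le_norm _).trans (hβ v0.embedding)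
    rw [abs_le] at h2 h3
    rw [hγφ]
    simp only [map_add, map_natCast, map_sub, Complex.add_re, Complex.sub_re, Complex.natCast_re,
      Complex.one_re, Complex.mul_re, Complex.re_ofNat, Complex.im_ofNat, zero_mul, sub_zero]
      at h2 h3 ⊢
    linarith [h2.1, h2.2, h3.1, h3.2]
  have hγ0 : γ ≠ 0 := by
    intro h
    rw [h] at hneg0
    simp at hneg0
  have hneg : Algebra.norm ℤ γ < 0 := by
    refine p2_neg v0 hv0 γ hγ0 hneg0 fun w hw => ?_
    left
    have h1 : ‖w.embedding (x - T)‖ < 1 := by rw [norm_embedding_eq]; exact hx1 w hw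
    have h2 := (Complex.abs_re_le_norm _).trans h1.le
    have h3 := (Complex.abs_re_le_norm _).trans (hβ w.embedding)
    rw [abs_le] at h2 h3
    rw [hγφ]
    simp only [map_natCast, map_sub, Complex.add_re, Complex.sub_re, Complex.natCast_re,
      Complex.one_re, Complex.mul_re, Complex.re_ofNat, Complex.im_ofNat, zero_mul, sub_zero]
      at h2 h3 ⊢
    linarith [h2.1, h2.2, h3.1, h3.2]
  have hmod : Algebra.norm ℤ γ % 3 = 1 := by
    have h1 := p2_mod_int (p2_norm_mod (1 : 𝓞 E) (-β))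
    rw [map_one] at h1
    rw [hγ, h1]
    rfl
  refine ⟨Ideal.span {γ}, ?_, ?_⟩
  · rw [Ideal.absNorm_span_singleton]
    omega
  · rw [Ideal.absNorm_span_singleton]
    exact p2_norm_le γ _ hbnd2

/-! ### no real place -/

lemma p2_not_dvd {E : Type} [Field E] [NumberField E] (c : Ideal (𝓞 E)) (hc0 : c ≠ ⊥)
    (hc : c ⊔ Ideal.span {(3 : 𝓞 E)} = ⊤) : ¬ 3 ∣ Ideal.absNorm c := by
  intro h
  have : Finite (𝓞 E ⧸ c) := Ideal.finiteQuotientOfFreeOfNeBot c hc0
  have hp : Fact (Nat.Prime 3) := ⟨Nat.prime_three⟩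
  rw [Ideal.absNorm_apply, Submodule.cardQuot_apply] at h
  obtain ⟨x, hx⟩ := exists_prime_addOrderOf_dvd_card' (G := 𝓞 E ⧸ c) 3 h
  have h1 : (3 : ℕ) • x = 0 := by rw [← hx]; exact addOrderOf_nsmul_eq_zero x
  have h2 : (1 : 𝓞 E) ∈ c ⊔ Ideal.span {(3 : 𝓞 E)} := by rw [hc]; trivial
  obtain ⟨a, ha, b, hb, hab⟩ := Submodule.mem_sup.1 h2
  obtain ⟨b', rfl⟩ := Ideal.mem_span_singleton'.1 hb
  have h3 : x = 0 := by
    have e1 : (Ideal.Quotient.mk c a) = 0 := Ideal.Quotient.eq_zero_iff_mem.2 ha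
    have e2 : (Ideal.Quotient.mk c) (a + b' * 3) = 1 := by rw [hab, map_one]
    rw [map_add, e1, zero_add, map_mul] at e2
    have e3 : (Ideal.Quotient.mk c) (3 : 𝓞 E) = 3 := map_ofNat _ 3
    rw [e3] at e2
    have e4 : (3 : 𝓞 E ⧸ c) * x = 0 := by
      rw [nsmul_eq_mul] at h1
      exact_mod_cast h1
    calc x = 1 * x := (one_mul x).symm
      _ = (Ideal.Quotient.mk c b') * (3 * x) := by rw [← e2]; ring
      _ = 0 := by rw [e4, mul_zero]
  rw [h3, addOrderOf_zero] at hx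
  omega

lemma p2_mink {E : Type} [Field E] [NumberField E] (w : ℕ) (hw : 2 ≤ w)
    (hd : |(discr E : ℝ)| ≤ w) :
    (4 / Real.pi) ^ InfinitePlace.nrComplexPlaces E * ((finrank ℚ E).factorial /
      (finrank ℚ E : ℝ) ^ (finrank ℚ E) * Real.sqrt |(discr E : ℝ)|) ≤ 2 ^ finrank ℚ E * w := by
  have hw' : (2 : ℝ) ≤ w := by exact_mod_cast hw
  have hpi := Real.pi_gt_three
  have h1 : (4 / Real.pi) ^ InfinitePlace.nrComplexPlaces E ≤ (2 : ℝ) ^ finrank ℚ E := by
    calc (4 / Real.pi) ^ InfinitePlace.nrComplexPlaces E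
        ≤ (2 : ℝ) ^ InfinitePlace.nrComplexPlaces E := by
          apply pow_le_pow_left₀ (by positivity)
          rw [div_le_iff₀ (by linarith)]
          linarith
      _ ≤ (2 : ℝ) ^ finrank ℚ E := by
          apply pow_le_pow_right₀ (by norm_num)
          have := InfinitePlace.card_add_two_mul_card_eq_rank E
          omega
  have hn : 0 < finrank ℚ E := finrank_pos
  have h2 : ((finrank ℚ E).factorial / (finrank ℚ E : ℝ) ^ (finrank ℚ E) : ℝ) ≤ 1 := by
    rw [div_le_one (by positivity)]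
    exact_mod_cast Nat.factorial_le_pow (finrank ℚ E)
  have h3 : Real.sqrt |(discr E : ℝ)| ≤ w := by
    rw [Real.sqrt_le_left (by linarith)]
    nlinarith
  have h4 : ((finrank ℚ E).factorial / (finrank ℚ E : ℝ) ^ (finrank ℚ E) *
      Real.sqrt |(discr E : ℝ)| : ℝ) ≤ w := by
    calc _ ≤ 1 * Real.sqrt |(discr E : ℝ)| := mul_le_mul_of_nonneg_right h2 (Real.sqrt_nonneg _)
      _ ≤ w := by rw [one_mul]; exact h3
  exact mul_le_mul h1 h4 (by positivity) (by positivity)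

open InfinitePlace in
lemma p2_complex {E : Type} [Field E] [NumberField E] (R : ℝ) (hR : 1 ≤ R)
    (hc : ∀ x : E, ∃ β : 𝓞 E, ∀ φ : E →+* ℂ, ‖φ (x - β)‖ ≤ R)
    (hE : ∀ w : InfinitePlace E, IsComplex w) (P0 : Ideal (𝓞 E)) (hP0 : P0 ≠ ⊥)
    (hP2 : Ideal.absNorm P0 % 3 = 2) (w : ℕ) (hw : 2 ≤ w) (hd : |(discr E : ℝ)| ≤ w) :
    ∃ A : Ideal (𝓞 E), Ideal.absNorm A % 3 = 2 ∧
      (Ideal.absNorm A : ℝ) ≤ (3 * (2 ^ finrank ℚ E * w) * R) ^ finrank ℚ E := by
  classical
  have hw' : (2 : ℝ) ≤ w := by exact_mod_cast hw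
  have hP0' : P0 ∈ (Ideal (𝓞 E))⁰ := mem_nonZeroDivisors_iff_ne_zero.2 hP0
  obtain ⟨B, hB1, hB2⟩ := exists_ideal_in_class_of_norm_le (ClassGroup.mk0 ⟨P0, hP0'⟩)
  set NB := Ideal.absNorm (B : Ideal (𝓞 E)) with hNB
  have hB0 : (B : Ideal (𝓞 E)) ≠ ⊥ := nonZeroDivisors.coe_ne_zero B
  have hNB0 : NB ≠ 0 := by
    rw [hNB, Ne, Ideal.absNorm_eq_zero_iff]
    exact hB0
  have hNBle : (NB : ℝ) ≤ 2 ^ finrank ℚ E * w := by
    refine le_trans ?_ (p2_mink w hw hd)
    refine hB2.trans (le_of_eq ?_)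
    push_cast
    rfl
  set M : ℕ := 3 * NB with hM
  have hM0 : M ≠ 0 := by omega
  have hM0' : ((M : ℕ) : 𝓞 E) ≠ 0 := by exact_mod_cast hM0
  have hMB : ((M : ℕ) : 𝓞 E) ∈ (B : Ideal (𝓞 E)) := by
    rw [hM]
    push_cast
    exact Ideal.mul_mem_left _ _ (Ideal.absNorm_mem _)
  have hIB : Ideal.span {((M : ℕ) : 𝓞 E)} ≤ (B : Ideal (𝓞 E)) :=
    (Ideal.span_singleton_le_iff_mem _).2 hMB
  obtain ⟨d0, hd0⟩ := IsDedekindDomain.exists_sup_span_eq hIB (by
    rw [Ne, Ideal.zero_eq_bot, Ideal.span_singleton_eq_bot]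
    exact hM0')
  obtain ⟨β, hβ⟩ := hc ((d0 : E) / (M : E))
  set δ : 𝓞 E := d0 - M * β with hδ
  have hME : (M : E) ≠ 0 := by exact_mod_cast hM0
  have hδφ : ∀ φ : E →+* ℂ, ‖φ (δ : E)‖ ≤ M * R := by
    intro φ
    have e1 : (δ : E) = M * ((d0 : E) / (M : E) - β) := by
      rw [hδ]
      push_cast
      field_simp
    rw [e1, map_mul, norm_mul, map_natCast, Complex.norm_natCast]
    exact mul_le_mul_of_nonneg_left (hβ φ) (by positivity)
  have hsup : Ideal.span {((M : ℕ) : 𝓞 E)} ⊔ Ideal.span {δ} = (B : Ideal (𝓞 E)) := by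
    rw [← hd0]
    apply le_antisymm
    · refine sup_le le_sup_left ?_
      rw [Ideal.span_singleton_le_iff_mem, hδ]
      refine Ideal.sub_mem _ ?_ ?_
      · exact (le_sup_right : Ideal.span {d0} ≤ _) (Ideal.mem_span_singleton_self _)
      · exact (le_sup_left : Ideal.span {((M : ℕ) : 𝓞 E)} ≤ _)
          (Ideal.mul_mem_right _ _ (Ideal.mem_span_singleton_self _))
    · refine sup_le le_sup_left ?_
      rw [Ideal.span_singleton_le_iff_mem]
      have e1 : d0 = δ + M * β := by rw [hδ]; ring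
      rw [e1]
      refine Ideal.add_mem _ ?_ ?_
      · exact (le_sup_right : Ideal.span {δ} ≤ _) (Ideal.mem_span_singleton_self _)
      · exact (le_sup_left : Ideal.span {((M : ℕ) : 𝓞 E)} ≤ _)
          (Ideal.mul_mem_right _ _ (Ideal.mem_span_singleton_self _))
  have hdB : (B : Ideal (𝓞 E)) ∣ Ideal.span {δ} := by
    rw [Ideal.dvd_iff_le, ← hsup]
    exact le_sup_right
  obtain ⟨c, hcB⟩ := hdB
  have hNBB : (B : Ideal (𝓞 E)) ∣ Ideal.span {((NB : ℕ) : 𝓞 E)} := by
    rw [Ideal.dvd_iff_le, Ideal.span_singleton_le_iff_mem]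
    exact Ideal.absNorm_mem _
  obtain ⟨B', hB'⟩ := hNBB
  have hMspan : Ideal.span {((M : ℕ) : 𝓞 E)} =
      (B : Ideal (𝓞 E)) * (Ideal.span {(3 : 𝓞 E)} * B') := by
    have e1 : ((M : ℕ) : 𝓞 E) = 3 * ((NB : ℕ) : 𝓞 E) := by rw [hM]; push_cast; ring
    rw [e1, ← Ideal.span_singleton_mul_span_singleton, hB']
    ring
  have hcop : c ⊔ Ideal.span {(3 : 𝓞 E)} = ⊤ := by
    have e1 : (B : Ideal (𝓞 E)) * ((Ideal.span {(3 : 𝓞 E)} * B') ⊔ c) =
        (B : Ideal (𝓞 E)) * ⊤ := by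
      rw [Ideal.mul_sup, ← hMspan, ← hcB, hsup, Ideal.mul_top]
    have e2 := mul_left_cancel₀ (by rw [Ne, Ideal.zero_eq_bot]; exact hB0) e1
    rw [eq_top_iff, ← e2]
    exact sup_le (Ideal.mul_le_left.trans le_sup_right) le_sup_left
  have h3unit : Ideal.span {(3 : 𝓞 E)} ≠ ⊤ := by
    intro h
    have h1 := congrArg Ideal.absNorm h
    rw [Ideal.absNorm_span_singleton, Ideal.absNorm_top] at h1
    have h2 : (3 : 𝓞 E) = algebraMap ℤ (𝓞 E) 3 := by simp
    rw [h2, Algebra.norm_algebraMap, Int.natAbs_pow] at h1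
    have hn : 0 < finrank ℤ (𝓞 E) := by
      rw [RingOfIntegers.rank]
      exact finrank_pos
    have h4 : (3 : ℤ).natAbs ^ finrank ℤ (𝓞 E) ≠ 1 := by
      have : 1 < (3 : ℤ).natAbs ^ finrank ℤ (𝓞 E) := Nat.one_lt_pow hn.ne' (by decide)
      omega
    exact h4 h1
  have hc0 : c ≠ ⊥ := by
    rintro rfl
    rw [bot_sup_eq] at hcop
    exact h3unit hcop
  have hnd := p2_not_dvd c hc0 hcop
  have hδ0 : δ ≠ 0 := by
    intro h
    rw [h, Ideal.span_singleton_eq_bot.2 rfl] at hcB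
    have := mul_eq_zero.1 hcB.symm
    rcases this with h | h
    · exact hB0 h
    · exact hc0 h
  have hcn : (Ideal.absNorm c : ℝ) ≤ (M * R) ^ finrank ℚ E := by
    have h1 := p2_norm_le δ (M * R) hδφ
    refine le_trans ?_ h1
    have h2 := congrArg Ideal.absNorm hcB
    rw [Ideal.absNorm_span_singleton, map_mul] at h2
    rw [h2]
    have h3 : 1 ≤ Ideal.absNorm (B : Ideal (𝓞 E)) := Nat.one_le_iff_ne_zero.2 hNB0
    exact_mod_cast Nat.le_mul_of_pos_left _ h3
  have hMR : (M : ℝ) * R ≤ 3 * (2 ^ finrank ℚ E * w) * R := by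
    refine mul_le_mul_of_nonneg_right ?_ (by linarith)
    rw [hM]
    push_cast
    linarith
  by_cases hc2 : Ideal.absNorm c % 3 = 2
  · refine ⟨c, hc2, hcn.trans ?_⟩
    exact pow_le_pow_left₀ (by positivity) hMR _
  · have hc1 : Ideal.absNorm c % 3 = 1 := by omega
    have hc' : c ∈ (Ideal (𝓞 E))⁰ := mem_nonZeroDivisors_iff_ne_zero.2 hc0
    have hspan' : Ideal.span {δ} ∈ (Ideal (𝓞 E))⁰ := mem_nonZeroDivisors_iff_ne_zero.2 (by
      rw [Ne, Ideal.zero_eq_bot, Ideal.span_singleton_eq_bot]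
      exact hδ0)
    have hprin : (P0 * c).IsPrincipal := by
      have h1 : ClassGroup.mk0 (⟨P0, hP0'⟩ * ⟨c, hc'⟩ : (Ideal (𝓞 E))⁰) = 1 := by
        rw [map_mul, ← hB1, ← map_mul]
        rw [ClassGroup.mk0_eq_one_iff]
        have : ((B * ⟨c, hc'⟩ : (Ideal (𝓞 E))⁰) : Ideal (𝓞 E)) = Ideal.span {δ} := by
          rw [hcB]; rfl
        rw [this]
        exact ⟨δ, rfl⟩
      rw [ClassGroup.mk0_eq_one_iff] at h1
      exact h1
    obtain ⟨g, hg⟩ := hprin
    have hg' : P0 * c = Ideal.span {g} := hg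
    have hgn : (Algebra.norm ℤ g).natAbs % 3 = 2 := by
      rw [← Ideal.absNorm_span_singleton, ← hg', map_mul, Nat.mul_mod, hP2, hc1]
    have hg0 : g ≠ 0 := by
      rintro rfl
      simp at hgn
    have hgpos := p2_pos hE g hg0
    have hgn' : Algebra.norm ℤ g % 3 = 2 := by omega
    obtain ⟨β', hβ'⟩ := hc ((g : E) / 3)
    set g' : 𝓞 E := g - 3 * β' with hg'def
    have hg'n : Algebra.norm ℤ g' % 3 = 2 := by
      rw [hg'def, p2_mod_int (p2_norm_mod g β')]
      exact hgn'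
    have hg'0 : g' ≠ 0 := by
      intro h
      rw [h, Algebra.norm_zero] at hg'n
      simp at hg'n
    have hg'pos := p2_pos hE g' hg'0
    refine ⟨Ideal.span {g'}, ?_, ?_⟩
    · rw [Ideal.absNorm_span_singleton]
      omega
    · rw [Ideal.absNorm_span_singleton]
      have h1 : ((Algebra.norm ℤ g').natAbs : ℝ) ≤ (3 * R) ^ finrank ℚ E := by
        refine p2_norm_le g' _ fun φ => ?_
        have e1 : (g' : E) = 3 * ((g : E) / 3 - β') := by
          rw [hg'def]
          change algebraMap (𝓞 E) E (g - 3 * β') = 3 * (algebraMap (𝓞 E) E g / 3 -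
            algebraMap (𝓞 E) E β')
          rw [map_sub, map_mul, map_ofNat]
          field_simp
        rw [e1, map_mul, norm_mul, map_ofNat, Complex.norm_ofNat]
        exact mul_le_mul_of_nonneg_left (hβ' φ) (by norm_num)
      refine h1.trans (pow_le_pow_left₀ (by positivity) ?_ _)
      refine mul_le_mul_of_nonneg_right ?_ (by linarith)
      have h5 : (1 : ℝ) ≤ 2 ^ finrank ℚ E := one_le_pow₀ (by norm_num)
      nlinarith

/-! P2 -/
theorem small_two (n : ℕ) : ∃ C : ℕ, ∀ (E : Type) [Field E] [NumberField E], finrank ℚ E = n →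
    (∀ x : E, x ^ 2 ≠ -3) → ∀ w : ℕ, 2 ≤ w → |(discr E : ℝ)| ≤ w →
      ∃ A : Ideal (𝓞 E), Ideal.absNorm A % 3 = 2 ∧ Ideal.absNorm A ≤ w ^ C := by
  obtain ⟨C₁, hC₁⟩ := cover n
  refine ⟨(n + 8 + C₁) * n, ?_⟩
  intro E _ _ hn h3 w hw hd
  have hw' : (2 : ℝ) ≤ w := by exact_mod_cast hw
  have hc := hC₁ E hn w hw hd
  set R : ℝ := (w : ℝ) ^ C₁ with hRdef
  have hR : 1 ≤ R := one_le_pow₀ (by linarith)
  have key : ∃ A : Ideal (𝓞 E), Ideal.absNorm A % 3 = 2 ∧
      (Ideal.absNorm A : ℝ) ≤ ((w : ℝ) ^ (n + 8 + C₁)) ^ finrank ℚ E := by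
    by_cases hE : ∀ v : InfinitePlace E, InfinitePlace.IsComplex v
    · obtain ⟨P0, -, hP0, hP2⟩ := exists_two E h3
      obtain ⟨A, hA1, hA2⟩ := p2_complex R hR hc hE P0 hP0 hP2 w hw hd
      refine ⟨A, hA1, hA2.trans (pow_le_pow_left₀ (by positivity) ?_ _)⟩
      rw [hn]
      have h1 : (3 : ℝ) ≤ (w : ℝ) ^ 2 := by nlinarith
      have h2 : (2 : ℝ) ^ n ≤ (w : ℝ) ^ n := pow_le_pow_left₀ (by norm_num) hw' n
      calc 3 * (2 ^ n * (w : ℝ)) * R ≤ (w : ℝ) ^ 2 * ((w : ℝ) ^ n * w) * R := by gcongr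
        _ = (w : ℝ) ^ (n + 3 + C₁) := by rw [hRdef]; ring
        _ ≤ (w : ℝ) ^ (n + 8 + C₁) := pow_le_pow_right₀ (by linarith) (by omega)
    · push Not at hE
      obtain ⟨v0, hv0⟩ := hE
      obtain ⟨A, hA1, hA2⟩ := p2_real R hR hc v0 (InfinitePlace.not_isComplex_iff_isReal.1 hv0)
      refine ⟨A, hA1, hA2.trans (pow_le_pow_left₀ (by positivity) ?_ _)⟩
      have h1 : (19 : ℝ) ≤ (w : ℝ) ^ 5 := by
        calc (19 : ℝ) ≤ 2 ^ 5 := by norm_num
          _ ≤ (w : ℝ) ^ 5 := pow_le_pow_left₀ (by norm_num) hw' 5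
      calc 19 * R ≤ (w : ℝ) ^ 5 * R := by gcongr
        _ = (w : ℝ) ^ (5 + C₁) := by rw [hRdef]; ring
        _ ≤ (w : ℝ) ^ (n + 8 + C₁) := pow_le_pow_right₀ (by linarith) (by omega)
  obtain ⟨A, hA1, hA2⟩ := key
  refine ⟨A, hA1, ?_⟩
  rw [hn, ← pow_mul] at hA2
  exact_mod_cast hA2

end Pool.Agent.Lib.MP_695920_nt.Od
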