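import Mathlib
import Pool.Agent.Lib.MP_695920_nt.Od.Defs

/-!
# A covering by few residue classes of primes needs many primes
-/

set_option autoImplicit false

open Finset

namespace Pool.Agent.Lib.MP_695920_nt.Od

theorem p5_count (X p r : ℕ) (hp : 0 < p) :
    (((Finset.Icc 1 X).filter (fun m => m ≡ r [MOD p])).card : ℝ) ≤ X / p + 1 := by
  have h1 : Finset.Icc 1 X = Finset.Ioc 0 X := by
    ext m
    simp only [Finset.mem_Icc, Finset.mem_Ioc]
    omega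
  rw [h1]
  have h2 := Nat.Ioc_filter_modEq_card 0 X hp r
  have hp' : (0 : ℚ) < p := by exact_mod_cast hp
  have h3 : ((#{x ∈ Finset.Ioc 0 X | x ≡ r [MOD p]} : ℕ) : ℚ) ≤ X / p + 1 := by
    have h4 : ((#{x ∈ Finset.Ioc 0 X | x ≡ r [MOD p]} : ℕ) : ℚ) =
        ((#{x ∈ Finset.Ioc 0 X | x ≡ r [MOD p]} : ℤ) : ℚ) := by push_cast; rfl
    rw [h4, h2]
    push_cast
    apply max_le
    · have h5 := Int.floor_le (((X : ℚ) - r) / p)
      have h6 := Int.lt_floor_add_one (((0 : ℚ) - r) / p)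
      have h7 : ((X : ℚ) - r) / p - ((0 : ℚ) - r) / p = X / p := by ring
      linarith
    · positivity
  have h5 : (((#{x ∈ Finset.Ioc 0 X | x ≡ r [MOD p]} : ℕ) : ℚ) : ℝ) ≤ ((X / p + 1 : ℚ) : ℝ) := by
    exact_mod_cast h3
  push_cast at h5
  exact h5

theorem p5_cover {d X : ℕ} {S : Finset ℕ} {Ω : ℕ → Finset ℕ} (hS : ∀ p ∈ S, 0 < p)
    (hΩ : ∀ p, (Ω p).card ≤ d)
    (hcov : ∀ m ∈ Finset.Icc 1 X, ∃ p ∈ S, ∃ r ∈ Ω p, m ≡ r [MOD p]) :
    (X : ℝ) ≤ d * X * ∑ p ∈ S, (1 / (p : ℝ)) + d * S.card := by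
  have h1 : Finset.Icc 1 X ⊆ S.biUnion (fun p => (Ω p).biUnion (fun r =>
      (Finset.Icc 1 X).filter (fun m => m ≡ r [MOD p]))) := by
    intro m hm
    obtain ⟨p, hp, r, hr, h⟩ := hcov m hm
    simp only [Finset.mem_biUnion, Finset.mem_filter]
    exact ⟨p, hp, r, hr, hm, h⟩
  have h2 := Finset.card_le_card h1
  rw [Nat.card_Icc, Nat.add_sub_cancel] at h2
  have h3 : (X : ℝ) ≤ ∑ p ∈ S, ∑ r ∈ Ω p,
      (((Finset.Icc 1 X).filter (fun m => m ≡ r [MOD p])).card : ℝ) := by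
    have h4 := h2.trans (Finset.card_biUnion_le.trans (Finset.sum_le_sum fun p _ =>
      Finset.card_biUnion_le (s := Ω p)))
    exact_mod_cast h4
  refine h3.trans ?_
  have h5 : ∀ p ∈ S, ∑ r ∈ Ω p, (((Finset.Icc 1 X).filter (fun m => m ≡ r [MOD p])).card : ℝ) ≤
      d * (X / p + 1) := by
    intro p hp
    calc ∑ r ∈ Ω p, (((Finset.Icc 1 X).filter (fun m => m ≡ r [MOD p])).card : ℝ)
        ≤ ∑ r ∈ Ω p, ((X : ℝ) / p + 1) := Finset.sum_le_sum fun r _ => p5_count X p r (hS p hp)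
      _ = (Ω p).card * ((X : ℝ) / p + 1) := by rw [Finset.sum_const, nsmul_eq_mul]
      _ ≤ d * (X / p + 1) := by
        apply mul_le_mul_of_nonneg_right _ (by positivity)
        exact_mod_cast hΩ p
  refine (Finset.sum_le_sum h5).trans (le_of_eq ?_)
  rw [← Finset.mul_sum, Finset.sum_add_distrib, Finset.sum_const, nsmul_eq_mul, mul_one,
    Finset.mul_sum]
  rw [mul_add, Finset.mul_sum]
  congr 1
  refine Finset.sum_congr rfl fun p _ => ?_
  ring

theorem p5_dyadic (T : Finset ℕ) (f : ℕ → ℝ) (a b : ℕ)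
    (hT : ∀ p ∈ T, Nat.log 2 p ∈ Finset.Ico a b)
    (hf : ∀ k ∈ Finset.Ico a b, ∑ p ∈ T.filter (fun p => Nat.log 2 p = k), (1 / (p : ℝ)) ≤ f k) :
    ∑ p ∈ T, (1 / (p : ℝ)) ≤ ∑ k ∈ Finset.Ico a b, f k := by
  rw [← Finset.sum_fiberwise_of_maps_to hT]
  exact Finset.sum_le_sum hf

theorem p5_block (T : Finset ℕ) (z k : ℕ) (hz : 2 ≤ z) (hT : ∀ p ∈ T, p.Prime ∧ z < p) :
    ∑ p ∈ T.filter (fun p => Nat.log 2 p = k), (1 / (p : ℝ)) ≤
      4 * Real.log 2 / Real.log z := by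
  have hlz : 0 < Real.log z := Real.log_pos (by exact_mod_cast hz)
  have h1 : ∀ p ∈ T.filter (fun p => Nat.log 2 p = k), (1 / (p : ℝ)) ≤
      Real.log p * (1 / (2 ^ k * Real.log z)) := by
    intro p hp
    rw [Finset.mem_filter] at hp
    obtain ⟨hpT, hk⟩ := hp
    obtain ⟨hpp, hzp⟩ := hT p hpT
    have h2 : 2 ^ k ≤ p := by
      rw [← hk]
      exact Nat.pow_log_le_self 2 hpp.ne_zero
    have h3 : (2 : ℝ) ^ k ≤ p := by exact_mod_cast h2
    have hzp' : (z : ℝ) ≤ p := by exact_mod_cast hzp.le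
    have hz0 : (0 : ℝ) < z := by positivity
    have h4 : Real.log z ≤ Real.log p := Real.log_le_log hz0 hzp'
    have hp0 : (0 : ℝ) < p := by linarith
    have h2k : (0 : ℝ) < 2 ^ k := by positivity
    calc (1 / (p : ℝ)) ≤ 1 / 2 ^ k := one_div_le_one_div_of_le h2k h3
      _ = Real.log z * (1 / (2 ^ k * Real.log z)) := by field_simp
      _ ≤ Real.log p * (1 / (2 ^ k * Real.log z)) :=
        mul_le_mul_of_nonneg_right h4 (by positivity)
  refine (Finset.sum_le_sum h1).trans ?_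
  rw [← Finset.sum_mul]
  have h5 : ∑ p ∈ T.filter (fun p => Nat.log 2 p = k), Real.log p ≤
      Chebyshev.theta ((2 : ℝ) ^ (k + 1)) := by
    rw [Chebyshev.theta_eq_sum_Icc]
    refine Finset.sum_le_sum_of_subset_of_nonneg ?_ ?_
    · intro p hp
      rw [Finset.mem_filter] at hp
      obtain ⟨hpT, hk⟩ := hp
      obtain ⟨hpp, hzp⟩ := hT p hpT
      rw [Finset.mem_filter, Finset.mem_Icc]
      refine ⟨⟨Nat.zero_le _, ?_⟩, hpp⟩
      apply Nat.le_floor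
      have : p < 2 ^ (k + 1) := by
        rw [← hk]
        exact Nat.lt_pow_succ_log_self (by norm_num) p
      exact_mod_cast this.le
    · intro p _ _
      exact Real.log_natCast_nonneg p
  have h6 := Chebyshev.theta_le_log4_mul_x (x := (2 : ℝ) ^ (k + 1)) (by positivity)
  have h7 : Real.log 4 = 2 * Real.log 2 := by
    rw [show (4 : ℝ) = 2 ^ 2 by norm_num, Real.log_pow]
    norm_num
  calc (∑ p ∈ T.filter (fun p => Nat.log 2 p = k), Real.log p) * (1 / (2 ^ k * Real.log z))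
      ≤ (Real.log 4 * 2 ^ (k + 1)) * (1 / (2 ^ k * Real.log z)) :=
        mul_le_mul_of_nonneg_right (h5.trans h6) (by positivity)
    _ = 4 * Real.log 2 / Real.log z := by
      rw [h7, pow_succ]
      field_simp
      ring

theorem p5_mid (T : Finset ℕ) (z : ℕ) (δ : ℝ) (hz : 2 ≤ z) (hδ : 0 ≤ δ)
    (hT : ∀ p ∈ T, p.Prime ∧ z < p ∧ (p : ℝ) ≤ (z : ℝ) ^ (1 + δ)) :
    ∑ p ∈ T, (1 / (p : ℝ)) ≤ 4 * δ + 8 * Real.log 2 / Real.log z := by
  have hlz : 0 < Real.log z := Real.log_pos (by exact_mod_cast hz)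
  have hl2 : 0 < Real.log 2 := Real.log_pos (by norm_num)
  have hz0 : (0 : ℝ) < z := by positivity
  set a := Nat.log 2 z
  set b := ⌊(1 + δ) * Real.log z / Real.log 2⌋₊ + 1
  have h0 : 0 ≤ (1 + δ) * Real.log z / Real.log 2 := by positivity
  have h1 : ∀ p ∈ T, Nat.log 2 p ∈ Finset.Ico a b := by
    intro p hp
    obtain ⟨hpp, hzp, hpz⟩ := hT p hp
    rw [Finset.mem_Ico]
    refine ⟨Nat.log_mono_right hzp.le, Nat.lt_succ_of_le (Nat.le_floor ?_)⟩
    have h2 := Real.natLog_le_logb p 2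
    refine h2.trans ?_
    unfold Real.logb
    push_cast
    apply div_le_div_of_nonneg_right _ hl2.le
    have hp0 : (0 : ℝ) < p := by exact_mod_cast hpp.pos
    calc Real.log p ≤ Real.log ((z : ℝ) ^ (1 + δ)) := Real.log_le_log hp0 hpz
      _ = (1 + δ) * Real.log z := Real.log_rpow hz0 _
  refine (p5_dyadic T (fun _ => 4 * Real.log 2 / Real.log z) a b h1
    (fun k _ => p5_block T z k hz fun p hp => ⟨(hT p hp).1, (hT p hp).2.1⟩)).trans ?_
  rw [Finset.sum_const, Nat.card_Ico, nsmul_eq_mul]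
  have h3 : ((b - a : ℕ) : ℝ) ≤ δ * Real.log z / Real.log 2 + 2 := by
    have h4 : (b : ℝ) ≤ (1 + δ) * Real.log z / Real.log 2 + 1 := by
      have := Nat.floor_le h0
      simp only [b]
      push_cast
      linarith
    have h5 : Real.log z / Real.log 2 ≤ a + 1 := by
      rw [div_le_iff₀ hl2]
      have h6 : z < 2 ^ (a + 1) := Nat.lt_pow_succ_log_self (by norm_num) z
      have h7 : (z : ℝ) ≤ 2 ^ (a + 1) := by exact_mod_cast h6.le
      have h8 := Real.log_le_log hz0 h7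
      rw [Real.log_pow] at h8
      push_cast at h8
      exact h8
    have h9 : 0 ≤ δ * Real.log z / Real.log 2 + 2 := by positivity
    rcases le_total a b with hab | hab
    · rw [Nat.cast_sub hab]
      have : (1 + δ) * Real.log z / Real.log 2 = Real.log z / Real.log 2 +
          δ * Real.log z / Real.log 2 := by ring
      linarith
    · rw [Nat.sub_eq_zero_of_le hab]
      simpa using h9
  calc ((b - a : ℕ) : ℝ) * (4 * Real.log 2 / Real.log z)
      ≤ (δ * Real.log z / Real.log 2 + 2) * (4 * Real.log 2 / Real.log z) :=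
        mul_le_mul_of_nonneg_right h3 (by positivity)
    _ = 4 * δ + 8 * Real.log 2 / Real.log z := by
      field_simp
      ring

theorem p5_choose (P : ℕ → Prop) (U : Finset ℕ) (y Y : ℕ) (hU : ∀ p ∈ U, p.Prime ∧ P p ∧ p ≤ y)
    (hy : 1 < y) (hyY : y ≤ Y) : U.card.choose (Nat.log y Y) ≤ (prods P Y).card := by
  classical
  rw [← Finset.card_powersetCard]
  refine Finset.card_le_card_of_injOn (fun s => ∏ p ∈ s, p) ?_ ?_
  · intro s hs
    rw [Finset.mem_coe, Finset.mem_powersetCard] at hs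
    obtain ⟨hsU, hsc⟩ := hs
    have hpr : ∀ p ∈ s, p.Prime := fun p hp => (hU p (hsU hp)).1
    rw [Finset.mem_coe, mem_prods]
    refine ⟨⟨?_, ?_⟩, ?_, ?_⟩
    · exact Nat.pos_of_ne_zero (Finset.prod_ne_zero_iff.2 fun p hp => (hpr p hp).ne_zero)
    · calc ∏ p ∈ s, p ≤ y ^ s.card := Finset.prod_le_pow_card _ _ _
            fun p hp => (hU p (hsU hp)).2.2
        _ = y ^ Nat.log y Y := by rw [hsc]
        _ ≤ Y := Nat.pow_log_le_self y (by omega)
    · refine Finset.squarefree_prod_of_pairwise_isCoprime ?_ fun p hp => (hpr p hp).squarefree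
      intro p hp q hq hpq
      exact Nat.coprime_iff_isRelPrime.1 ((Nat.coprime_primes (hpr p hp) (hpr q hq)).2 hpq)
    · intro p hp hdvd
      obtain ⟨q, hq, hpq⟩ := (hp.prime.dvd_finsetProd_iff _).1 hdvd
      have : p = q := (Nat.prime_dvd_prime_iff_eq hp (hpr q hq)).1 hpq
      rw [this]
      exact (hU q (hsU hq)).2.1
  · intro s hs t ht hst
    rw [Finset.mem_coe, Finset.mem_powersetCard] at hs ht
    simp only at hst
    rw [← Nat.primeFactors_prod (s := s) fun p hp => (hU p (hs.1 hp)).1, hst,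
      Nat.primeFactors_prod (s := t) fun p hp => (hU p (ht.1 hp)).1]

theorem p5_small_aux (P : ℕ → Prop) (U : Finset ℕ) (y Y : ℕ) (c : ℝ) (hc : 0 < c)
    (hU : ∀ p ∈ U, p.Prime ∧ P p ∧ p ≤ y) (hy : 3 ≤ y) (hyY : y ≤ Y)
    (hΨ : ((prods P Y).card : ℝ) < (Y : ℝ) ^ c) :
    (U.card : ℝ) ≤ 2 * Real.log Y * (y : ℝ) ^ (2 * c) := by
  have h1 := p5_choose P U y Y hU (by omega) hyY
  set j := Nat.log y Y with hj
  have hj1 : 1 ≤ j := Nat.log_pos (by omega) hyY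
  have hy0 : (0 : ℝ) < y := by positivity
  have hY0 : (0 : ℝ) < Y := by
    have : 0 < Y := by omega
    exact_mod_cast this
  have hj0 : (0 : ℝ) < j := by exact_mod_cast hj1
  have hly : 1 ≤ Real.log y := by
    rw [Real.le_log_iff_exp_le hy0]
    have h3 : (3 : ℝ) ≤ y := by exact_mod_cast hy
    linarith [Real.exp_one_lt_d9]
  have hjY : (j : ℝ) ≤ Real.log Y := by
    have h2 : y ^ j ≤ Y := Nat.pow_log_le_self y (by omega)
    have h3 : ((y : ℝ)) ^ j ≤ Y := by exact_mod_cast h2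
    have h4 := Real.log_le_log (by positivity) h3
    rw [Real.log_pow] at h4
    nlinarith
  have hYj : Real.log Y ≤ 2 * j * Real.log y := by
    have h2 : Y < y ^ (j + 1) := Nat.lt_pow_succ_log_self (by omega) Y
    have h3 : (Y : ℝ) ≤ (y : ℝ) ^ (j + 1) := by exact_mod_cast h2.le
    have h4 := Real.log_le_log hY0 h3
    rw [Real.log_pow] at h4
    push_cast at h4
    have h5 : (j : ℝ) + 1 ≤ 2 * j := by
      have : (1 : ℝ) ≤ j := by exact_mod_cast hj1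
      linarith
    nlinarith
  -- the j-th root
  have h2 : (((U.card + 1 - j : ℕ) : ℝ)) ^ j / (j.factorial : ℝ) ≤ (U.card.choose j : ℝ) := by
    exact_mod_cast Nat.pow_le_choose (α := ℝ) j U.card
  have h3 : (((U.card + 1 - j : ℕ) : ℝ)) ^ j < ((j : ℝ) * (Y : ℝ) ^ (c / j)) ^ j := by
    have h4 : (U.card.choose j : ℝ) < (Y : ℝ) ^ c := by
      refine lt_of_le_of_lt ?_ hΨ
      exact_mod_cast h1
    have h5 := h2.trans_lt h4
    rw [div_lt_iff₀ (by positivity)] at h5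
    refine h5.trans_le ?_
    rw [mul_pow, ← Real.rpow_natCast ((Y : ℝ) ^ (c / j)) j, ← Real.rpow_mul hY0.le,
      div_mul_cancel₀ _ hj0.ne', mul_comm]
    apply mul_le_mul_of_nonneg_right _ (by positivity)
    exact_mod_cast Nat.factorial_le_pow j
  have h4 : ((U.card + 1 - j : ℕ) : ℝ) < (j : ℝ) * (Y : ℝ) ^ (c / j) :=
    lt_of_pow_lt_pow_left₀ j (by positivity) h3
  have h5 : (U.card : ℝ) ≤ ((U.card + 1 - j : ℕ) : ℝ) + j := by
    have : U.card ≤ (U.card + 1 - j) + j := by omega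
    exact_mod_cast this
  have h6 : (Y : ℝ) ^ (c / j) ≤ (y : ℝ) ^ (2 * c) := by
    rw [Real.rpow_def_of_pos hY0, Real.rpow_def_of_pos hy0]
    apply Real.exp_le_exp.2
    rw [mul_div_assoc', div_le_iff₀ hj0]
    nlinarith
  have h7 : 1 ≤ (y : ℝ) ^ (2 * c) := by
    apply Real.one_le_rpow _ (by positivity)
    have : 1 ≤ y := by omega
    exact_mod_cast this
  calc (U.card : ℝ) ≤ (j : ℝ) * (Y : ℝ) ^ (c / j) + j := by linarith
    _ ≤ j * (y : ℝ) ^ (2 * c) + j * (y : ℝ) ^ (2 * c) := by nlinarith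
    _ = 2 * j * (y : ℝ) ^ (2 * c) := by ring
    _ ≤ 2 * Real.log Y * (y : ℝ) ^ (2 * c) := by
      apply mul_le_mul_of_nonneg_right _ (by positivity)
      linarith

theorem p5_small (P : ℕ → Prop) (S : Finset ℕ) (y Y : ℕ) (c : ℝ) (hc : 0 < c)
    (hS : ∀ p ∈ S, p.Prime ∧ P p ∧ p ≤ Y) (hy : 3 ≤ y) (hY : 3 ≤ Y)
    (hΨ : ((prods P Y).card : ℝ) < (Y : ℝ) ^ c) :
    ((S.filter (fun p => p ≤ y)).card : ℝ) ≤ 2 * Real.log Y * (y : ℝ) ^ (2 * c) := by
  rcases le_total y Y with h | h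
  · refine p5_small_aux P _ y Y c hc (fun p hp => ?_) hy h hΨ
    rw [Finset.mem_filter] at hp
    exact ⟨(hS p hp.1).1, (hS p hp.1).2.1, hp.2⟩
  · have h1 := p5_small_aux P (S.filter (fun p => p ≤ y)) Y Y c hc (fun p hp => ?_) hY le_rfl hΨ
    · refine h1.trans ?_
      have hlog : 0 ≤ Real.log Y := Real.log_natCast_nonneg Y
      apply mul_le_mul_of_nonneg_left _ (by positivity)
      apply Real.rpow_le_rpow (by positivity) _ (by positivity)
      exact_mod_cast h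
    · rw [Finset.mem_filter] at hp
      exact hS p hp.1

theorem p5_large (P : ℕ → Prop) (S : Finset ℕ) (Y : ℕ) (c Z : ℝ) (hc : 0 < c) (hc4 : c ≤ 1 / 4)
    (hZ : 3 ≤ Z) (hS : ∀ p ∈ S, p.Prime ∧ P p ∧ p ≤ Y) (hY : 3 ≤ Y)
    (hΨ : ((prods P Y).card : ℝ) < (Y : ℝ) ^ c) (hSZ : ∀ p ∈ S, Z < (p : ℝ)) :
    ∑ p ∈ S, (1 / (p : ℝ)) ≤ 16 * Real.log Y * Z ^ (2 * c - 1) := by
  have hlog : 0 ≤ Real.log Y := Real.log_natCast_nonneg Y
  set a := Nat.log 2 ⌊Z⌋₊ with ha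
  set b := Nat.log 2 Y + 1 with hb
  have hZ0 : 0 < Z := by linarith
  have hfl : 3 ≤ ⌊Z⌋₊ := Nat.le_floor (by exact_mod_cast hZ)
  have haZ : Z < 2 ^ (a + 1) := by
    have h1 : ⌊Z⌋₊ < 2 ^ (a + 1) := Nat.lt_pow_succ_log_self (by norm_num) _
    have h2 : ⌊Z⌋₊ + 1 ≤ 2 ^ (a + 1) := h1
    have h3 : ((⌊Z⌋₊ : ℕ) : ℝ) + 1 ≤ 2 ^ (a + 1) := by exact_mod_cast h2
    exact (Nat.lt_floor_add_one Z).trans_le h3
  have ha1 : 1 ≤ a := Nat.log_pos (by norm_num) (by omega)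
  have hmem : ∀ p ∈ S, Nat.log 2 p ∈ Finset.Ico a b := by
    intro p hp
    rw [Finset.mem_Ico]
    refine ⟨Nat.log_mono_right ?_, Nat.lt_succ_of_le (Nat.log_mono_right (hS p hp).2.2)⟩
    exact Nat.floor_le_of_le (hSZ p hp).le
  set ρ : ℝ := (2 : ℝ) ^ (2 * c - 1) with hρ
  have hρ0 : 0 < ρ := by positivity
  have hρ34 : ρ ≤ 3 / 4 := by
    have h1 : ρ ≤ (2 : ℝ) ^ (-(1 / 2) : ℝ) := by
      apply Real.rpow_le_rpow_of_exponent_le (by norm_num)
      linarith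
    refine h1.trans ?_
    rw [Real.rpow_neg (by norm_num), ← Real.sqrt_eq_rpow]
    rw [inv_le_comm₀ (by positivity) (by norm_num)]
    apply Real.le_sqrt_of_sq_le
    norm_num
  have hblock : ∀ k ∈ Finset.Ico a b,
      ∑ p ∈ S.filter (fun p => Nat.log 2 p = k), (1 / (p : ℝ)) ≤
        2 * Real.log Y * (2 : ℝ) ^ (2 * c) * ρ ^ k := by
    intro k hk
    rw [Finset.mem_Ico] at hk
    have h1 : ∀ p ∈ S.filter (fun p => Nat.log 2 p = k), (1 / (p : ℝ)) ≤ 1 / 2 ^ k := by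
      intro p hp
      rw [Finset.mem_filter] at hp
      have h2 : 2 ^ k ≤ p := by
        rw [← hp.2]
        exact Nat.pow_log_le_self 2 (hS p hp.1).1.ne_zero
      have h3 : (2 : ℝ) ^ k ≤ p := by exact_mod_cast h2
      exact one_div_le_one_div_of_le (by positivity) h3
    refine (Finset.sum_le_sum h1).trans ?_
    rw [Finset.sum_const, nsmul_eq_mul]
    have h2 : ((S.filter (fun p => Nat.log 2 p = k)).card : ℝ) ≤
        2 * Real.log Y * (((2 ^ (k + 1) : ℕ) : ℝ)) ^ (2 * c) := by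
      have h3 := p5_small P S (2 ^ (k + 1)) Y c hc hS
        (by
          have : 2 ^ (1 + 1) ≤ 2 ^ (k + 1) := Nat.pow_le_pow_right (by norm_num) (by omega)
          omega) hY hΨ
      refine le_trans ?_ h3
      have h4 : S.filter (fun p => Nat.log 2 p = k) ⊆ S.filter (fun p => p ≤ 2 ^ (k + 1)) := by
        intro p hp
        rw [Finset.mem_filter] at hp ⊢
        refine ⟨hp.1, ?_⟩
        rw [← hp.2]
        exact (Nat.lt_pow_succ_log_self (by norm_num) p).le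
      exact_mod_cast Finset.card_le_card h4
    have h5 : (((2 ^ (k + 1) : ℕ) : ℝ)) ^ (2 * c) * (1 / 2 ^ k) = (2 : ℝ) ^ (2 * c) * ρ ^ k := by
      push_cast
      rw [hρ, ← Real.rpow_natCast, ← Real.rpow_natCast, ← Real.rpow_natCast,
        ← Real.rpow_mul (by norm_num), ← Real.rpow_mul (by norm_num), one_div,
        ← Real.rpow_neg (by norm_num), ← Real.rpow_add (by norm_num),
        ← Real.rpow_add (by norm_num)]
      congr 1
      push_cast
      ring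
    calc ((S.filter (fun p => Nat.log 2 p = k)).card : ℝ) * (1 / 2 ^ k)
        ≤ 2 * Real.log Y * (((2 ^ (k + 1) : ℕ) : ℝ)) ^ (2 * c) * (1 / 2 ^ k) :=
          mul_le_mul_of_nonneg_right h2 (by positivity)
      _ = 2 * Real.log Y * ((((2 ^ (k + 1) : ℕ) : ℝ)) ^ (2 * c) * (1 / 2 ^ k)) := by ring
      _ = 2 * Real.log Y * (2 : ℝ) ^ (2 * c) * ρ ^ k := by rw [h5]; ring
  refine (p5_dyadic S _ a b hmem hblock).trans ?_
  rw [← Finset.mul_sum]
  have h6 : ∑ k ∈ Finset.Ico a b, ρ ^ k ≤ ρ ^ a / (1 - ρ) :=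
    geom_sum_Ico_le_of_lt_one hρ0.le (by linarith)
  have h7 : ρ ^ a / (1 - ρ) ≤ 4 * ρ ^ a := by
    rw [div_le_iff₀ (by linarith)]
    have : 0 < ρ ^ a := by positivity
    nlinarith
  have h8 : ρ ^ a ≤ (2 : ℝ) ^ (1 - 2 * c) * Z ^ (2 * c - 1) := by
    have h9 : Z / 2 ≤ (2 : ℝ) ^ a := by
      rw [pow_succ] at haZ
      linarith
    have h10 : ρ ^ a = ((2 : ℝ) ^ a) ^ (2 * c - 1) := by
      rw [hρ, ← Real.rpow_natCast, ← Real.rpow_natCast, ← Real.rpow_mul (by norm_num),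
        ← Real.rpow_mul (by norm_num), mul_comm]
    rw [h10]
    have h11 : ((2 : ℝ) ^ a) ^ (2 * c - 1) ≤ (Z / 2) ^ (2 * c - 1) :=
      Real.rpow_le_rpow_of_nonpos (by positivity) h9 (by linarith)
    refine h11.trans (le_of_eq ?_)
    rw [Real.div_rpow hZ0.le (by norm_num), div_eq_mul_inv, ← Real.rpow_neg (by norm_num),
      mul_comm]
    congr 2
    ring
  have h12 : (2 : ℝ) ^ (2 * c) * (2 : ℝ) ^ (1 - 2 * c) = 2 := by
    rw [← Real.rpow_add (by norm_num)]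
    have : 2 * c + (1 - 2 * c) = 1 := by ring
    rw [this, Real.rpow_one]
  calc 2 * Real.log Y * (2 : ℝ) ^ (2 * c) * ∑ k ∈ Finset.Ico a b, ρ ^ k
      ≤ 2 * Real.log Y * (2 : ℝ) ^ (2 * c) *
        (4 * ((2 : ℝ) ^ (1 - 2 * c) * Z ^ (2 * c - 1))) := by
        apply mul_le_mul_of_nonneg_left _ (by positivity)
        linarith
    _ = 8 * Real.log Y * ((2 : ℝ) ^ (2 * c) * (2 : ℝ) ^ (1 - 2 * c)) * Z ^ (2 * c - 1) := by ring
    _ = 16 * Real.log Y * Z ^ (2 * c - 1) := by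
      rw [h12]
      ring

theorem p5_exists (B : ℕ) (δ c : ℝ) (hδ : 0 < δ) (hc1 : c < 1) :
    ∃ z₁ : ℕ, 3 ≤ z₁ ∧ ∀ z : ℕ, z₁ ≤ z → 8 * Real.log 2 / Real.log z ≤ δ ∧
      16 * B * (z : ℝ) ^ (-(δ / 2)) ≤ δ ∧ (z : ℝ) ^ c ≤ δ * z := by
  have h1 : Filter.Tendsto (fun z : ℕ => 8 * Real.log 2 / Real.log z) Filter.atTop (nhds 0) :=
    (Real.tendsto_log_atTop.comp tendsto_natCast_atTop_atTop).const_div_atTop _
  have h2 : Filter.Tendsto (fun z : ℕ => 16 * B * (z : ℝ) ^ (-(δ / 2))) Filter.atTop (nhds 0) := by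
    have := ((tendsto_rpow_neg_atTop (half_pos hδ)).comp
      (tendsto_natCast_atTop_atTop (R := ℝ))).const_mul (16 * (B : ℝ))
    simpa using this
  have h3 : Filter.Tendsto (fun z : ℕ => (z : ℝ) ^ (-(1 - c))) Filter.atTop (nhds 0) :=
    (tendsto_rpow_neg_atTop (by linarith)).comp (tendsto_natCast_atTop_atTop (R := ℝ))
  have e1 := h1.eventually (Iic_mem_nhds hδ)
  have e2 := h2.eventually (Iic_mem_nhds hδ)
  have e3 := h3.eventually (Iic_mem_nhds hδ)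
  obtain ⟨z₁, hz₁⟩ := Filter.eventually_atTop.1 (e1.and (e2.and (e3.and
    (Filter.eventually_ge_atTop 3))))
  refine ⟨max z₁ 3, le_max_right _ _, fun z hz => ?_⟩
  obtain ⟨a1, a2, a3, a4⟩ := hz₁ z ((le_max_left _ _).trans hz)
  refine ⟨a1, a2, ?_⟩
  have hz0 : (0 : ℝ) < z := by
    have : 0 < z := by omega
    exact_mod_cast this
  have h4 : (z : ℝ) ^ c = (z : ℝ) ^ (-(1 - c)) * z := by
    nth_rewrite 3 [← Real.rpow_one (z : ℝ)]
    rw [← Real.rpow_add hz0]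
    congr 1
    ring
  rw [h4]
  exact mul_le_mul_of_nonneg_right a3 hz0.le

theorem union_sieve (d B : ℕ) : ∃ (c κ : ℝ) (z₁ : ℕ), 0 < c ∧ 0 < κ ∧
    ∀ (z X Y : ℕ) (S V : Finset ℕ) (Ω : ℕ → Finset ℕ), z₁ ≤ z → z ≤ X → X ≤ Y →
      Real.log Y ≤ B * z → (∀ p ∈ S, p.Prime ∧ z < p ∧ p ≤ Y) → (V.card : ℝ) ≤ κ * z →
      (∀ p, (Ω p).card ≤ d) →
      (∀ m ∈ Finset.Icc 1 X, ∃ p ∈ S, ∃ r ∈ Ω p, m ≡ r [MOD p]) →
      (X : ℝ) ^ c ≤ (prods (fun p => p ∈ S ∧ p ∉ V) Y).card := by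
  classical
  set δ : ℝ := 1 / (64 * (d + 1)) with hδ
  have hδ0 : 0 < δ := by positivity
  have hdδ : (d : ℝ) * δ ≤ 1 / 64 := by
    rw [hδ, mul_one_div, div_le_div_iff₀ (by positivity) (by norm_num)]
    linarith
  have hδ1 : δ ≤ 1 / 64 := by
    rw [hδ]
    apply one_div_le_one_div_of_le (by norm_num)
    have : (0 : ℝ) ≤ d := Nat.cast_nonneg d
    linarith
  set c : ℝ := δ / 8 with hc
  have hc0 : 0 < c := by positivity
  obtain ⟨z₁, hz₁3, hz₁⟩ := p5_exists B δ c hδ0 (by linarith)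
  refine ⟨c, δ, z₁, hc0, hδ0, fun z X Y S V Ω hz hzX hXY hlogY hS hV hΩ hcov => ?_⟩
  by_contra hcon
  push Not at hcon
  obtain ⟨a1, a2, -⟩ := hz₁ z hz
  obtain ⟨-, -, a3⟩ := hz₁ X (hz.trans hzX)
  have hz3 : 3 ≤ z := hz₁3.trans hz
  have hz0 : (0 : ℝ) < z := by
    have : 0 < z := by omega
    exact_mod_cast this
  have hX0 : (0 : ℝ) < X := by
    have : 0 < X := by omega
    exact_mod_cast this
  have hzX' : (z : ℝ) ≤ X := by exact_mod_cast hzX
  have hXY' : (X : ℝ) ≤ Y := by exact_mod_cast hXY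
  set P : ℕ → Prop := fun p => p ∈ S ∧ p ∉ V with hP
  have hΨ : ((prods P Y).card : ℝ) < (Y : ℝ) ^ c :=
    hcon.trans_le (Real.rpow_le_rpow hX0.le hXY' hc0.le)
  set S' := S.filter (fun p => p ∉ V) with hS'
  set SV := S.filter (fun p => p ∈ V) with hSV
  have hS'P : ∀ p ∈ S', p.Prime ∧ P p ∧ p ≤ Y := by
    intro p hp
    rw [hS', Finset.mem_filter] at hp
    exact ⟨(hS p hp.1).1, hp, (hS p hp.1).2.2⟩
  -- cardinalities
  have hcard' : (S'.card : ℝ) ≤ (X : ℝ) ^ c := by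
    refine le_trans ?_ hcon.le
    have : S' ⊆ prods P Y := by
      intro p hp
      obtain ⟨h1, h2, h3⟩ := hS'P p hp
      rw [mem_prods]
      refine ⟨⟨h1.pos, h3⟩, h1.squarefree, fun q hq hqp => ?_⟩
      rwa [(Nat.prime_dvd_prime_iff_eq hq h1).1 hqp]
    exact_mod_cast Finset.card_le_card this
  have hcardV : (SV.card : ℝ) ≤ δ * z := by
    refine le_trans ?_ hV
    have : SV ⊆ V := by
      intro p hp
      rw [hSV, Finset.mem_filter] at hp
      exact hp.2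
    exact_mod_cast Finset.card_le_card this
  have hcardS : (S.card : ℝ) = SV.card + S'.card := by
    have := Finset.card_filter_add_card_filter_not (s := S) (fun p => p ∈ V)
    rw [← this]
    push_cast
    rfl
  -- sums
  set Z : ℝ := (z : ℝ) ^ (1 + δ) with hZ
  have hzZ : (z : ℝ) ≤ Z := by
    have h1 : (z : ℝ) ^ (1 : ℝ) ≤ (z : ℝ) ^ (1 + δ) :=
      Real.rpow_le_rpow_of_exponent_le (by exact_mod_cast (by omega : 1 ≤ z)) (by linarith)
    rwa [Real.rpow_one] at h1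
  have hZ3 : 3 ≤ Z := by
    have : (3 : ℝ) ≤ z := by exact_mod_cast hz3
    linarith
  have hsumV : ∑ p ∈ SV, (1 / (p : ℝ)) ≤ δ := by
    have h1 : ∀ p ∈ SV, (1 / (p : ℝ)) ≤ 1 / z := by
      intro p hp
      rw [hSV, Finset.mem_filter] at hp
      apply one_div_le_one_div_of_le hz0
      exact_mod_cast (hS p hp.1).2.1.le
    refine (Finset.sum_le_sum h1).trans ?_
    rw [Finset.sum_const, nsmul_eq_mul, mul_one_div, div_le_iff₀ hz0]
    exact hcardV
  have hsumM : ∑ p ∈ S'.filter (fun p : ℕ => (p : ℝ) ≤ Z), (1 / (p : ℝ)) ≤ 5 * δ := by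
    refine (p5_mid _ z δ (by omega) hδ0.le fun p hp => ?_).trans (by linarith)
    rw [Finset.mem_filter, hS', Finset.mem_filter] at hp
    exact ⟨(hS p hp.1.1).1, (hS p hp.1.1).2.1, hp.2⟩
  have hsumL : ∑ p ∈ S'.filter (fun p : ℕ => ¬ (p : ℝ) ≤ Z), (1 / (p : ℝ)) ≤ δ := by
    have h1 := p5_large P (S'.filter (fun p : ℕ => ¬ (p : ℝ) ≤ Z)) Y c Z hc0 (by linarith) hZ3
      (fun p hp => hS'P p (Finset.mem_filter.1 hp).1) (by omega) hΨ
      (fun p hp => not_le.1 (Finset.mem_filter.1 hp).2)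
    refine h1.trans ?_
    have h2 : Z ^ (2 * c - 1) * z ≤ (z : ℝ) ^ (-(δ / 2)) := by
      rw [hZ, ← Real.rpow_mul hz0.le]
      nth_rewrite 2 [← Real.rpow_one (z : ℝ)]
      rw [← Real.rpow_add hz0]
      apply Real.rpow_le_rpow_of_exponent_le (by exact_mod_cast (by omega : 1 ≤ z))
      rw [hc]
      nlinarith
    have h3 : 0 ≤ Z ^ (2 * c - 1) := by positivity
    calc 16 * Real.log Y * Z ^ (2 * c - 1) ≤ 16 * (B * z) * Z ^ (2 * c - 1) := by
          apply mul_le_mul_of_nonneg_right _ h3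
          linarith
      _ = 16 * B * (Z ^ (2 * c - 1) * z) := by ring
      _ ≤ 16 * B * (z : ℝ) ^ (-(δ / 2)) := mul_le_mul_of_nonneg_left h2 (by positivity)
      _ ≤ δ := a2
  have hsum : ∑ p ∈ S, (1 / (p : ℝ)) ≤ 7 * δ := by
    have h1 : ∑ p ∈ S, (1 / (p : ℝ)) = ∑ p ∈ SV, (1 / (p : ℝ)) + ∑ p ∈ S', (1 / (p : ℝ)) :=
      (Finset.sum_filter_add_sum_filter_not S (fun p => p ∈ V) _).symm
    have h2 : ∑ p ∈ S', (1 / (p : ℝ)) = ∑ p ∈ S'.filter (fun p : ℕ => (p : ℝ) ≤ Z), (1 / (p : ℝ)) +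
        ∑ p ∈ S'.filter (fun p : ℕ => ¬ (p : ℝ) ≤ Z), (1 / (p : ℝ)) :=
      (Finset.sum_filter_add_sum_filter_not S' (fun p : ℕ => (p : ℝ) ≤ Z) _).symm
    linarith
  have hmain := p5_cover (fun p hp => (hS p hp).1.pos) hΩ hcov
  have hd0 : (0 : ℝ) ≤ d := Nat.cast_nonneg d
  have h1 : (d : ℝ) * X * ∑ p ∈ S, (1 / (p : ℝ)) ≤ d * X * (7 * δ) :=
    mul_le_mul_of_nonneg_left hsum (by positivity)
  have h2 : (d : ℝ) * S.card ≤ d * (δ * X + δ * X) := by
    apply mul_le_mul_of_nonneg_left _ hd0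
    rw [hcardS]
    have : δ * z ≤ δ * X := mul_le_mul_of_nonneg_left hzX' hδ0.le
    linarith
  have h3 : (X : ℝ) ≤ 9 * (d * δ) * X := by
    calc (X : ℝ) ≤ d * X * (7 * δ) + d * (δ * X + δ * X) := by linarith
      _ = 9 * (d * δ) * X := by ring
  have h4 : 9 * ((d : ℝ) * δ) * X ≤ 9 * (1 / 64) * X := by
    apply mul_le_mul_of_nonneg_right _ hX0.le
    linarith
  linarith

end Pool.Agent.Lib.MP_695920_nt.Od
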