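import Mathlib
import Pool.Agent.Lib.MP_695920_nt.Od.Sieve

/-!
# The sieve with a larger set of exceptional primes
-/

set_option autoImplicit false

open Finset

namespace Pool.Agent.Lib.MP_695920_nt.Od

theorem union_sieve2 (d B : ℕ) : ∃ (c κ : ℝ) (z₁ : ℕ), 0 < c ∧ 0 < κ ∧
    ∀ (z X Y : ℕ) (S V : Finset ℕ) (Ω : ℕ → Finset ℕ), z₁ ≤ z → z ^ 2 ≤ X → X ≤ Y →
      Real.log Y ≤ B * z → (∀ p ∈ S, p.Prime ∧ z < p ∧ p ≤ Y) →
      (V.card : ℝ) ≤ (z : ℝ) ^ (1 + κ) →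
      (∀ p, (Ω p).card ≤ d) →
      (∀ m ∈ Finset.Icc 1 X, ∃ p ∈ S, ∃ r ∈ Ω p, m ≡ r [MOD p]) →
      (X : ℝ) ^ c ≤ (prods (fun p => p ∈ S ∧ p ∉ V) Y).card := by
  classical
  set δ : ℝ := 1 / (64 * (d + 1)) with hδ
  have hδ0 : 0 < δ := by positivity
  have hdδ : (d : ℝ) * δ ≤ 1 / 64 := by
    rw [hδ, mul_one_div, div_le_div_iff₀ (by positivity) (by norm_num)]
    linarith
  have hδ1 : δ ≤ 1 / 64 := by
    rw [hδ]
    apply one_div_le_one_div_of_le (by norm_num)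
    have : (0 : ℝ) ≤ d := Nat.cast_nonneg d
    linarith
  set c : ℝ := δ / 8 with hc
  have hc0 : 0 < c := by positivity
  obtain ⟨z₁, hz₁3, hz₁⟩ := p5_exists (B + 1) δ c hδ0 (by linarith)
  refine ⟨c, δ / 2, z₁, hc0, by positivity,
    fun z X Y S V Ω hz hzX2 hXY hlogY hS hV hΩ hcov => ?_⟩
  by_contra hcon
  push Not at hcon
  obtain ⟨a1, a2, -⟩ := hz₁ z hz
  have hz3 : 3 ≤ z := hz₁3.trans hz
  have hzX : z ≤ X := (Nat.le_self_pow (by norm_num) z).trans hzX2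
  obtain ⟨-, -, a3⟩ := hz₁ X (hz.trans hzX)
  have hz0 : (0 : ℝ) < z := by
    have : 0 < z := by omega
    exact_mod_cast this
  have hz1 : (1 : ℝ) ≤ z := by exact_mod_cast (by omega : 1 ≤ z)
  have hzδ0 : 0 < (z : ℝ) ^ (-(δ / 2)) := by positivity
  have hB0 : (0 : ℝ) ≤ B := Nat.cast_nonneg B
  push_cast at a2
  have a4 : (z : ℝ) ^ (-(δ / 2)) ≤ δ := by
    refine le_trans ?_ a2
    apply le_mul_of_one_le_left hzδ0.le
    linarith
  have a5 : 16 * B * (z : ℝ) ^ (-(δ / 2)) ≤ δ := by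
    refine le_trans ?_ a2
    apply mul_le_mul_of_nonneg_right _ hzδ0.le
    linarith
  have hX0 : (0 : ℝ) < X := by
    have : 0 < X := by omega
    exact_mod_cast this
  have hzX' : (z : ℝ) ^ 2 ≤ X := by exact_mod_cast hzX2
  have hXY' : (X : ℝ) ≤ Y := by exact_mod_cast hXY
  set P : ℕ → Prop := fun p => p ∈ S ∧ p ∉ V with hP
  have hΨ : ((prods P Y).card : ℝ) < (Y : ℝ) ^ c :=
    hcon.trans_le (Real.rpow_le_rpow hX0.le hXY' hc0.le)
  set S' := S.filter (fun p => p ∉ V) with hS'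
  set SV := S.filter (fun p => p ∈ V) with hSV
  have hS'P : ∀ p ∈ S', p.Prime ∧ P p ∧ p ≤ Y := by
    intro p hp
    rw [hS', Finset.mem_filter] at hp
    exact ⟨(hS p hp.1).1, hp, (hS p hp.1).2.2⟩
  -- cardinalities
  have hcard' : (S'.card : ℝ) ≤ (X : ℝ) ^ c := by
    refine le_trans ?_ hcon.le
    have : S' ⊆ prods P Y := by
      intro p hp
      obtain ⟨h1, h2, h3⟩ := hS'P p hp
      rw [mem_prods]
      refine ⟨⟨h1.pos, h3⟩, h1.squarefree, fun q hq hqp => ?_⟩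
      rwa [(Nat.prime_dvd_prime_iff_eq hq h1).1 hqp]
    exact_mod_cast Finset.card_le_card this
  have hcardV : (SV.card : ℝ) ≤ (z : ℝ) ^ (1 + δ / 2) := by
    refine le_trans ?_ hV
    have : SV ⊆ V := by
      intro p hp
      rw [hSV, Finset.mem_filter] at hp
      exact hp.2
    exact_mod_cast Finset.card_le_card this
  have hcardS : (S.card : ℝ) = SV.card + S'.card := by
    have := Finset.card_filter_add_card_filter_not (s := S) (fun p => p ∈ V)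
    rw [← this]
    push_cast
    rfl
  -- sums
  set Z : ℝ := (z : ℝ) ^ (1 + δ) with hZ
  have hZ0 : 0 < Z := by positivity
  have hzZ : (z : ℝ) ≤ Z := by
    have h1 : (z : ℝ) ^ (1 : ℝ) ≤ (z : ℝ) ^ (1 + δ) :=
      Real.rpow_le_rpow_of_exponent_le hz1 (by linarith)
    rwa [Real.rpow_one] at h1
  have hZ3 : 3 ≤ Z := by
    have : (3 : ℝ) ≤ z := by exact_mod_cast hz3
    linarith
  have hVZ : (z : ℝ) ^ (1 + δ / 2) = (z : ℝ) ^ (-(δ / 2)) * Z := by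
    rw [hZ, ← Real.rpow_add hz0]
    congr 1
    ring
  have hVX : (z : ℝ) ^ (1 + δ / 2) ≤ δ * X := by
    calc (z : ℝ) ^ (1 + δ / 2) ≤ (z : ℝ) ^ (-(δ / 2) + ((2 : ℕ) : ℝ)) := by
          apply Real.rpow_le_rpow_of_exponent_le hz1
          push_cast
          linarith
      _ = (z : ℝ) ^ (-(δ / 2)) * (z : ℝ) ^ 2 := by rw [Real.rpow_add hz0, Real.rpow_natCast]
      _ ≤ δ * X := mul_le_mul a4 hzX' (by positivity) hδ0.le
  have hsumM : ∑ p ∈ S.filter (fun p : ℕ => (p : ℝ) ≤ Z), (1 / (p : ℝ)) ≤ 5 * δ := by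
    refine (p5_mid _ z δ (by omega) hδ0.le fun p hp => ?_).trans (by linarith)
    rw [Finset.mem_filter] at hp
    exact ⟨(hS p hp.1).1, (hS p hp.1).2.1, hp.2⟩
  have hsumV : ∑ p ∈ SV.filter (fun p : ℕ => ¬ (p : ℝ) ≤ Z), (1 / (p : ℝ)) ≤ δ := by
    have h1 : ∀ p ∈ SV.filter (fun p : ℕ => ¬ (p : ℝ) ≤ Z), (1 / (p : ℝ)) ≤ 1 / Z := by
      intro p hp
      rw [Finset.mem_filter] at hp
      exact one_div_le_one_div_of_le hZ0 (not_le.mp hp.2).le
    refine (Finset.sum_le_sum h1).trans ?_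
    rw [Finset.sum_const, nsmul_eq_mul, mul_one_div, div_le_iff₀ hZ0]
    calc ((SV.filter (fun p : ℕ => ¬ (p : ℝ) ≤ Z)).card : ℝ) ≤ SV.card := by
          exact_mod_cast Finset.card_filter_le _ _
      _ ≤ (z : ℝ) ^ (-(δ / 2)) * Z := by rw [← hVZ]; exact hcardV
      _ ≤ δ * Z := mul_le_mul_of_nonneg_right a4 hZ0.le
  have hsumL : ∑ p ∈ S'.filter (fun p : ℕ => ¬ (p : ℝ) ≤ Z), (1 / (p : ℝ)) ≤ δ := by
    have h1 := p5_large P (S'.filter (fun p : ℕ => ¬ (p : ℝ) ≤ Z)) Y c Z hc0 (by linarith) hZ3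
      (fun p hp => hS'P p (Finset.mem_filter.1 hp).1) (by omega) hΨ
      (fun p hp => not_le.1 (Finset.mem_filter.1 hp).2)
    refine h1.trans ?_
    have h2 : Z ^ (2 * c - 1) * z ≤ (z : ℝ) ^ (-(δ / 2)) := by
      rw [hZ, ← Real.rpow_mul hz0.le]
      nth_rewrite 2 [← Real.rpow_one (z : ℝ)]
      rw [← Real.rpow_add hz0]
      apply Real.rpow_le_rpow_of_exponent_le hz1
      rw [hc]
      nlinarith
    have h3 : 0 ≤ Z ^ (2 * c - 1) := by positivity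
    calc 16 * Real.log Y * Z ^ (2 * c - 1) ≤ 16 * (B * z) * Z ^ (2 * c - 1) := by
          apply mul_le_mul_of_nonneg_right _ h3
          linarith
      _ = 16 * B * (Z ^ (2 * c - 1) * z) := by ring
      _ ≤ 16 * B * (z : ℝ) ^ (-(δ / 2)) := mul_le_mul_of_nonneg_left h2 (by positivity)
      _ ≤ δ := a5
  have hsum : ∑ p ∈ S, (1 / (p : ℝ)) ≤ 7 * δ := by
    have h1 : ∑ p ∈ S, (1 / (p : ℝ)) = ∑ p ∈ S.filter (fun p : ℕ => (p : ℝ) ≤ Z), (1 / (p : ℝ)) +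
        ∑ p ∈ S.filter (fun p : ℕ => ¬ (p : ℝ) ≤ Z), (1 / (p : ℝ)) :=
      (Finset.sum_filter_add_sum_filter_not S (fun p : ℕ => (p : ℝ) ≤ Z) _).symm
    have h2 : ∑ p ∈ S.filter (fun p : ℕ => ¬ (p : ℝ) ≤ Z), (1 / (p : ℝ)) =
        ∑ p ∈ SV.filter (fun p : ℕ => ¬ (p : ℝ) ≤ Z), (1 / (p : ℝ)) +
        ∑ p ∈ S'.filter (fun p : ℕ => ¬ (p : ℝ) ≤ Z), (1 / (p : ℝ)) := by
      rw [hSV, hS', Finset.filter_filter, Finset.filter_filter,
        ← Finset.sum_filter_add_sum_filter_not (S.filter (fun p : ℕ => ¬ (p : ℝ) ≤ Z))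
          (fun p => p ∈ V), Finset.filter_filter, Finset.filter_filter]
      congr 1
      · apply Finset.sum_congr _ (fun _ _ => rfl)
        apply Finset.filter_congr
        intro p _
        exact and_comm
      · apply Finset.sum_congr _ (fun _ _ => rfl)
        apply Finset.filter_congr
        intro p _
        exact and_comm
    linarith
  have hmain := p5_cover (fun p hp => (hS p hp).1.pos) hΩ hcov
  have hd0 : (0 : ℝ) ≤ d := Nat.cast_nonneg d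
  have h1 : (d : ℝ) * X * ∑ p ∈ S, (1 / (p : ℝ)) ≤ d * X * (7 * δ) :=
    mul_le_mul_of_nonneg_left hsum (by positivity)
  have h2 : (d : ℝ) * S.card ≤ d * (δ * X + δ * X) := by
    apply mul_le_mul_of_nonneg_left _ hd0
    rw [hcardS]
    linarith
  have h3 : (X : ℝ) ≤ 9 * (d * δ) * X := by
    calc (X : ℝ) ≤ d * X * (7 * δ) + d * (δ * X + δ * X) := by linarith
      _ = 9 * (d * δ) * X := by ring
  have h4 : 9 * ((d : ℝ) * δ) * X ≤ 9 * (1 / 64) * X := by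
    apply mul_le_mul_of_nonneg_right _ hX0.le
    linarith
  linarith

end Pool.Agent.Lib.MP_695920_nt.Od
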