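import Mathlib
import Pool.Agent.Lib.MP_695920_nt.Tow.EVBase
import Pool.Agent.Lib.MP_695920_nt.Od.Defs

set_option autoImplicit false

open Finset NumberField Module IsDedekindDomain
open scoped nonZeroDivisors Pointwise

namespace Pool.Agent.Lib.MP_695920_nt.Od

open Pool.Agent.Lib.MP_695920_nt.Tow

/-- a prime dividing exactly one of two squarefree numbers -/
lemma p9_exists_prime {s t : ℕ} (hs : Squarefree s) (ht : Squarefree t) (hst : s ≠ t) :
    ∃ p : ℕ, p.Prime ∧ ((p ∣ s ∧ ¬ p ∣ t) ∨ (p ∣ t ∧ ¬ p ∣ s)) := by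
  by_contra hcon
  push Not at hcon
  apply hst
  have hs0 : s ≠ 0 := hs.ne_zero
  have ht0 : t ≠ 0 := ht.ne_zero
  have h : s.primeFactors = t.primeFactors := by
    ext p
    rw [Nat.mem_primeFactors, Nat.mem_primeFactors]
    constructor
    · rintro ⟨h1, h2, -⟩
      exact ⟨h1, (hcon p h1).1 h2, ht0⟩
    · rintro ⟨h1, h2, -⟩
      exact ⟨h1, (hcon p h1).2 h2, hs0⟩
  rw [← Nat.prod_primeFactors_of_squarefree hs, ← Nat.prod_primeFactors_of_squarefree ht, h]

/-! P9 -/
section ev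

variable {F K : Type*} [Field F] [NumberField F] [Field K] [NumberField K] [Algebra F K]

/-- Ellenberg-Venkatesh over a base field of small discriminant, with products of primes -/
theorem ev_base_prod {l : ℕ} (hl : 0 < l) (hn : 1 < finrank ℚ K) (T : ℝ) (hT0 : 0 < T)
    (hT : ∀ A : IntermediateField ℚ K, ¬ A ≤ (IsScalarTower.toAlgHom ℚ F K).fieldRange →
      T ≤ |(discr A : ℝ)|) (G : Finset ℕ) (x : ℝ) (hx1 : 1 ≤ x)
    (hG : ∀ s ∈ G, Squarefree s ∧ (s : ℝ) ≤ x ∧ ∀ p : ℕ, p.Prime → p ∣ s → TwoRel F K p)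
    (hx : (l : ℝ) * finrank ℚ K * (finrank ℚ K - 1) * Real.log x +
      2 * l * (finrank ℚ K : ℝ) ^ 2 ≤ Real.log T) :
    (G.card : ℝ) * (Nat.card {x : ClassGroup (𝓞 K) // x ^ l = 1} : ℝ) ≤
      Bn (finrank ℚ K) * Real.sqrt |(discr K : ℝ)| *
        Real.log |(discr K : ℝ)| ^ finrank ℚ K := by
  classical
  set n := finrank ℚ K with hnn
  have hnr : (2 : ℝ) ≤ n := by exact_mod_cast hn
  have hlr : (1 : ℝ) ≤ l := by exact_mod_cast hl
  have hlogx : 0 ≤ Real.log x := Real.log_nonneg hx1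
  have hx0 : 0 < x := by linarith
  have hKK : finrank K K = 1 := finrank_self K
  -- choose the primes
  have hex : ∀ p : ℕ, ∃ P R : Ideal (𝓞 K), p.Prime → TwoRel F K p → P.IsPrime ∧ R.IsPrime ∧
      (p : 𝓞 K) ∈ P ∧ (p : 𝓞 K) ∈ R ∧ P.under (𝓞 F) = R.under (𝓞 F) ∧ P ≠ R ∧
      Ideal.absNorm P ^ 2 ≤ p ^ n := by
    intro p
    by_cases hp : p.Prime ∧ TwoRel F K p
    · obtain ⟨hpp, Q1, Q2, a, b, c, d, e, f⟩ := hp
      rcases norm_twoG hpp a b c d f with h | h
      · exact ⟨Q1, Q2, fun _ _ => ⟨a, b, c, d, e, f, h⟩⟩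
      · exact ⟨Q2, Q1, fun _ _ => ⟨b, a, d, c, e.symm, f.symm, h⟩⟩
    · exact ⟨⊥, ⊥, fun h1 h2 => absurd ⟨h1, h2⟩ hp⟩
  choose P R hPR using hex
  -- the product ideals
  have hmemP : ∀ s ∈ G, ∀ p, p.Prime → p ∣ s → (p : 𝓞 K) ∈ P p := fun s hs p hp hps =>
    (hPR p hp ((hG s hs).2.2 p hp hps)).2.2.1
  have hne : ∀ s ∈ G, prodI P s ≠ ⊥ := fun s hs => prodI_ne_bot (hmemP s hs)
  have hInorm : ∀ s ∈ G, (Ideal.absNorm (prodI P s) : ℝ) ≤
      Real.exp ((n : ℝ) / 2 * Real.log x) := by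
    intro s hs
    have h2 : (0 : ℝ) < Ideal.absNorm (prodI P s) := by
      exact_mod_cast absNorm_pos_of_ne_bot (hne s hs)
    have h3 : ((Ideal.absNorm (prodI P s) : ℝ)) ^ 2 ≤ x ^ n := by
      have h5 := absNorm_prodI (P := P) (n := n) (hG s hs).1.ne_zero
        (fun p hp hps => (hPR p hp ((hG s hs).2.2 p hp hps)).2.2.2.2.2.2)
      calc ((Ideal.absNorm (prodI P s) : ℝ)) ^ 2 ≤ ((s : ℝ)) ^ n := by exact_mod_cast h5
        _ ≤ x ^ n := pow_le_pow_left₀ (Nat.cast_nonneg _) (hG s hs).2.1 n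
    have h4 := Real.log_le_log (by positivity) h3
    rw [Real.log_pow, Real.log_pow] at h4
    push_cast at h4
    rw [← Real.log_le_iff_le_exp h2]
    linarith
  -- multiplicities
  have hmul : ∀ s ∈ G, ∀ p, p.Prime → p ∣ s → TwoRel F K p →
      emultiplicity (P p) (prodI P s) = 1 ∧ ¬ R p ∣ prodI P s := by
    intro s hs p hp hps hT2
    obtain ⟨a, b, c, d, e, f, g⟩ := hPR p hp hT2
    have hf1 : s.factorization p = 1 := by
      have h1 := (Nat.squarefree_iff_factorization_le_one (hG s hs).1.ne_zero).1 (hG s hs).1 p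
      have h2 : s.factorization p ≠ 0 := by
        intro h0
        rw [Nat.factorization_eq_zero_iff] at h0
        rcases h0 with h0 | h0 | h0
        · exact h0 hp
        · exact h0 hps
        · exact (hG s hs).1.ne_zero h0
      omega
    have hP0 : P p ≠ ⊥ := P_ne_bot hp c
    have hPp : Prime (P p) := Ideal.prime_of_isPrime hP0 a
    constructor
    · rw [emult_prodI hp a c (hmemP s hs), hf1]
      have h2 : emultiplicity (P p) (P p) = 1 := by
        have := emultiplicity_pow_self (p := P p) hP0 hPp.not_unit 1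
        simpa using this
      rw [h2]
      simp
    · rw [← emultiplicity_eq_zero, emult_prodI hp b d (hmemP s hs), hf1]
      have h2 : emultiplicity (R p) (P p) = 0 := by
        rw [emultiplicity_eq_zero]
        intro h
        exact f ((a.isMaximal hP0).eq_of_le b.ne_top (Ideal.le_of_dvd h))
      rw [h2]
      simp
  have hmul0 : ∀ t ∈ G, ∀ p, p.Prime → ¬ p ∣ t → ∀ S : Ideal (𝓞 K), S.IsPrime →
      (p : 𝓞 K) ∈ S → ¬ S ∣ prodI P t := by
    intro t ht p hp hpt S hS hpS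
    rw [← emultiplicity_eq_zero, emult_prodI hp hS hpS (hmemP t ht),
      Nat.factorization_eq_zero_of_not_dvd hpt]
    simp
  -- the key separation property
  have hsep : ∀ s ∈ G, ∀ t ∈ G, s ≠ t → ∃ p : ℕ, p.Prime ∧ (P p).IsPrime ∧ (R p).IsPrime ∧
      (p : 𝓞 K) ∈ P p ∧ (p : 𝓞 K) ∈ R p ∧ (P p).under (𝓞 F) = (R p).under (𝓞 F) ∧
      ¬ R p ∣ prodI P s ∧ ¬ R p ∣ prodI P t ∧
      multiplicity (P p) (prodI P s) ≠ multiplicity (P p) (prodI P t) := by
    intro s hs t ht hst
    obtain ⟨p, hp, hpp⟩ := p9_exists_prime (hG s hs).1 (hG t ht).1 hst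
    rcases hpp with ⟨h1, h2⟩ | ⟨h1, h2⟩
    · have hT2 := (hG s hs).2.2 p hp h1
      obtain ⟨a, b, c, d, e, f, g⟩ := hPR p hp hT2
      obtain ⟨m1, m2⟩ := hmul s hs p hp h1 hT2
      refine ⟨p, hp, a, b, c, d, e, m2, hmul0 t ht p hp h2 _ b d, ?_⟩
      rw [multiplicity_eq_zero_of_not_dvd (hmul0 t ht p hp h2 _ a c),
        multiplicity_eq_of_emultiplicity_eq_some m1]
      exact one_ne_zero
    · have hT2 := (hG t ht).2.2 p hp h1
      obtain ⟨a, b, c, d, e, f, g⟩ := hPR p hp hT2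
      obtain ⟨m1, m2⟩ := hmul t ht p hp h1 hT2
      refine ⟨p, hp, a, b, c, d, e, hmul0 s hs p hp h2 _ b d, m2, ?_⟩
      rw [multiplicity_eq_zero_of_not_dvd (hmul0 s hs p hp h2 _ a c),
        multiplicity_eq_of_emultiplicity_eq_some m1]
      exact zero_ne_one
  have hPinj : Set.InjOn (prodI P) (G : Set ℕ) := by
    intro s hs t ht hst
    by_contra hne
    obtain ⟨p, -, -, -, -, -, -, -, -, h⟩ := hsep s hs t ht hne
    exact h (by rw [hst])
  have hmain := ev_count0 (K := K) (M := K) (IsScalarTower.toAlgHom ℚ F K).fieldRange hl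
    (G.image (prodI P)) (by
      intro I hI
      rw [mem_image] at hI
      obtain ⟨p, hp, rfl⟩ := hI
      exact hne p hp) (by
      intro I hI J hJ hIJ u v hu hv huv
      rw [mem_image] at hI hJ
      obtain ⟨s, hs, rfl⟩ := hI
      obtain ⟨t, ht, rfl⟩ := hJ
      have hst : s ≠ t := fun h => hIJ (by rw [h])
      obtain ⟨p, hp, a, b, c, d, e, m1, m2, m3⟩ := hsep s hs t ht hst
      exact not_base (F := F) (Nat.mul_pos finrank_pos hl) (hne s hs) (hne t ht) hu hv huv hp
        a b c d e m1 m2 m3) (Real.exp ((n : ℝ) / 2 * Real.log x)) (by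
      intro I hI
      rw [mem_image] at hI
      obtain ⟨s, hs, rfl⟩ := hI
      exact hInorm s hs) (by
      intro A hA
      refine lt_of_lt_of_le ?_ (hT A hA)
      rw [← Real.log_lt_log_iff (by positivity) hT0]
      refine lt_of_lt_of_le ?_ hx
      rw [Real.log_mul (by positivity) (by positivity), Real.log_pow, Real.log_pow, Real.log_pow,
        Real.log_mul (by norm_num) (by positivity), Real.log_exp, Real.log_exp]
      rw [← hnn, hKK]
      have h1 : Real.log 2 < 1 := by linarith [Real.log_two_lt_d9]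
      have h1' : 0 < Real.log 2 := Real.log_pos (by norm_num)
      have hn1 : 1 ≤ n := hn.le
      have e1 : ((n - 1 : ℕ) : ℝ) = n - 1 := by
        rw [Nat.cast_sub hn1, Nat.cast_one]
      push_cast
      rw [e1]
      have hn0 : (0 : ℝ) < n := by linarith
      have h2 : (n : ℝ) * (n - 1) * Real.log 2 ≤ n * n * 1 := by
        calc (n : ℝ) * (n - 1) * Real.log 2 ≤ n * (n - 1) * 1 := by
              apply mul_le_mul_of_nonneg_left h1.le
              nlinarith
          _ ≤ n * n * 1 := by nlinarith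
      have h3 : (n : ℝ) * n * 1 ≤ l * (n * n) := by nlinarith [mul_pos hn0 hn0]
      have h5 : (n : ℝ) * (n - 1) * l < l * (n * n) := by
        have h7 : (0 : ℝ) < n * l := by positivity
        nlinarith
      nlinarith)
  rw [Finset.card_image_of_injOn hPinj] at hmain
  exact hmain.trans (sum_bound' hn)

end ev

end Pool.Agent.Lib.MP_695920_nt.Od
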