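import Mathlib
import Pool.Agent.Lib.MP_695920_nt.Refl.TwoInert
import Pool.Agent.Lib.MP_695920_nt.Od.Defs

set_option autoImplicit false

open Finset NumberField Module IsDedekindDomain
open scoped nonZeroDivisors Pointwise

namespace Pool.Agent.Lib.MP_695920_nt.Od

open Pool.Agent.Lib.MP_695920_nt.Solv Pool.Agent.Lib.MP_695920_nt.Tow
  Pool.Agent.Lib.MP_695920_nt.Tow.RelD Pool.Agent.Lib.MP_695920_nt.Refl

section two

variable {k L F0 L' : Type} [Field k] [NumberField k] [Field L] [NumberField L]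
  [Field F0] [NumberField F0] [Field L'] [NumberField L'] [Algebra k L] [Algebra k F0]
  [Algebra L L'] [Algebra F0 L'] [Algebra k L'] [IsScalarTower k L L'] [IsScalarTower k F0 L']

/-- a prime of `k` of norm `2` modulo `3` has two prime divisors in `L'` above one prime of
`F0` -/
theorem twoRel_of_norm_two (hk2 : finrank k F0 = 2) (hL2 : finrank L L' = 2)
    {ω : 𝓞 F0} (hω : ω ^ 2 + ω + 1 = 0) (heven : Even (finrank k L))
    (hLω : ∀ z : L, z ^ 2 + z + 1 ≠ 0) {p : ℕ} (hp : p.Prime) {q : Ideal (𝓞 k)}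
    (hq : q.IsPrime) (hpq : (p : 𝓞 k) ∈ q) (hqN : Ideal.absNorm q % 3 = 2)
    (hram : ¬ p ∣ (discr L).natAbs) : TwoRel F0 L' p := by
  classical
  have hpZ : Prime (p : ℤ) := Nat.prime_iff_prime_int.mp hp
  have hmaxp := span_int_isMaximal hp
  have hqp : q.IsPrime := hq
  have hq0 : q ≠ ⊥ := P_ne_bot hp hpq
  have hqmax : q.IsMaximal := hqp.isMaximal hq0
  have hp3 : p ≠ 3 := by
    rintro rfl
    have h1 : Ideal.absNorm q ∣ 3 ^ finrank ℚ k := by
      have h2 : q ∣ Ideal.span {((3 : ℕ) : 𝓞 k)} := Ideal.dvd_span_singleton.mpr hpq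
      have h3 := map_dvd Ideal.absNorm h2
      rwa [Ideal.absNorm_span_natCast, RingOfIntegers.rank] at h3
    obtain ⟨j, -, hj⟩ := (Nat.dvd_prime_pow Nat.prime_three).mp h1
    rw [hj] at hqN
    rcases j with _ | j
    · norm_num at hqN
    · rw [pow_succ] at hqN
      omega
  have hnot3 : ∀ {E : Type} [Field E] [NumberField E] (Q : Ideal (𝓞 E)), Q.IsPrime →
      (p : 𝓞 E) ∈ Q → (3 : 𝓞 E) ∉ Q := by
    intro E _ _ Q hQ hpQ h3
    have hcop : IsCoprime (3 : ℤ) (p : ℤ) := by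
      rw [Int.isCoprime_iff_gcd_eq_one]
      have : Nat.Coprime 3 p := by
        rw [Nat.coprime_primes Nat.prime_three hp]
        exact fun h => hp3 h.symm
      exact_mod_cast this
    obtain ⟨a, b, hab⟩ := hcop
    apply hQ.ne_top
    rw [Ideal.eq_top_iff_one]
    have h1 : (1 : 𝓞 E) = (a : 𝓞 E) * 3 + (b : 𝓞 E) * (p : 𝓞 E) := by
      have := congrArg (fun z : ℤ => (z : 𝓞 E)) hab
      push_cast at this
      exact this.symm
    rw [h1]
    exact Q.add_mem (Q.mul_mem_left _ h3) (Q.mul_mem_left _ hpQ)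
  have hmemF : ∀ R : Ideal (𝓞 F0), R.under (𝓞 k) = q → (p : 𝓞 F0) ∈ R := by
    intro R hR
    rw [← hR] at hpq
    have h1 : algebraMap (𝓞 k) (𝓞 F0) (p : 𝓞 k) ∈ R := hpq
    simpa using h1
  -- the prime is inert in `F0`
  have hinert : ∀ R1 R2 : Ideal (𝓞 F0), R1.IsPrime → R2.IsPrime → R1.under (𝓞 k) = q →
      R2.under (𝓞 k) = q → R1 = R2 := by
    intro R1 R2 h1 h2 hu1 hu2
    by_contra hne
    have hR10 : R1 ≠ ⊥ := P_ne_bot hp (hmemF R1 hu1)
    have ho1 : R1.LiesOver q := ⟨hu1.symm⟩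
    have ho2 : R2.LiesOver q := ⟨hu2.symm⟩
    have hm1 : R1 ∈ IsDedekindDomain.primesOverFinset q (𝓞 F0) := (mem_pof hqp hq0).mpr ⟨h1, ho1⟩
    have hm2 : R2 ∈ IsDedekindDomain.primesOverFinset q (𝓞 F0) := (mem_pof hqp hq0).mpr ⟨h2, ho2⟩
    have hsum := sum_ef_rel (F := k) (K := F0) hqp hq0
    rw [hk2] at hsum
    have h3 : R1.ramificationIdx (𝓞 k) * R1.inertiaDeg (𝓞 k) +
        R2.ramificationIdx (𝓞 k) * R2.inertiaDeg (𝓞 k) ≤ 2 := by
      rw [← hsum, ← Finset.sum_pair (f := fun R : Ideal (𝓞 F0) =>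
        R.ramificationIdx (𝓞 k) * R.inertiaDeg (𝓞 k)) hne]
      apply Finset.sum_le_sum_of_subset
      intro x hx
      rcases Finset.mem_insert.mp hx with rfl | hx
      · exact hm1
      · rw [Finset.mem_singleton.mp hx]; exact hm2
    have e1 : 0 < R1.ramificationIdx (𝓞 k) := Ideal.ramificationIdx_pos R1 (𝓞 k)
    have e2 : 0 < R1.inertiaDeg (𝓞 k) := Ideal.inertiaDeg_pos R1 (𝓞 k)
    have e3 : 0 < R2.ramificationIdx (𝓞 k) := Ideal.ramificationIdx_pos R2 (𝓞 k)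
    have e4 : 0 < R2.inertiaDeg (𝓞 k) := Ideal.inertiaDeg_pos R2 (𝓞 k)
    have e5 : R1.inertiaDeg (𝓞 k) = 1 := by nlinarith
    have hR1max : R1.IsMaximal := h1.isMaximal hR10
    have h4 := absNorm_pow_inertiaDeg q R1
    rw [e5, pow_one] at h4
    have h5 := norm_mod_three_of_root hω h1 hR10 (hnot3 R1 h1 (hmemF R1 hu1))
    omega
  have hmemL : ∀ R : Ideal (𝓞 L), R.under (𝓞 k) = q → (p : 𝓞 L) ∈ R := by
    intro R hR
    rw [← hR] at hpq
    have h1 : algebraMap (𝓞 k) (𝓞 L) (p : 𝓞 k) ∈ R := hpq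
    simpa using h1
  have hmemL' : ∀ R : Ideal (𝓞 L'), (p : 𝓞 L) ∈ R.under (𝓞 L) → (p : 𝓞 L') ∈ R := by
    intro R hR
    have h1 : algebraMap (𝓞 L) (𝓞 L') (p : 𝓞 L) ∈ R := hR
    simpa using h1
  -- two primes of `L'` above `q` have the same restriction to `F0`
  have hfin : ∀ Q1 Q2 : Ideal (𝓞 L'), Q1.IsPrime → Q2.IsPrime →
      (Q1.under (𝓞 L)).under (𝓞 k) = q → (Q2.under (𝓞 L)).under (𝓞 k) = q → Q1 ≠ Q2 →
      TwoRel F0 L' p := by
    intro Q1 Q2 h1 h2 hu1 hu2 hne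
    refine ⟨Q1, Q2, h1, h2, hmemL' Q1 (hmemL _ hu1), hmemL' Q2 (hmemL _ hu2), ?_, hne⟩
    apply hinert _ _ inferInstance inferInstance
    · rw [Ideal.under_under, ← hu1, Ideal.under_under]
    · rw [Ideal.under_under, ← hu2, Ideal.under_under]
  obtain ⟨P, hP, hP0, hPq⟩ := exists_over' (L := L) hqp hq0
  by_cases huniq : ∀ P2 : Ideal (𝓞 L), P2.IsPrime → P2.under (𝓞 k) = q → P2 = P
  · have ho : P.LiesOver q := ⟨hPq.symm⟩
    have hPmax : P.IsMaximal := hP.isMaximal hP0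
    have hpof : IsDedekindDomain.primesOverFinset q (𝓞 L) = {P} := by
      ext R
      rw [mem_pof hqp hq0, Finset.mem_singleton]
      constructor
      · rintro ⟨hR, hRo⟩
        exact huniq R hR hRo.over.symm
      · rintro rfl
        exact ⟨hP, ho⟩
    have hsum := sum_ef_rel (F := k) (K := L) hqp hq0
    rw [hpof, Finset.sum_singleton] at hsum
    have hpP : (p : 𝓞 L) ∈ P := hmemL P hPq
    have he : P.ramificationIdx (𝓞 k) = 1 := by
      by_contra hne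
      have h2 : 2 ≤ P.ramificationIdx (𝓞 k) := by
        have := Ideal.ramificationIdx_pos P (𝓞 k)
        omega
      apply hram
      apply ramified_dvd_sq hp hP hpP
      have h3 := pow_ram_dvd_rel (E := L) hqp hq0 hP ho
      have h4 : q.map (algebraMap (𝓞 k) (𝓞 L)) ∣ Ideal.span {(p : 𝓞 L)} := by
        rw [Ideal.dvd_span_singleton]
        have h5 : algebraMap (𝓞 k) (𝓞 L) (p : 𝓞 k) ∈ q.map (algebraMap (𝓞 k) (𝓞 L)) :=
          Ideal.mem_map_of_mem _ hpq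
        simpa using h5
      exact ((pow_dvd_pow P h2).trans h3).trans h4
    rw [he, one_mul] at hsum
    have hfeven : Even (P.inertiaDeg (𝓞 k)) := by
      rw [hsum]
      exact heven
    have hPN : Ideal.absNorm P % 3 = 1 := by
      rw [absNorm_pow_inertiaDeg q P]
      exact pow_even_mod_three hqN hfeven
    have hωL : (algebraMap (𝓞 F0) (𝓞 L') ω) ^ 2 + (algebraMap (𝓞 F0) (𝓞 L') ω) + 1 = 0 := by
      rw [← map_pow, ← map_add, ← map_one (algebraMap (𝓞 F0) (𝓞 L')), ← map_add, hω, map_zero]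
    obtain ⟨Q1, Q2, h1, h2, -, -, hne, hu1, hu2, -, -⟩ :=
      two_primes (K := L) (K' := L') hL2 hωL hLω hP hP0 (hnot3 P hP hpP) hPN
    exact hfin Q1 Q2 h1 h2 (by rw [hu1, hPq]) (by rw [hu2, hPq]) hne
  · push Not at huniq
    obtain ⟨P2, hP2, hP2q, hne⟩ := huniq
    have hP20 : P2 ≠ ⊥ := P_ne_bot hp (hmemL P2 hP2q)
    obtain ⟨Q1, h1, h10, hu1⟩ := exists_over' (L := L') hP hP0
    obtain ⟨Q2, h2, h20, hu2⟩ := exists_over' (L := L') hP2 hP20
    refine hfin Q1 Q2 h1 h2 (by rw [hu1, hPq]) (by rw [hu2, hP2q]) ?_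
    intro h
    apply hne
    rw [← hu2, ← hu1, h]

end two

end Pool.Agent.Lib.MP_695920_nt.Od
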