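import Mathlib
import Pool.Agent.Lib.MP_695920_nt.Tow.Lat
import Pool.Agent.Lib.MP_695920_nt.Tow.Logs
import Pool.Agent.Lib.MP_695920_nt.Tow.Prep
import Pool.Agent.Lib.MP_695920_nt.Sx.MainLat
import Pool.Agent.Lib.MP_695920_nt.Od.EVProd
import Pool.Agent.Lib.MP_695920_nt.Od.TwoNorm

/-!
Primes with a factor of norm two modulo three, in the lattice of subfields.
-/

set_option autoImplicit false

open Finset NumberField Module IsDedekindDomain
open scoped nonZeroDivisors Pointwise IntermediateField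

namespace Pool.Agent.Lib.MP_695920_nt.Od

open Pool.Agent.Lib.MP_695920_nt.Tow Pool.Agent.Lib.MP_695920_nt.Sx

section one

variable {L : Type} [Field L] [NumberField L]

/-- `ev_base_prod` in the lattice of subfields -/
theorem ev_lat_prod {F K : IntermediateField ℚ L} (hFK : F ≤ K) {l : ℕ} (hl : 0 < l)
    (hn : 1 < finrank ℚ K) (T : ℝ) (hT0 : 0 < T)
    (hT : ∀ A : IntermediateField ℚ L, A ≤ K → ¬ A ≤ F → T ≤ |(discr A : ℝ)|)
    (G : Finset ℕ) (x : ℝ) (hx1 : 1 ≤ x)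
    (hG : ∀ s ∈ G, Squarefree s ∧ (s : ℝ) ≤ x ∧ ∀ p : ℕ, p.Prime → p ∣ s → TwoUp F K L p)
    (hx : (l : ℝ) * finrank ℚ K * (finrank ℚ K - 1) * Real.log x +
      2 * l * (finrank ℚ K : ℝ) ^ 2 ≤ Real.log T) :
    (G.card : ℝ) * (Nat.card {x : ClassGroup (𝓞 K) // x ^ l = 1} : ℝ) ≤
      Bn (finrank ℚ K) * Real.sqrt |(discr K : ℝ)| *
        Real.log |(discr K : ℝ)| ^ finrank ℚ K := by
  let K' : IntermediateField F L := IntermediateField.extendScalars hFK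
  have h1 := ev_base_prod (F := F) (K := K') hl hn T hT0 ?_ G x hx1 ?_ hx
  · exact h1
  · intro A hA
    let f : K' →ₐ[ℚ] L := IsScalarTower.toAlgHom ℚ K' L
    let A' : IntermediateField ℚ L := A.map f
    have e : A ≃ₐ[ℚ] A' := IntermediateField.equivMap A f
    rw [discr_eq_discr_of_algEquiv A e]
    apply hT A'
    · rintro _ ⟨a, -, rfl⟩
      exact a.2
    · intro hle
      apply hA
      intro a ha
      have h2 : f a ∈ F := hle ⟨a, ha, rfl⟩
      refine ⟨⟨f a, h2⟩, ?_⟩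
      rfl
  · intro s hs
    obtain ⟨hsq, hsx, hp⟩ := hG s hs
    refine ⟨hsq, hsx, fun p hpp hps => ?_⟩
    obtain ⟨P1, P2, h1, h2, h3, h4, h5, h6⟩ := hp p hpp hps
    refine ⟨P1.under (𝓞 K'), P2.under (𝓞 K'), inferInstance, inferInstance, ?_, ?_, ?_, ?_⟩
    · rw [Ideal.under_def, Ideal.mem_comap]
      simpa using h3
    · rw [Ideal.under_def, Ideal.mem_comap]
      simpa using h4
    · rw [Ideal.under_under, Ideal.under_under]
      exact h5
    · exact h6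

end one

section two

variable {L : Type} [Field L] [NumberField L] [IsGalois ℚ L]

lemma twoUp_transfer {M' X' S F0 : IntermediateField ℚ L} (hXM : X' ≤ M')
    (hdec : ∀ g ∈ F0.fixingSubgroup, ∃ y ∈ X'.fixingSubgroup, ∃ z ∈ S.fixingSubgroup, y * z = g)
    {p : ℕ} (h : TwoUp F0 X' L p) : TwoUp (M' ⊓ S : IntermediateField ℚ L) M' L p := by
  obtain ⟨P1, P2, h1, h2, h3, h4, h5, h6⟩ := h
  obtain ⟨g, hg, rfl⟩ := exists_conj F0 h1 h2 h5
  obtain ⟨y, hy, z, hz, rfl⟩ := hdec g hg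
  refine ⟨P1, z • P1, h1, inferInstance, h3, mem_smul_nat' h3 _, ?_, ?_⟩
  · exact (under_smul_of' _ (IntermediateField.fixingSubgroup_antitone inf_le_right hz) P1).symm
  · intro h7
    apply h6
    have h8 : (z • P1).under (𝓞 X') = P1.under (𝓞 X') := by
      rw [under_eq_iff] at h7 ⊢
      intro x hx
      exact (h7 x (hXM hx)).symm
    rw [← h8, mul_smul]
    exact (under_smul_of' X' hy (z • P1)).symm

/-- the relation for the pair `X(√-3)`, `k(√-3)` -/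
lemma twoUp_base {k X F0 X' : IntermediateField ℚ L} (hkX : k ≤ X) (hkF : k ≤ F0) (hXX : X ≤ X')
    (hFX : F0 ≤ X') {s : L} (hs : s ^ 2 = -3) (hsF : s ∈ F0) (hsX : s ∉ X)
    (hk2 : finrank ℚ F0 = 2 * finrank ℚ k) (hX2 : finrank ℚ X' = 2 * finrank ℚ X)
    (heven : 2 * finrank ℚ k ∣ finrank ℚ X) {p : ℕ} (hp : p.Prime)
    (hunr : ¬ p ∣ (discr L).natAbs) (h2 : NormTwo k p) : TwoUp F0 X' L p := by
  let _ : Algebra k X := (IntermediateField.inclusion hkX).toAlgebra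
  let _ : Algebra k F0 := (IntermediateField.inclusion hkF).toAlgebra
  let _ : Algebra X X' := (IntermediateField.inclusion hXX).toAlgebra
  let _ : Algebra F0 X' := (IntermediateField.inclusion hFX).toAlgebra
  let _ : Algebra k X' := (IntermediateField.inclusion (hkX.trans hXX)).toAlgebra
  have _ : IsScalarTower k X X' := IsScalarTower.of_algebraMap_eq fun x => rfl
  have _ : IsScalarTower k F0 X' := IsScalarTower.of_algebraMap_eq fun x => rfl
  have hk0 : 0 < finrank ℚ k := finrank_pos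
  have hX0 : 0 < finrank ℚ X := finrank_pos
  have e1 : finrank k F0 = 2 := by
    have := finrank_mul_finrank ℚ k F0
    rw [hk2, mul_comm] at this
    exact Nat.eq_of_mul_eq_mul_right hk0 this
  have e2 : finrank X X' = 2 := by
    have := finrank_mul_finrank ℚ X X'
    rw [hX2, mul_comm] at this
    exact Nat.eq_of_mul_eq_mul_right hX0 this
  have e3 : Even (finrank k X) := by
    obtain ⟨c, hc⟩ := heven
    have := finrank_mul_finrank ℚ k X
    rw [hc] at this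
    have h4 : finrank k X = 2 * c := by
      apply Nat.eq_of_mul_eq_mul_left hk0
      rw [this]; ring
    rw [h4]
    exact even_two_mul c
  -- the cube root of unity
  have hw : ((-1 + s) / 2) ^ 2 + (-1 + s) / 2 + 1 = 0 := by
    have h1 : ((-1 + s) / 2) ^ 2 + (-1 + s) / 2 + 1 = (s ^ 2 + 3) / 4 := by ring
    rw [h1, hs]
    norm_num
  let s0 : F0 := ⟨s, hsF⟩
  have hs0 : s0 ^ 2 = -3 := Subtype.ext hs
  have hw0 : ((-1 + s0) / 2) ^ 2 + (-1 + s0) / 2 + 1 = 0 := by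
    have h1 : ((-1 + s0) / 2) ^ 2 + (-1 + s0) / 2 + 1 = (s0 ^ 2 + 3) / 4 := by ring
    rw [h1, hs0]
    norm_num
  have hint : IsIntegral ℤ ((-1 + s0) / 2) := by
    refine ⟨Polynomial.X ^ 2 + Polynomial.X + 1, ?_, ?_⟩
    · monicity!
    · simpa using hw0
  let ω : 𝓞 F0 := ⟨(-1 + s0) / 2, hint⟩
  have hω : ω ^ 2 + ω + 1 = 0 := RingOfIntegers.ext hw0
  have hXω : ∀ z : X, z ^ 2 + z + 1 ≠ 0 := by
    intro z hz
    have hz' : (z : L) ^ 2 + (z : L) + 1 = 0 := by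
      have := congrArg (algebraMap X L) hz
      simpa using this
    have h1 : (2 * (z : L) + 1) ^ 2 = s ^ 2 := by
      rw [hs]
      linear_combination 4 * hz'
    have hz2 : 2 * (z : L) + 1 ∈ X := X.add_mem (X.mul_mem (by
      have := X.algebraMap_mem (2 : ℚ)
      simpa using this) z.2) X.one_mem
    rcases sq_eq_sq_iff_eq_or_eq_neg.mp h1 with h | h
    · exact hsX (h ▸ hz2)
    · apply hsX
      have h3 : s = -(2 * (z : L) + 1) := by rw [h]; ring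
      rw [h3]
      exact X.neg_mem hz2
  obtain ⟨q, hq, hpq, hqN⟩ := h2
  have hunrX : ¬ p ∣ (discr X).natAbs := by
    intro h
    exact hunr (h.trans (Int.natAbs_dvd_natAbs.mpr (discr_dvd_discr X L)))
  obtain ⟨Q1, Q2, a1, a2, a3, a4, a5, a6⟩ := twoRel_of_norm_two (k := k) (L := X) (F0 := F0)
    (L' := X') e1 e2 hω e3 hXω hp hq hpq hqN hunrX
  have hpne : ∀ Q : Ideal (𝓞 X'), (p : 𝓞 X') ∈ Q → Q ≠ ⊥ := by
    rintro Q hQ rfl
    rw [Ideal.mem_bot] at hQ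
    exact hp.ne_zero (by exact_mod_cast hQ)
  have b1 : Q1.IsMaximal := a1.isMaximal (hpne Q1 a3)
  have b2 : Q2.IsMaximal := a2.isMaximal (hpne Q2 a4)
  obtain ⟨P1, c1, d1⟩ := Ideal.exists_maximal_ideal_liesOver_of_isIntegral (S := 𝓞 L) Q1
  obtain ⟨P2, c2, d2⟩ := Ideal.exists_maximal_ideal_liesOver_of_isIntegral (S := 𝓞 L) Q2
  have f1 : P1.under (𝓞 X') = Q1 := d1.over.symm
  have f2 : P2.under (𝓞 X') = Q2 := d2.over.symm
  have hmem : ∀ (P : Ideal (𝓞 L)) (Q : Ideal (𝓞 X')), P.under (𝓞 X') = Q → (p : 𝓞 X') ∈ Q →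
      (p : 𝓞 L) ∈ P := by
    intro P Q hPQ hpQ
    rw [← hPQ, Ideal.under_def, Ideal.mem_comap] at hpQ
    simpa using hpQ
  refine ⟨P1, P2, c1.isPrime, c2.isPrime, hmem P1 Q1 f1 a3, hmem P2 Q2 f2 a4, ?_, ?_⟩
  · ext y
    have key : ∀ (P : Ideal (𝓞 L)) (Q : Ideal (𝓞 X')), P.under (𝓞 X') = Q →
        (y ∈ P.under (𝓞 F0) ↔ y ∈ Q.under (𝓞 F0)) := by
      intro P Q hPQ
      rw [← hPQ, Ideal.under_def, Ideal.under_def, Ideal.under_def, Ideal.mem_comap,
        Ideal.mem_comap, Ideal.mem_comap]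
      have h5 : algebraMap (𝓞 F0) (𝓞 L) y =
          algebraMap (𝓞 X') (𝓞 L) (algebraMap (𝓞 F0) (𝓞 X') y) := RingOfIntegers.ext rfl
      rw [h5]
    rw [key P1 Q1 f1, key P2 Q2 f2, a5]
  · rw [f1, f2]
    exact a6

lemma finrank_sup_sqrt (A : IntermediateField ℚ L) {s : L} (hs : s ^ 2 = -3) (hsA : s ∉ A) :
    finrank ℚ (A ⊔ ℚ⟮s⟯ : IntermediateField ℚ L) = 2 * finrank ℚ A := by
  have hRi : (ℚ⟮s⟯).fixingSubgroup.index = 2 := by
    rw [← finrank_index (F := ℚ) ℚ⟮s⟯, finrank_sqrt hs]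
  have hAR : ¬ A.fixingSubgroup ≤ (ℚ⟮s⟯).fixingSubgroup := by
    intro h
    exact hsA (le_of_fixing h (IntermediateField.mem_adjoin_simple_self ℚ s))
  rw [finrank_index (F := ℚ) (A ⊔ ℚ⟮s⟯ : IntermediateField ℚ L), finrank_index (F := ℚ) A,
    IntermediateField.fixingSubgroup_sup, ← Subgroup.relIndex_mul_index
      (inf_le_left : A.fixingSubgroup ⊓ (ℚ⟮s⟯).fixingSubgroup ≤ A.fixingSubgroup)]
  congr 1
  rw [inf_comm, Subgroup.inf_relIndex_right]
  exact relIndex_of_index_two _ _ hRi hAR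

theorem twoUp_of_normTwo (M S X : IntermediateField ℚ L) {s : L} (hs : s ^ 2 = -3) (hsM : s ∉ M)
    (hXM : X ≤ M) (hSn : S.fixingSubgroup.Normal) (hsS : s ∈ S)
    (heven : 2 * finrank ℚ (X ⊓ S : IntermediateField ℚ L) ∣ finrank ℚ X) {p : ℕ} (hp : p.Prime)
    (hunr : ¬ p ∣ (discr L).natAbs) (h2 : NormTwo (X ⊓ S : IntermediateField ℚ L) p) :
    TwoUp ((M ⊔ ℚ⟮s⟯) ⊓ S : IntermediateField ℚ L) (M ⊔ ℚ⟮s⟯ : IntermediateField ℚ L) L p := by
  have hsX : s ∉ X := fun h => hsM (hXM h)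
  have hsk : s ∉ (X ⊓ S : IntermediateField ℚ L) := fun h => hsX h.1
  have hsS' : ℚ⟮s⟯ ≤ S := by
    rw [IntermediateField.adjoin_simple_le_iff]
    exact hsS
  have h3 := twoUp_base (k := X ⊓ S) (X := X) (F0 := (X ⊓ S) ⊔ ℚ⟮s⟯) (X' := X ⊔ ℚ⟮s⟯)
    inf_le_left le_sup_left le_sup_left (sup_le_sup_right inf_le_left _) hs
    ((le_sup_right : ℚ⟮s⟯ ≤ (X ⊓ S) ⊔ ℚ⟮s⟯) (IntermediateField.mem_adjoin_simple_self ℚ s)) hsX
    (finrank_sup_sqrt _ hs hsk) (finrank_sup_sqrt _ hs hsX) heven hp hunr h2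
  refine twoUp_transfer (sup_le_sup_right hXM _) ?_ h3
  intro g hg
  rw [IntermediateField.fixingSubgroup_sup, fixing_inf] at hg
  obtain ⟨hg1, hg2⟩ := hg
  have hg3 : g ∈ X.fixingSubgroup ⊔ S.fixingSubgroup := hg1
  rw [Subgroup.mem_sup_of_normal_right] at hg3
  obtain ⟨y, hy, z, hz, rfl⟩ := hg3
  refine ⟨y, ?_, z, hz, rfl⟩
  rw [IntermediateField.fixingSubgroup_sup]
  refine ⟨hy, ?_⟩
  have hz2 : z ∈ (ℚ⟮s⟯).fixingSubgroup := IntermediateField.fixingSubgroup_antitone hsS' hz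
  exact ((ℚ⟮s⟯).fixingSubgroup.mul_mem_cancel_right hz2).mp hg2

end two

end Pool.Agent.Lib.MP_695920_nt.Od
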