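import Mathlib
import Pool.Agent.Lib.MP_695920_nt.Od.Defs
import Pool.Agent.Lib.MP_695920_nt.Od.Cover
import Pool.Agent.Lib.MP_695920_nt.Od.SmallTwo

set_option autoImplicit false

open Finset NumberField Module IsDedekindDomain
open scoped nonZeroDivisors Pointwise

namespace Pool.Agent.Lib.MP_695920_nt.Od

/-- norms of elements congruent to one modulo `k` -/
lemma p4_norm_one_add {E : Type} [Field E] [NumberField E] (k : ℕ) (g : 𝓞 E) :
    ((Algebra.norm ℤ (1 + (k : 𝓞 E) * g) : ℤ) : ZMod k) = 1 := by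
  classical
  set b := RingOfIntegers.basis E
  rw [Algebra.norm_eq_matrix_det b]
  have h1 : Algebra.leftMulMatrix b (1 + (k : 𝓞 E) * g) =
      1 + (k : ℤ) • Algebra.leftMulMatrix b g := by
    rw [map_add, map_one]
    congr 1
    have : (k : 𝓞 E) * g = (k : ℤ) • g := by
      rw [zsmul_eq_mul]; simp
    rw [this, map_zsmul]
  rw [h1]
  have h2 := RingHom.map_det (Int.castRingHom (ZMod k)) (1 + (k : ℤ) • Algebra.leftMulMatrix b g)
  rw [eq_intCast] at h2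
  rw [h2]
  have h3 : (Int.castRingHom (ZMod k)).mapMatrix (1 + (k : ℤ) • Algebra.leftMulMatrix b g) = 1 := by
    rw [map_add, map_one]
    have : (Int.castRingHom (ZMod k)).mapMatrix ((k : ℤ) • Algebra.leftMulMatrix b g) = 0 := by
      rw [map_zsmul]
      ext i j
      rw [Matrix.smul_apply, zsmul_eq_mul]
      simp
    rw [this, add_zero]
  rw [h3, Matrix.det_one]

/-- the norm of `M + a` is positive when `M` dominates all conjugates of `a` -/
lemma p4_norm_pos {E : Type} [Field E] [NumberField E] (a : E) (M : ℝ) (hM : 0 < M) (q : ℚ)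
    (hq : (q : ℝ) = M) (h : ∀ φ : E →+* ℂ, ‖φ a‖ < M) : 0 < Algebra.norm ℚ (a + (q : E)) := by
  classical
  set P : ℝ → ℂ := fun t => ∏ φ : E →ₐ[ℚ] ℂ, ((M : ℂ) + t * φ a) with hP
  have hne : ∀ t ∈ Set.Icc (0:ℝ) 1, P t ≠ 0 := by
    intro t ht h0
    simp only [hP, Finset.prod_eq_zero_iff, Finset.mem_univ, true_and] at h0
    obtain ⟨φ, hφ⟩ := h0
    have h1 : (t : ℂ) * φ a = -(M : ℂ) := by linear_combination hφ
    have h2 : ‖(t : ℂ) * φ a‖ = M := by
      rw [h1, norm_neg]; simp [abs_of_pos hM]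
    rw [norm_mul] at h2
    have h3 : ‖(t : ℂ)‖ ≤ 1 := by
      rw [Complex.norm_real, Real.norm_eq_abs, abs_of_nonneg ht.1]; exact ht.2
    have h4 := h (φ : E →+* ℂ)
    have h5 : ‖φ a‖ < M := h4
    have h6 : ‖(t : ℂ)‖ * ‖φ a‖ ≤ 1 * ‖φ a‖ := mul_le_mul_of_nonneg_right h3 (norm_nonneg _)
    linarith
  have hreal : ∀ t, (starRingEnd ℂ) (P t) = P t := by
    intro t
    simp only [hP, map_prod, map_add, map_mul, Complex.conj_ofReal]
    let e : (E →ₐ[ℚ] ℂ) ≃ (E →ₐ[ℚ] ℂ) :=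
      { toFun := fun φ => ((Complex.conjAe.toAlgHom.restrictScalars ℚ)).comp φ
        invFun := fun φ => ((Complex.conjAe.toAlgHom.restrictScalars ℚ)).comp φ
        left_inv := by intro φ; ext x; simp
        right_inv := by intro φ; ext x; simp }
    refine Fintype.prod_equiv e _ _ ?_
    intro φ
    simp [e]
  have him : ∀ t, P t = ((P t).re : ℂ) := by
    intro t
    exact (Complex.conj_eq_iff_real.mp (hreal t)).elim (fun r hr => by rw [hr]; simp)
  have hcont : Continuous fun t => (P t).re := by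
    apply Complex.continuous_re.comp
    simp only [hP]
    fun_prop
  have h0 : (P 0).re = M ^ (Fintype.card (E →ₐ[ℚ] ℂ)) := by
    simp only [hP, Complex.ofReal_zero, zero_mul, add_zero, Finset.prod_const, Finset.card_univ]
    rw [← Complex.ofReal_pow, Complex.ofReal_re]
  have h0pos : 0 < (P 0).re := by rw [h0]; positivity
  have h1pos : 0 < (P 1).re := by
    by_contra hcon
    push Not at hcon
    have hmem : (0:ℝ) ∈ (fun t => (P t).re) '' Set.Icc 0 1 := by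
      apply intermediate_value_Icc' zero_le_one hcont.continuousOn
      exact ⟨hcon, h0pos.le⟩
    obtain ⟨t, ht, ht0⟩ := hmem
    apply hne t ht
    rw [him t]
    simp only at ht0
    rw [ht0]; simp
  have hnorm : ((Algebra.norm ℚ (a + (q : E)) : ℚ) : ℂ) = P 1 := by
    have := Algebra.norm_eq_prod_embeddings ℚ ℂ (a + (q : E))
    rw [eq_ratCast] at this
    rw [this]
    simp only [hP, Complex.ofReal_one, one_mul]
    apply Finset.prod_congr rfl
    intro φ _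
    rw [map_add, map_ratCast, add_comm]
    congr 1
    rw [← hq]; simp
  have hre : ((Algebra.norm ℚ (a + (q : E)) : ℚ) : ℝ) = (P 1).re := by
    rw [← hnorm]; simp
  have : (0:ℝ) < ((Algebra.norm ℚ (a + (q : E)) : ℚ) : ℝ) := by rw [hre]; exact h1pos
  exact_mod_cast this

/-- upper bound for the norm of an integer -/
lemma p4_norm_le {E : Type} [Field E] [NumberField E] (x : 𝓞 E) (B : ℝ)
    (h : ∀ φ : E →+* ℂ, ‖φ x‖ ≤ B) : ((Algebra.norm ℤ x).natAbs : ℝ) ≤ B ^ finrank ℚ E := by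
  classical
  have h1 : (((Algebra.norm ℤ x).natAbs : ℝ)) = ‖((Algebra.norm ℚ (x : E) : ℚ) : ℂ)‖ := by
    rw [← Algebra.coe_norm_int, Nat.cast_natAbs]
    simp
  have h2 := Algebra.norm_eq_prod_embeddings ℚ ℂ (x : E)
  rw [eq_ratCast] at h2
  rw [h1, h2, norm_prod]
  have h3 : ∏ φ : E →ₐ[ℚ] ℂ, ‖φ (x : E)‖ ≤ ∏ φ : E →ₐ[ℚ] ℂ, B :=
    Finset.prod_le_prod (fun _ _ => norm_nonneg _) (fun φ _ => h (φ : E →+* ℂ))
  refine h3.trans (le_of_eq ?_)
  rw [Finset.prod_const, Finset.card_univ, AlgHom.card]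

/-- the arithmetic part of the construction -/
lemma p4_core {E : Type} [Field E] [NumberField E] (A0 : Ideal (𝓞 E)) (A Q : ℕ) (hA : Ideal.absNorm A0 = A)
    (hA3 : A % 3 = 2) (hQ : 0 < Q) (hQ3 : ¬ 3 ∣ Q) (R : ℕ)
    (hcov : ∀ x : E, ∃ β : 𝓞 E, ∀ φ : E →+* ℂ, ‖φ (x - β)‖ ≤ (R : ℝ)) :
    ∃ I : ℕ → Ideal (𝓞 E), ∀ m : ℕ,
        Ideal.absNorm (I m) % 3 = 2 ∧
        (Ideal.absNorm (I m) : ℝ) ≤ (3 * Q * A * (R + (m + (R + 1)))) ^ finrank ℚ E ∧
        (∀ p : ℕ, p.Prime → p ∣ Q → ∀ q : Ideal (𝓞 E), q.IsPrime → (p : 𝓞 E) ∈ q → ¬ q ∣ I m) ∧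
        ∀ m' p : ℕ, p.Prime → ∀ q : Ideal (𝓞 E), q.IsPrime → (p : 𝓞 E) ∈ q → q ∣ I m →
          q ∣ I m' → m ≡ m' [MOD p] := by
  have hApos : 0 < A := by omega
  have hA0 : A0 ≠ 0 := by
    intro h
    rw [h, Ideal.zero_eq_bot, Ideal.absNorm_bot] at hA
    omega
  have hAmem : (A : 𝓞 E) ∈ A0 := by
    rw [← hA]; exact Ideal.absNorm_mem A0
  -- (Q A) + (a1) = A0
  have hQA : ((Q : 𝓞 E) * A) ∈ A0 := Ideal.mul_mem_left _ _ hAmem
  have hQA0 : ((Q : 𝓞 E) * A) ≠ 0 := by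
    apply mul_ne_zero <;> exact_mod_cast (by omega)
  obtain ⟨a1, ha1⟩ := IsDedekindDomain.exists_sup_span_eq
    (I := Ideal.span {((Q : 𝓞 E) * A)}) (J := A0)
    ((Ideal.span_singleton_le_iff_mem _).mpr hQA) (by
      rw [Ideal.zero_eq_bot, Ne, Ideal.span_singleton_eq_bot]; exact hQA0)
  set a0 : 𝓞 E := a1 + ((Q : 𝓞 E) * A) ^ 2 * (1 - a1) with ha0
  have ha0mem : a0 ∈ A0 := by
    have h1 : a1 ∈ A0 := by
      rw [← ha1]; exact Ideal.mem_sup_right (Ideal.mem_span_singleton_self a1)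
    apply Ideal.add_mem _ h1
    rw [pow_two, mul_assoc, mul_assoc]
    exact Ideal.mul_mem_left _ _ (Ideal.mul_mem_right _ _ hAmem)
  have hgen : ∀ J : Ideal (𝓞 E), ((Q : 𝓞 E) * A) ∈ J → a0 ∈ J → A0 ≤ J := by
    intro J h1 h2
    rw [← ha1, sup_le_iff, Ideal.span_singleton_le_iff_mem, Ideal.span_singleton_le_iff_mem]
    refine ⟨h1, ?_⟩
    have h3 : a1 = a0 - ((Q : 𝓞 E) * A) * (((Q : 𝓞 E) * A) * (1 - a1)) := by
      rw [ha0]; ring
    rw [h3]
    exact Ideal.sub_mem _ h2 (Ideal.mul_mem_right _ _ h1)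
  -- the reduced element
  obtain ⟨β, hβ⟩ := hcov ((a0 : E) / (3 * Q * A))
  set α : 𝓞 E := a0 - 3 * Q * A * β with hα
  have hαbd : ∀ φ : E →+* ℂ, ‖φ (α : E)‖ ≤ 3 * Q * A * R := by
    intro φ
    have hD : (3 * (Q : E) * A) ≠ 0 := by
      have : (Q : E) ≠ 0 := by exact_mod_cast hQ.ne'
      have : (A : E) ≠ 0 := by exact_mod_cast hApos.ne'
      refine mul_ne_zero (mul_ne_zero three_ne_zero ?_) ?_ <;> assumption
    have h1 : (α : E) = (3 * Q * A) * ((a0 : E) / (3 * Q * A) - β) := by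
      have e1 : (α : E) = (a0 : E) - 3 * Q * A * β := by
        rw [hα]; simp only [map_sub, map_mul, map_natCast, map_ofNat]
      have e2 : (3 * (Q : E) * A) * ((a0 : E) / (3 * Q * A)) = a0 := mul_div_cancel₀ _ hD
      rw [e1, mul_sub, e2]
    rw [h1, map_mul, norm_mul]
    have h2 : ‖φ (3 * (Q : E) * A)‖ = 3 * Q * A := by
      rw [map_mul, map_mul, map_natCast, map_natCast, map_ofNat]
      simp
    rw [h2]
    exact mul_le_mul_of_nonneg_left (hβ φ) (by positivity)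
  -- 3 divides alpha - 1
  have hQAsq : ∃ t : ℕ, (Q * A) ^ 2 = 1 + 3 * t := by
    have h1 : (Q * A) ^ 2 % 3 = 1 := by
      have h2 : Q % 3 = 1 ∨ Q % 3 = 2 := by omega
      rw [pow_two, Nat.mul_mod, Nat.mul_mod Q A, hA3]
      rcases h2 with h | h <;> rw [h]
    exact ⟨(Q * A) ^ 2 / 3, by omega⟩
  obtain ⟨t, ht⟩ := hQAsq
  have hα1 : α = 1 + 3 * ((t : 𝓞 E) * (1 - a1) - Q * A * β) := by
    have h1 : ((Q : 𝓞 E) * A) ^ 2 = 1 + 3 * t := by exact_mod_cast congrArg (Nat.cast (R := 𝓞 E)) ht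
    rw [hα, ha0, h1]; ring
  have hαmem : α ∈ A0 := by
    rw [hα]
    apply Ideal.sub_mem _ ha0mem
    exact Ideal.mul_mem_right _ _ (Ideal.mul_mem_left _ _ hAmem)
  -- the sequence of elements
  set al : ℕ → 𝓞 E := fun m => α + ((3 * Q * A * (m + (R + 1)) : ℕ) : 𝓞 E) with hal
  have halmem : ∀ m, al m ∈ A0 := by
    intro m
    apply Ideal.add_mem _ hαmem
    have : (((3 * Q * A * (m + (R + 1)) : ℕ)) : 𝓞 E) = (3 * Q) * ((m + (R + 1)) : ℕ) * A := by
      push_cast; ring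
    rw [this]
    exact Ideal.mul_mem_left _ _ hAmem
  have hal1 : ∀ m, ∃ g : 𝓞 E, al m = 1 + ((3 : ℕ) : 𝓞 E) * g := by
    intro m
    refine ⟨((t : 𝓞 E) * (1 - a1) - Q * A * β) + ((Q * A * (m + (R + 1)) : ℕ) : 𝓞 E), ?_⟩
    simp only [hal]
    rw [hα1]; push_cast; ring
  have hpos : ∀ m, 0 < Algebra.norm ℤ (al m) := by
    intro m
    have hM : (0:ℝ) < 3 * Q * A * (m + (R + 1)) := by positivity
    have h1 := p4_norm_pos (α : E) (3 * Q * A * (m + (R + 1))) hM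
      ((3 * Q * A * (m + (R + 1)) : ℕ) : ℚ) (by push_cast; ring) (by
        intro φ
        refine lt_of_le_of_lt (hαbd φ) ?_
        have : (0:ℝ) < 3 * Q * A := by positivity
        have h2 : (0:ℝ) ≤ (m : ℝ) := by positivity
        nlinarith)
    have h2 : (α : E) + (((3 * Q * A * (m + (R + 1)) : ℕ) : ℚ) : E) = ((al m : 𝓞 E) : E) := by
      simp only [hal, map_add, map_natCast]; push_cast; ring
    rw [h2, ← Algebra.coe_norm_int] at h1
    exact_mod_cast h1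
  have hmod : ∀ m, (Algebra.norm ℤ (al m)).natAbs % 3 = 1 := by
    intro m
    obtain ⟨g, hg⟩ := hal1 m
    have h1 := p4_norm_one_add 3 g
    rw [← hg] at h1
    have h2 : ((Algebra.norm ℤ (al m) : ℤ) : ZMod 3) = ((1 : ℤ) : ZMod 3) := by rw [h1]; simp
    rw [ZMod.intCast_eq_intCast_iff] at h2
    have h3 := hpos m
    have h4 : (Algebra.norm ℤ (al m)) % 3 = 1 := by
      have := h2
      unfold Int.ModEq at this
      simpa using this
    omega
  have hdiv : ∀ m, ∃ I : Ideal (𝓞 E), Ideal.span {al m} = A0 * I := by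
    intro m
    exact Ideal.dvd_iff_le.mpr ((Ideal.span_singleton_le_iff_mem _).mpr (halmem m))
  choose I hI using hdiv
  have hnorm : ∀ m, A * Ideal.absNorm (I m) = (Algebra.norm ℤ (al m)).natAbs := by
    intro m
    rw [← Ideal.absNorm_span_singleton, hI m, map_mul, hA]
  have hIq : ∀ m (q : Ideal (𝓞 E)), q ∣ I m → al m ∈ A0 * q := by
    intro m q hq
    have h1 : A0 * I m ≤ A0 * q := Ideal.mul_mono_right (Ideal.dvd_iff_le.mp hq)
    apply h1
    rw [← hI m]; exact Ideal.mem_span_singleton_self _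
  have hcontra : ∀ q : Ideal (𝓞 E), q.IsPrime → ¬ A0 ≤ A0 * q := by
    intro q hq hle
    have h1 : A0 * q = A0 := le_antisymm Ideal.mul_le_left hle
    have h2 : A0 * q = A0 * 1 := by rw [h1, mul_one]
    have h3 := mul_left_cancel₀ hA0 h2
    exact hq.ne_top (by rw [h3, Ideal.one_eq_top])
  have hkey : ∀ m (q : Ideal (𝓞 E)), ((Q : 𝓞 E) * A) ∈ A0 * q → al m ∈ A0 * q → A0 ≤ A0 * q := by
    intro m q h1 h2
    apply hgen _ h1
    have h3 : a0 = al m - ((Q : 𝓞 E) * A) * (3 * ((m + (R + 1) : ℕ) : 𝓞 E) - 3 * β) := by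
      simp only [hal]
      rw [hα]; push_cast; ring
    rw [h3]
    exact Ideal.sub_mem _ h2 (Ideal.mul_mem_right _ _ h1)
  have hc : ∀ m, ∀ p : ℕ, p.Prime → p ∣ Q → ∀ q : Ideal (𝓞 E), q.IsPrime → (p : 𝓞 E) ∈ q →
      ¬ q ∣ I m := by
    intro m p hp hpQ q hq hpq hdvd
    apply hcontra q hq
    apply hkey m q _ (hIq m q hdvd)
    obtain ⟨r, hr⟩ := hpQ
    have h1 : (Q : 𝓞 E) * A = A * ((p : 𝓞 E) * r) := by rw [hr]; push_cast; ring
    rw [h1]
    exact Ideal.mul_mem_mul hAmem (Ideal.mul_mem_right _ _ hpq)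
  refine ⟨I, fun m => ⟨?_, ?_, hc m, ?_⟩⟩
  · have h1 := hnorm m
    have h2 := hmod m
    rw [← h1, Nat.mul_mod, hA3] at h2
    have h3 : Ideal.absNorm (I m) % 3 < 3 := Nat.mod_lt _ (by norm_num)
    interval_cases h : Ideal.absNorm (I m) % 3 <;> simp_all
  · have h1 := p4_norm_le (al m) (3 * Q * A * (R + (m + (R + 1)))) (by
      intro φ
      have h2 : ((al m : 𝓞 E) : E) = (α : E) + (((3 * Q * A * (m + (R + 1)) : ℕ)) : E) := by
        simp only [hal, map_add, map_natCast]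
      rw [h2, map_add, map_natCast]
      refine (norm_add_le _ _).trans ?_
      have h3 := hαbd φ
      rw [Complex.norm_natCast]
      push_cast
      nlinarith)
    rw [← hnorm m] at h1
    refine le_trans ?_ h1
    push_cast
    have h2 : (1:ℝ) ≤ A := by exact_mod_cast hApos
    have h3 : (0:ℝ) ≤ (Ideal.absNorm (I m) : ℝ) := by positivity
    nlinarith
  · intro m' p hp q hq hpq hm hm'
    by_contra hne
    by_cases h3 : p = 3
    · -- al m is 1 modulo 3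
      obtain ⟨g, hg⟩ := hal1 m
      have h1 : al m ∈ q := Ideal.mul_le_right (hIq m q hm)
      have h2 : ((3 : ℕ) : 𝓞 E) ∈ q := by rw [← h3]; exact hpq
      have h4 : (1 : 𝓞 E) ∈ q := by
        have : (1 : 𝓞 E) = al m - ((3 : ℕ) : 𝓞 E) * g := by rw [hg]; ring
        rw [this]
        exact Ideal.sub_mem _ h1 (Ideal.mul_mem_right _ _ h2)
      exact hq.ne_top ((Ideal.eq_top_iff_one q).mpr h4)
    · by_cases hpQ : p ∣ Q
      · exact hc m p hp hpQ q hq hpq hm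
      · -- coprimality
        apply hcontra q hq
        apply hkey m q _ (hIq m q hm)
        have h5 : IsCoprime ((3 * Q * ((m : ℤ) - m')) : ℤ) (p : ℤ) := by
          have hpZ : Prime (p : ℤ) := Nat.prime_iff_prime_int.mp hp
          rw [isCoprime_comm, hpZ.coprime_iff_not_dvd]
          intro hd
          rcases hpZ.dvd_or_dvd hd with h | h
          · rcases hpZ.dvd_or_dvd h with h' | h'
            · have : p ∣ 3 := by exact_mod_cast h'
              exact h3 ((Nat.prime_dvd_prime_iff_eq hp Nat.prime_three).mp this)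
            · exact hpQ (by exact_mod_cast h')
          · apply hne
            have : (m' : ℤ) ≡ m [ZMOD p] := (Int.modEq_iff_dvd).mpr h
            exact (Int.natCast_modEq_iff.mp this).symm
        obtain ⟨u, v, huv⟩ := h5
        have h6 : al m - al m' = ((3 * Q * ((m : ℤ) - m') : ℤ) : 𝓞 E) * A := by
          simp only [hal]; push_cast; ring
        have h7 : ((3 * Q * ((m : ℤ) - m') : ℤ) : 𝓞 E) * A ∈ A0 * q := by
          rw [← h6]; exact Ideal.sub_mem _ (hIq m q hm) (hIq m' q hm')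
        have h8 : (p : 𝓞 E) * A ∈ A0 * q := by
          rw [mul_comm (p : 𝓞 E)]; exact Ideal.mul_mem_mul hAmem hpq
        have h9 : (A : 𝓞 E) = (u : 𝓞 E) * (((3 * Q * ((m : ℤ) - m') : ℤ) : 𝓞 E) * A) +
            (v : 𝓞 E) * ((p : 𝓞 E) * A) := by
          have h10 : ((u * (3 * Q * ((m : ℤ) - m')) + v * p : ℤ) : 𝓞 E) = 1 := by
            rw [huv]; simp
          push_cast at h10 ⊢
          linear_combination (-(A : 𝓞 E)) * h10
        apply Ideal.mul_mem_left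
        rw [h9]
        exact Ideal.add_mem _ (Ideal.mul_mem_left _ _ h7) (Ideal.mul_mem_left _ _ h8)

theorem ideal_seq (n : ℕ) : ∃ C : ℕ, ∀ (E : Type) [Field E] [NumberField E], finrank ℚ E = n →
    (∀ x : E, x ^ 2 ≠ -3) → ∀ w : ℕ, 2 ≤ w → |(discr E : ℝ)| ≤ w →
      ∀ Q : ℕ, 0 < Q → ¬ 3 ∣ Q → ∃ I : ℕ → Ideal (𝓞 E), ∀ m : ℕ,
        Ideal.absNorm (I m) % 3 = 2 ∧ Ideal.absNorm (I m) ≤ (w ^ C * Q * (m + 1)) ^ n ∧
        (∀ p : ℕ, p.Prime → p ∣ Q → ∀ q : Ideal (𝓞 E), q.IsPrime → (p : 𝓞 E) ∈ q → ¬ q ∣ I m) ∧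
        ∀ m' p : ℕ, p.Prime → ∀ q : Ideal (𝓞 E), q.IsPrime → (p : 𝓞 E) ∈ q → q ∣ I m →
          q ∣ I m' → m ≡ m' [MOD p] := by
  obtain ⟨C₁, h1⟩ := cover n
  obtain ⟨C₂, h2⟩ := small_two n
  refine ⟨C₁ + C₂ + 4, ?_⟩
  intro E _ _ hn hE w hw hdisc Q hQ hQ3
  obtain ⟨A0, hA3, hAle⟩ := h2 E hn hE w hw hdisc
  obtain ⟨I, hI⟩ := p4_core A0 (Ideal.absNorm A0) Q rfl hA3 hQ hQ3 (w ^ C₁) (by
    intro x
    obtain ⟨β, hβ⟩ := h1 E hn w hw hdisc x
    exact ⟨β, fun φ => by push_cast; exact hβ φ⟩)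
  refine ⟨I, fun m => ?_⟩
  obtain ⟨e1, e2, e3, e4⟩ := hI m
  refine ⟨e1, ?_, e3, e4⟩
  rw [hn] at e2
  have e5 : (Ideal.absNorm (I m)) ≤
      (3 * Q * Ideal.absNorm A0 * (w ^ C₁ + (m + (w ^ C₁ + 1)))) ^ n := by
    exact_mod_cast e2
  refine e5.trans (Nat.pow_le_pow_left ?_ n)
  have hw1 : 1 ≤ w ^ C₁ := Nat.one_le_pow _ _ (by omega)
  have hw4 : 16 ≤ w ^ 4 := by
    calc 16 = 2 ^ 4 := by norm_num
      _ ≤ w ^ 4 := Nat.pow_le_pow_left hw 4
  calc 3 * Q * Ideal.absNorm A0 * (w ^ C₁ + (m + (w ^ C₁ + 1)))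
      ≤ 3 * Q * w ^ C₂ * (4 * w ^ C₁ * (m + 1)) := by
        apply Nat.mul_le_mul
        · exact Nat.mul_le_mul_left _ hAle
        · nlinarith
    _ = 12 * (w ^ (C₁ + C₂) * Q * (m + 1)) := by rw [pow_add]; ring
    _ ≤ w ^ 4 * (w ^ (C₁ + C₂) * Q * (m + 1)) := Nat.mul_le_mul_right _ (by omega)
    _ = w ^ (C₁ + C₂ + 4) * Q * (m + 1) := by rw [pow_add w (C₁ + C₂) 4]; ring

end Pool.Agent.Lib.MP_695920_nt.Od
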