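import Mathlib
import Pool.Agent.Lib.MP_695920_nt.Od.Scale
import Pool.Agent.Lib.MP_695920_nt.Od.Many
import Pool.Agent.Lib.MP_695920_nt.Tow.Crite2

/-!
The bound for `M(√-3)` in logarithmic form.
-/

set_option autoImplicit false

open Finset NumberField Module IsDedekindDomain
open scoped nonZeroDivisors Pointwise IntermediateField

namespace Pool.Agent.Lib.MP_695920_nt.Od

open Pool.Agent.Lib.MP_695920_nt.Tow Pool.Agent.Lib.MP_695920_nt.Sx
  Pool.Agent.Lib.MP_695920_nt.Solv Pool.Agent.Lib.MP_695920_nt.Tow.V2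

lemma prods_mono {P : ℕ → Prop} {Y Y' : ℕ} (h : Y ≤ Y') : prods P Y ⊆ prods P Y' := by
  intro s hs
  rw [mem_prods] at hs ⊢
  exact ⟨⟨hs.1.1, hs.1.2.trans h⟩, hs.2⟩

/-- `many_odd2` for all degrees at most `N` -/
lemma many_unif (N : ℕ) : ∃ (c : ℝ) (B : ℕ), 0 < c ∧ ∀ C' : ℝ, ∃ w₀ : ℕ,
    ∀ (E : Type) [Field E] [NumberField E], finrank ℚ E ≤ N → (∀ x : E, x ^ 2 ≠ -3) →
      ∀ (w : ℕ) (V : Finset ℕ), w₀ ≤ w → |(discr E : ℝ)| ≤ w →
        (V.card : ℝ) ≤ C' * Real.log w →
        (w : ℝ) ^ c ≤ (prods (fun p => p ∉ V ∧ NormTwo E p) (w ^ B)).card := by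
  induction N with
  | zero =>
    refine ⟨1, 0, one_pos, fun _ => ⟨0, ?_⟩⟩
    intro E _ _ hE
    have : 0 < finrank ℚ E := finrank_pos
    omega
  | succ N ih =>
    obtain ⟨c1, B1, hc1, h1⟩ := ih
    obtain ⟨c2, B2, hc2, h2⟩ := many_odd2 (N + 1)
    refine ⟨min c1 c2, B1 + B2, lt_min hc1 hc2, fun C' => ?_⟩
    obtain ⟨w1, hw1⟩ := h1 C'
    obtain ⟨w2, hw2⟩ := h2 C'
    refine ⟨w1 + w2 + 1, ?_⟩
    intro E _ _ hE h3 w V hw hd hV
    have hw0 : 1 ≤ w := by omega
    have hwr : (1 : ℝ) ≤ w := by exact_mod_cast hw0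
    rcases Nat.lt_or_ge N (finrank ℚ E) with h | h
    · have h4 := hw2 E (by omega) h3 w V (by omega) hd hV
      calc (w : ℝ) ^ (min c1 c2) ≤ (w : ℝ) ^ c2 :=
            Real.rpow_le_rpow_of_exponent_le hwr (min_le_right _ _)
        _ ≤ _ := h4
        _ ≤ _ := by
            exact_mod_cast Finset.card_le_card
              (prods_mono (Nat.pow_le_pow_right hw0 (Nat.le_add_left B2 B1)))
    · have h4 := hw1 E h h3 w V (by omega) hd hV
      calc (w : ℝ) ^ (min c1 c2) ≤ (w : ℝ) ^ c1 :=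
            Real.rpow_le_rpow_of_exponent_le hwr (min_le_left _ _)
        _ ≤ _ := h4
        _ ≤ _ := by
            exact_mod_cast Finset.card_le_card
              (prods_mono (Nat.pow_le_pow_right hw0 (Nat.le_add_right B1 B2)))

/-- the exceptional subfields `E` of `M`: they may have small discriminant -/
def Fine2 {L : Type} [Field L] [NumberField L] (M E : IntermediateField ℚ L) : Prop :=
  finrank ℚ M = 3 * finrank ℚ E ∨
    ∃ X : IntermediateField ℚ L, X ≤ M ∧
      2 * finrank ℚ (X ⊓ E : IntermediateField ℚ L) ∣ finrank ℚ X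

theorem main_log3 (N : ℕ) (hN : 0 < N) : ∃ δ : ℝ, 0 < δ ∧ ∀ ε : ℝ, 0 < ε →
    ∃ C : ℝ, 0 ≤ C ∧ ∀ (L : Type) [Field L] [NumberField L] [IsGalois ℚ L]
      (M : IntermediateField ℚ L) (s : L) (u : ℝ),
      finrank ℚ L = N → s ^ 2 = -3 → s ∉ M →
      (M ⊔ ℚ⟮s⟯ : IntermediateField ℚ L).fixingSubgroup.normalCore = ⊥ →
      (∀ E : IntermediateField ℚ L, E ≤ M → ¬ Fine2 M E → u ≤ dd E) →
      hh 3 (M ⊔ ℚ⟮s⟯ : IntermediateField ℚ L) ≤
        (1 / 2 + ε) * dd (M ⊔ ℚ⟮s⟯ : IntermediateField ℚ L) - δ * u + C := by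
  have hNr : (1 : ℝ) ≤ N := by exact_mod_cast hN
  have hN2 : (1 : ℝ) ≤ (N : ℝ) ^ 2 := one_le_pow₀ hNr
  obtain ⟨c, B, hc, hmany⟩ := many_unif N
  have hB0 : (0 : ℝ) ≤ B := Nat.cast_nonneg B
  have hη1 : 0 < V2.eta 3 N := V2.eta_pos (by norm_num) hN
  have hη1le : V2.eta 3 N ≤ 1 / 64 := V2.eta_le (by norm_num) hN
  set η : ℝ := min (V2.eta 3 N) (1 / (6 * (N : ℝ) ^ 2 * (B + 1))) with hη
  have hη0 : 0 < η := lt_min hη1 (by positivity)
  have hηe : η ≤ V2.eta 3 N := min_le_left _ _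
  have hηle : η ≤ 1 / 64 := hηe.trans hη1le
  have hηB : 6 * (N : ℝ) ^ 2 * B * η ≤ 1 := by
    have h1 : η ≤ 1 / (6 * (N : ℝ) ^ 2 * (B + 1)) := min_le_right _ _
    rw [le_div_iff₀ (by positivity)] at h1
    have h2 : 0 ≤ 6 * (N : ℝ) ^ 2 * η := by positivity
    linarith
  obtain ⟨cs, κ, hcs, hκ, hκ1, hsc⟩ := scale_lat2 N hN η hη0 (by linarith)
  obtain ⟨w0, hw0⟩ := degone_unif N
  set c0 : ℝ := min 1 c with hc0
  have hc00 : 0 < c0 := lt_min one_pos hc
  have hc01 : c0 ≤ 1 := min_le_left _ _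
  have hc0c : c0 ≤ c := min_le_right _ _
  set δ : ℝ := c0 * (η * κ) with hδ
  have hδ0 : 0 < δ := by positivity
  refine ⟨δ, hδ0, ?_⟩
  intro ε hε
  set A : ℝ := N * (1 + 3) + 3 with hA
  have hA0 : 0 < A := by rw [hA]; positivity
  set ε1 : ℝ := ε / 2 / (A * (N : ℝ) ^ 2) with hε1
  have hε10 : 0 < ε1 := by rw [hε1]; positivity
  have hAε : A * ε1 * (N : ℝ) ^ 2 = ε / 2 := by rw [hε1]; field_simp
  obtain ⟨CT, hCT, htr⟩ := triv_lat 3 N (by norm_num) ε1 hε10
  obtain ⟨CW, cW, hCW, hcW, hst⟩ := step_all 3 N ε1 hε10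
  set ε' : ℝ := ε / (2 * δ) with hε'
  have hε'0 : 0 < ε' := by positivity
  have hε'δ : δ * ε' = ε / 2 := by rw [hε']; field_simp
  have hccs := ccs_nonneg N
  set C' : ℝ := 4 / η * (ccs N + (N : ℝ) ^ 2 / (ε' * κ)) with hC'
  obtain ⟨w1, hw1⟩ := hmany C'
  set τ0 : ℝ := 12 * (N : ℝ) ^ 2 + (N + 10 + 4 * cs + w0 + w1) / η with hτ0
  have hτ00 : 0 ≤ τ0 := by rw [hτ0]; positivity
  set u0 : ℝ := 2 * cs + τ0 / κ with hu0
  have hu00 : 0 ≤ u0 := by rw [hu0]; positivity
  refine ⟨δ * u0 + 7 + |Real.log ε1| + N * (|Real.log CW| + cW + 3 * CT + 3 * cs) + CT +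
    ε / 2 * ccs N + 1, by positivity, ?_⟩
  intro L _ _ _ M s u hL hs hsM hcore hKu
  set M' : IntermediateField ℚ L := M ⊔ ℚ⟮s⟯ with hM'
  obtain ⟨htriv, hev⟩ := htr L hL
  have hΛ := dd_closure M' hcore
  rw [hL] at hΛ
  have hU0 := dd_nonneg M'
  have hΛ0 := dd_nonneg L
  -- the error terms in terms of the discriminant of `M'`
  have herr : A * (ε1 * dd L) ≤ ε / 2 * ccs N + ε / 2 * dd M' := by
    have h1 : A * (ε1 * dd L) ≤ A * (ε1 * (ccs N + (N : ℝ) ^ 2 * dd M')) := by
      apply mul_le_mul_of_nonneg_left _ hA0.le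
      exact mul_le_mul_of_nonneg_left hΛ hε10.le
    have h2 : A * (ε1 * (ccs N + (N : ℝ) ^ 2 * dd M')) = A * ε1 * ccs N + ε / 2 * dd M' := by
      rw [← hAε]; ring
    have h3 : A * ε1 * ccs N ≤ ε / 2 * ccs N := by
      apply mul_le_mul_of_nonneg_right _ hccs
      rw [← hAε]
      exact le_mul_of_one_le_right (by positivity) hN2
    linarith
  set x : ℝ := ε1 * dd L with hx
  have hx0 : 0 ≤ x := by rw [hx]; positivity
  have hA3 : 3 * x ≤ A * x := by
    apply mul_le_mul_of_nonneg_right _ hx0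
    rw [hA]
    have : (0 : ℝ) ≤ N * (1 + 3) := by positivity
    linarith
  have hNS : 0 ≤ N * (|Real.log CW| + cW + 3 * CT + 3 * cs) := by positivity
  have habs : 0 ≤ |Real.log ε1| := abs_nonneg _
  have hδu0 : 0 ≤ δ * u0 := by positivity
  have htM := htriv M'
  have hεM : 0 ≤ ε / 2 * dd M' := by positivity
  have hεc : 0 ≤ ε / 2 * ccs N := by positivity
  rcases le_or_gt u u0 with hsmall | hlarge
  · -- small discriminant
    have h1 : δ * u ≤ δ * u0 := mul_le_mul_of_nonneg_left hsmall hδ0.le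
    linarith
  have hupos : 0 ≤ u := by linarith
  rcases le_or_gt u (ε' * dd M') with hsmall2 | hlarge2
  · -- relatively small discriminant
    have h1 : δ * u ≤ δ * (ε' * dd M') := mul_le_mul_of_nonneg_left hsmall2 hδ0.le
    rw [← mul_assoc, hε'δ] at h1
    linarith
  -- large discriminant
  have hcsK : 2 * cs < u := by
    have : 0 ≤ τ0 / κ := by positivity
    linarith
  obtain ⟨S, τ, hτ, hKS, hS, hbig⟩ := hsc L u hL hcsK
  have hτ1 : τ0 ≤ τ := by
    refine le_trans ?_ hτ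
    have h1 : τ0 / κ ≤ u := by linarith
    rw [div_le_iff₀ hκ] at h1
    linarith
  have hητ : η * κ * u ≤ η * τ := by
    have := mul_le_mul_of_nonneg_left hτ hη0.le
    linarith
  have hw00 : (0 : ℝ) ≤ w0 := Nat.cast_nonneg _
  have hw10 : (0 : ℝ) ≤ w1 := Nat.cast_nonneg _
  have hc1 : 12 * (N : ℝ) ^ 2 ≤ τ := by
    have : 0 ≤ (N + 10 + 4 * cs + w0 + w1) / η := by positivity
    linarith
  have hc2 : N + 10 + 4 * cs + w0 + w1 ≤ η * τ := by
    have h1 : (N + 10 + 4 * cs + w0 + w1) / η ≤ τ := by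
      have : (0 : ℝ) ≤ 12 * (N : ℝ) ^ 2 := by positivity
      linarith
    rw [div_le_iff₀ hη0] at h1
    linarith
  have hτpos : 0 ≤ τ := by linarith
  have hητe : η * τ ≤ V2.eta 3 N * τ := mul_le_mul_of_nonneg_right hηe hτpos
  have hητ1 : η * τ ≤ τ / 64 := by
    have := mul_le_mul_of_nonneg_right hηle hτpos
    linarith
  -- the field `ℚ(√-3)` is contained in `S`
  have hsS' : ℚ⟮s⟯ ≤ S := by
    by_contra h
    have h1 := hbig _ h
    have h2 := discr_sqrt_le hs
    have h3 := one_le_absdiscr ℚ⟮s⟯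
    have h4 : dd ℚ⟮s⟯ ≤ Real.log 12 := Real.log_le_log (by linarith) h2
    have h5 : Real.log 12 ≤ 12 - 1 := Real.log_le_sub_one_of_pos (by norm_num)
    linarith
  have hsS : s ∈ S := hsS' (IntermediateField.mem_adjoin_simple_self ℚ s)
  have hddS : dd S ≤ cs + η * τ / 2 := by
    have : η / 2 * τ = η * τ / 2 := by ring
    rw [← this]
    exact hS
  have hSn : S.fixingSubgroup.Normal := by
    apply fix_normal
    intro F hF
    have := hbig F hF
    linarith
  -- the subfield `M ⊓ S` is exceptional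
  have hfine : Fine2 M (M ⊓ S) := by
    by_contra h
    exact hKS (M ⊓ S) (hKu _ inf_le_left h) inf_le_right
  have hMS : ¬ M' ≤ S := by
    intro h
    have h1 : ¬ Fine2 M M := by
      rintro (h1 | ⟨X, hXM, h1⟩)
      · have : 0 < finrank ℚ M := finrank_pos
        omega
      · rw [inf_eq_left.mpr hXM] at h1
        have h2 : 0 < finrank ℚ X := finrank_pos
        have := Nat.le_of_dvd h2 h1
        omega
    exact hKS M (hKu M le_rfl h1) (le_sup_left.trans h)
  have hlog3 : (w0 : ℝ) ≤ (⌊Real.exp (V2.eta 3 N * τ)⌋₊ : ℝ) := by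
    obtain ⟨-, -, hw3, -, -⟩ := floor_exp (V2.eta 3 N * τ) (by linarith)
    refine le_trans ?_ hw3
    have := Real.add_one_le_exp (V2.eta 3 N * τ - 1)
    linarith
  have hlog4 : (w1 : ℝ) ≤ (⌊Real.exp (η * τ)⌋₊ : ℝ) := by
    obtain ⟨-, -, hw3, -, -⟩ := floor_exp (η * τ) (by linarith)
    refine le_trans ?_ hw3
    have := Real.add_one_le_exp (η * τ - 1)
    linarith
  have hδu : δ * u ≤ c0 * (η * τ) := by
    have : δ * u = c0 * (η * κ * u) := by rw [hδ]; ring
    rw [this]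
    exact mul_le_mul_of_nonneg_left hητ hc00.le
  have hητ0 : 0 ≤ η * τ := by positivity
  have hδu1 : δ * u ≤ η * τ := hδu.trans (mul_le_of_le_one_left hητ0 hc01)
  rcases hfine with hthree | ⟨X, hXM, heven⟩
  · -- degree three
    obtain ⟨hw1', -, hw3, -, hw5⟩ := floor_exp (V2.eta 3 N * τ) (by linarith)
    by_cases hram : 2 * dd L ≤ (⌊Real.exp (V2.eta 3 N * τ)⌋₊ : ℝ) / 128
    swap
    · -- very large discriminant of the closure
      push Not at hram
      have hw0' : (0 : ℝ) < (⌊Real.exp (V2.eta 3 N * τ)⌋₊ : ℝ) := by exact_mod_cast hw1'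
      have hΛpos : 0 < dd L := by
        by_contra h
        have h1 : dd L = 0 := le_antisymm (not_lt.mp h) hΛ0
        rw [h1] at hram
        linarith
      have h1 : Real.log (⌊Real.exp (V2.eta 3 N * τ)⌋₊ : ℝ) ≤ Real.log (256 * dd L) := by
        apply Real.log_le_log hw0'
        linarith
      rw [Real.log_mul (by norm_num) hΛpos.ne'] at h1
      have h2 := log_le_eps hε10 hΛpos
      have h3 : Real.log 256 ≤ 6 := by
        rw [show (256 : ℝ) = 2 ^ 8 by norm_num, Real.log_pow]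
        have := Real.log_two_lt_d9
        push_cast
        linarith
      linarith
    have h1 := at_scale (l := 3) (by norm_num) hL S M' τ (CT + x) cs (|Real.log CW| + x) cW
      (by push_cast; linarith) (by linarith) hcs
      (by positivity) (by positivity) hcW ?_ ?_ hbig hram htriv hev ?_ hMS ?_
    · have e1 : N * (|Real.log CW| + x + cW + (3 : ℕ) * (CT + x) + (3 : ℕ) * cs) + (CT + x) =
          N * (|Real.log CW| + cW + 3 * CT + 3 * cs) + CT + (A - 2) * x := by
        rw [hA]; push_cast; ring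
      have e2 : (A - 2) * x ≤ A * x := mul_le_mul_of_nonneg_right (by linarith) hx0
      linarith
    · refine hddS.trans ?_
      have : V2.eta 3 N / 2 * τ = V2.eta 3 N * τ / 2 := by ring
      linarith
    · intro E _ _ hEN hES
      apply hw0 E hEN
      · exact_mod_cast hlog3
      · refine (hES.trans hddS).trans ?_
        linarith
    · intro hlp hl2 F X hFX hsol hdeg hex
      obtain ⟨E, a, hFE, ha1, hal, hE, hcl, hdd⟩ := hst hlp hl2 L F X hFX hL hsol hdeg hex
      refine ⟨E, a, hFE, ha1, hal, hE, ?_, hdd⟩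
      have hcE := one_le_card 3 E
      have hcF := one_le_card 3 F
      have hcX := one_le_card 3 X
      have h2 := Real.log_le_log (by linarith) hcl
      rw [Real.log_mul (by positivity) (by positivity), Real.log_mul (by positivity)
        (by positivity), Real.log_mul (by positivity) (by positivity), Real.log_exp,
        Real.log_pow] at h2
      have h3 := le_abs_self (Real.log CW)
      have h4 : hh 3 X ≤ Real.log CW + x + a * hh 3 E + hh 3 F := h2
      linarith
    · intro hn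
      apply crit_of_fine M hs hsM S.fixingSubgroup hn
        (IntermediateField.fixingSubgroup_antitone hsS')
      left
      rw [IsGalois.fixedField_fixingSubgroup S]
      exact hthree
  · -- even relative degree
    have hXE : X ⊓ (M ⊓ S) = X ⊓ S := by
      rw [← inf_assoc, inf_eq_left.mpr hXM]
    rw [hXE] at heven
    have hkN : finrank ℚ (X ⊓ S : IntermediateField ℚ L) ≤ N := by
      rw [← hL]; exact finrank_le_top (X ⊓ S : IntermediateField ℚ L)
    have hk3 : ∀ y : (X ⊓ S : IntermediateField ℚ L), y ^ 2 ≠ -3 := by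
      intro y hy
      have hy' : (y : L) ^ 2 = s ^ 2 := by
        rw [hs]
        have := congrArg (algebraMap (X ⊓ S : IntermediateField ℚ L) L) hy
        rw [map_pow, map_neg, map_ofNat] at this
        exact this
      have hyM : (y : L) ∈ M := hXM (y.2.1)
      rcases sq_eq_sq_iff_eq_or_eq_neg.mp hy' with h | h
      · exact hsM (h ▸ hyM)
      · apply hsM
        have h3 : s = -(y : L) := by rw [h]; ring
        rw [h3]
        exact M.neg_mem hyM
    have hV : 2 * dd L ≤ C' * Real.log (⌊Real.exp (η * τ)⌋₊ : ℝ) := by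
      obtain ⟨-, -, -, -, hw5⟩ := floor_exp (η * τ) (by linarith)
      have hC'0 : 0 ≤ C' := by positivity
      have h1 : η * τ / 2 ≤ Real.log (⌊Real.exp (η * τ)⌋₊ : ℝ) := by linarith
      have h2 : dd M' ≤ τ / (ε' * κ) := by
        rw [le_div_iff₀ (by positivity)]
        calc dd M' * (ε' * κ) = κ * (ε' * dd M') := by ring
          _ ≤ κ * u := mul_le_mul_of_nonneg_left hlarge2.le hκ.le
          _ ≤ τ := hτ
      have h3 : (1 : ℝ) ≤ τ := by linarith
      have h4 : ccs N ≤ ccs N * τ := le_mul_of_one_le_right hccs h3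
      have h5 : (N : ℝ) ^ 2 * dd M' ≤ (N : ℝ) ^ 2 * (τ / (ε' * κ)) :=
        mul_le_mul_of_nonneg_left h2 (by positivity)
      calc 2 * dd L ≤ 2 * (ccs N * τ + (N : ℝ) ^ 2 * (τ / (ε' * κ))) := by linarith
        _ = C' * (η * τ / 2) := by
            rw [hC']
            field_simp
            ring
        _ ≤ _ := mul_le_mul_of_nonneg_left h1 hC'0
    have h1 := at_scale_odd hL S M X hs hsM hXM hSn hsS heven τ (CT + x) cs η c C' B w1 hc hc1
      (by linarith) hcs hηB hS (hw1 (X ⊓ S : IntermediateField ℚ L) hkN hk3)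
      (by exact_mod_cast hlog4) hV hbig hev hMS
    have h2 : c0 * (η * τ - 1) ≤ c * (η * τ - 1) :=
      mul_le_mul_of_nonneg_right hc0c (by linarith)
    have h3 : c0 * (η * τ - 1) = c0 * (η * τ) - c0 := by ring
    have h4 : hh 3 M' ≤ dd M' / 2 + (CT + x) - c * (η * τ - 1) := h1
    linarith

end Pool.Agent.Lib.MP_695920_nt.Od
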