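import Mathlib
import Pool.Agent.Lib.MP_695920_nt.Od.Main
import Pool.Agent.Lib.MP_695920_nt.Tow.CritMain
import Pool.Agent.Lib.MP_695920_nt.Sx.Ref

/-!
The three torsion of fields not containing `√-3`.
-/

set_option autoImplicit false

open Finset NumberField Module IsDedekindDomain
open scoped nonZeroDivisors Pointwise IntermediateField

namespace Pool.Agent.Lib.MP_695920_nt.Od

open Pool.Agent.Lib.MP_695920_nt.Tow Pool.Agent.Lib.MP_695920_nt.Sx
  Pool.Agent.Lib.MP_695920_nt.Solv Pool.Agent.Lib.MP_695920_nt.Tow.V2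

theorem main_lat3 (n : ℕ) : ∃ δ : ℝ, 0 < δ ∧ ∀ ε : ℝ, 0 < ε →
    ∃ C : ℝ, ∀ (L : Type) [Field L] [NumberField L] [IsGalois ℚ L]
      (M : IntermediateField ℚ L) (s : L) (T : ℝ), s ^ 2 = -3 → s ∉ M →
      (M ⊔ ℚ⟮s⟯ : IntermediateField ℚ L).fixingSubgroup.normalCore = ⊥ →
      finrank ℚ (M ⊔ ℚ⟮s⟯ : IntermediateField ℚ L) = n → 0 < T →
      (∀ E : IntermediateField ℚ L, E ≤ M → ¬ Fine2 M E → T ≤ |(discr E : ℝ)|) →
      (Nat.card {x : ClassGroup (𝓞 (M ⊔ ℚ⟮s⟯ : IntermediateField ℚ L)) // x ^ 3 = 1} : ℝ) ≤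
        C * |(discr (M ⊔ ℚ⟮s⟯ : IntermediateField ℚ L) : ℝ)| ^ (1 / 2 + ε) * T ^ (-δ) := by
  classical
  choose δ hδ hmain using fun (N : ℕ) => main_log3 (N + 1) (Nat.succ_pos N)
  have hinv : ∀ N, 0 < (δ N)⁻¹ := fun N => inv_pos.mpr (hδ N)
  have hne : (range (n.factorial)).Nonempty := ⟨0, Finset.mem_range.mpr n.factorial_pos⟩
  have hsum : 0 < ∑ N ∈ range (n.factorial), (δ N)⁻¹ := Finset.sum_pos (fun N _ => hinv N) hne
  refine ⟨(∑ N ∈ range (n.factorial), (δ N)⁻¹)⁻¹, inv_pos.mpr hsum, ?_⟩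
  intro ε hε
  choose C hC hmain2 using fun (N : ℕ) => hmain N ε hε
  refine ⟨Real.exp (∑ N ∈ range (n.factorial), C N), ?_⟩
  intro L _ _ _ M s T hs hsM hcore hn hT0 hKT
  set M' : IntermediateField ℚ L := M ⊔ ℚ⟮s⟯ with hM'
  set δ' := (∑ N ∈ range (n.factorial), (δ N)⁻¹)⁻¹ with hδ'
  have hδ'0 : 0 < δ' := inv_pos.mpr hsum
  -- the degree of the closure
  have hLn : finrank ℚ L ≤ n.factorial := by
    rw [← IsGalois.card_aut_eq_finrank ℚ L, ← hn, finrank_index (F := ℚ) M']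
    exact card_le_factorial _ hcore
  obtain ⟨N, hN⟩ : ∃ N, finrank ℚ L = N + 1 :=
    Nat.exists_eq_succ_of_ne_zero (finrank_pos : 0 < finrank ℚ L).ne'
  have hNmem : N ∈ range (n.factorial) := Finset.mem_range.mpr (by omega)
  have h2 : δ' ≤ δ N := by
    rw [hδ', inv_le_comm₀ hsum (hδ N)]
    exact Finset.single_le_sum (f := fun N => (δ N)⁻¹) (fun N _ => (hinv N).le) hNmem
  have hx1 : δ' / δ N ≤ 1 := (div_le_one (hδ N)).mpr h2
  have hx0 : 0 ≤ δ' / δ N := by have := hδ N; positivity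
  have h3 : C N ≤ ∑ N ∈ range (n.factorial), C N :=
    Finset.single_le_sum (f := C) (fun N _ => hC N) hNmem
  have hu : ∀ E : IntermediateField ℚ L, E ≤ M → ¬ Fine2 M E →
      δ' / δ N * Real.log T ≤ dd E := by
    intro E hE hf
    have hTE : Real.log T ≤ dd E := Real.log_le_log hT0 (hKT E hE hf)
    rcases le_or_gt 0 (Real.log T) with h | h
    · calc δ' / δ N * Real.log T ≤ 1 * Real.log T := mul_le_mul_of_nonneg_right hx1 h
        _ ≤ dd E := by rw [one_mul]; exact hTE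
    · refine le_trans ?_ (dd_nonneg E)
      exact mul_nonpos_of_nonneg_of_nonpos hx0 h.le
  have h1 := hmain2 N L M s (δ' / δ N * Real.log T) hN hs hsM hcore hu
  have h4 : δ N * (δ' / δ N * Real.log T) = δ' * Real.log T := by
    have := (hδ N).ne'
    field_simp
  rw [h4] at h1
  have h5 : hh 3 M' ≤ (∑ N ∈ range (n.factorial), C N) + (1 / 2 + ε) * dd M' -
      δ' * Real.log T := by
    have h6 : hh 3 M' ≤ (1 / 2 + ε) * dd M' - δ' * Real.log T + C N := h1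
    linarith
  have hcard := one_le_card 3 M'
  have hDM := one_le_absdiscr M'
  have h6 : (Nat.card {x : ClassGroup (𝓞 M') // x ^ 3 = 1} : ℝ) = Real.exp (hh 3 M') := by
    unfold hh
    rw [Real.exp_log (by linarith)]
  rw [h6]
  refine (Real.exp_le_exp.mpr h5).trans (le_of_eq ?_)
  rw [Real.rpow_def_of_pos (by linarith), Real.rpow_def_of_pos hT0, ← Real.exp_add,
    ← Real.exp_add]
  congr 1
  unfold dd
  ring

/-- the exceptional subfields: they may have small discriminant -/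
def FineK2 {K : Type} [Field K] [NumberField K] (E : IntermediateField ℚ K) : Prop :=
  finrank E K = 3 ∨
    ∃ X : IntermediateField ℚ K,
      2 * finrank ℚ (X ⊓ E : IntermediateField ℚ K) ∣ finrank ℚ X

lemma fine2_of_fineK2 {K L : Type} [Field K] [NumberField K] [Field L] [NumberField L]
    (ψ : K →ₐ[ℚ] L) (E' : IntermediateField ℚ K) (h : FineK2 E') :
    Fine2 ψ.fieldRange (E'.map ψ) := by
  have hmapfin : ∀ X : IntermediateField ℚ K, finrank ℚ (X.map ψ) = finrank ℚ X := fun X =>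
    ((IntermediateField.equivMap X ψ).toLinearEquiv.finrank_eq).symm
  rcases h with h | ⟨X, h1⟩
  · left
    have h1 : finrank ℚ ψ.fieldRange = finrank ℚ K :=
      ((AlgEquiv.ofInjectiveField ψ).toLinearEquiv.finrank_eq).symm
    rw [h1, hmapfin, ← finrank_mul_finrank ℚ E' K, h, mul_comm]
  · right
    refine ⟨X.map ψ, ?_, ?_⟩
    · rintro _ ⟨x, _, rfl⟩
      exact ⟨x, rfl⟩
    · have h3 : (X.map ψ ⊓ E'.map ψ : IntermediateField ℚ L) = (X ⊓ E').map ψ := by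
        apply le_antisymm
        · rintro _ ⟨⟨x, hx, rfl⟩, ⟨y, hy, hxy⟩⟩
          have h4 : y = x := ψ.injective hxy
          rw [h4] at hy
          exact ⟨x, ⟨hx, hy⟩, rfl⟩
        · rintro _ ⟨x, ⟨hx, hy⟩, rfl⟩
          exact ⟨⟨x, hx, rfl⟩, ⟨x, hy, rfl⟩⟩
      rw [h3, hmapfin, hmapfin]
      exact h1

theorem three_any (n : ℕ) : ∃ δ : ℝ, 0 < δ ∧ ∀ ε : ℝ, 0 < ε → ∃ C : ℝ,
    ∀ (K : Type) [Field K] [NumberField K] (T : ℝ), finrank ℚ K = n → (∀ x : K, x ^ 2 ≠ -3) →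
      0 < T → (∀ E : IntermediateField ℚ K, ¬ FineK2 E → T ≤ |(discr E : ℝ)|) →
      (t3 K : ℝ) ≤ C * |(discr K : ℝ)| ^ (1 / 2 + ε) * T ^ (-δ) := by
  obtain ⟨δ, hδ, hmain⟩ := main_lat3 (2 * n)
  refine ⟨δ / 2, by positivity, fun ε hε => ?_⟩
  obtain ⟨C, hC⟩ := hmain ε hε
  obtain ⟨C', hC'⟩ := reflection_holds n
  refine ⟨Real.sqrt (|C'| * (|C| * ((12 : ℝ) ^ n) ^ (1 / 2 + ε))), ?_⟩
  intro K _ _ T hn hK hT hbad
  obtain ⟨K', _, _, _, s, hK2, hs, htop⟩ := exists_adjoin K hK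
  obtain ⟨L, _, _, _, φ, hcore⟩ := Sx.exists_closure K'
  let ι : K →ₐ[ℚ] K' := (algebraMap K K').toRatAlgHom
  have hι : ∀ x, ι x = algebraMap K K' x := fun x => rfl
  have hsup := fieldRange_eq_sup s htop φ ι hι
  set M : IntermediateField ℚ L := (φ.comp ι).fieldRange with hM
  let eM : K ≃ₐ[ℚ] M := AlgEquiv.ofInjectiveField (φ.comp ι)
  let eM' : K' ≃ₐ[ℚ] φ.fieldRange := AlgEquiv.ofInjectiveField φ
  have hsL : (φ s) ^ 2 = -3 := by rw [← map_pow, hs, map_neg, map_ofNat]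
  have hsM : φ s ∉ M := by
    rintro ⟨x, hx⟩
    apply hK x
    have h1 : (φ.comp ι) x = φ s := hx
    have h2 : (φ.comp ι) (x ^ 2) = (φ.comp ι) (-3) := by
      rw [map_pow, h1, hsL, map_neg, map_ofNat]
    exact (φ.comp ι).injective h2
  have hfinM' : finrank ℚ φ.fieldRange = 2 * n := by
    rw [← hn, mul_comm, ← hK2, finrank_mul_finrank ℚ K K']
    exact (eM'.toLinearEquiv.finrank_eq).symm
  have h1 := hC L M (φ s) T hsL hsM (by rw [hsup]; exact hcore) (by rw [hsup]; exact hfinM')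
    hT (by
      intro E hE hf
      -- transport `E` to `K`
      let E' : IntermediateField ℚ K := E.comap (φ.comp ι)
      have hmap : E'.map (φ.comp ι) = E := by
        ext y
        constructor
        · rintro ⟨x, hx, rfl⟩
          exact hx
        · intro hy
          obtain ⟨x, rfl⟩ := hE hy
          exact ⟨x, hy, rfl⟩
      let e : E' ≃ₐ[ℚ] E := (IntermediateField.equivMap E' (φ.comp ι)).trans
        (IntermediateField.equivOfEq hmap)
      rw [← absDiscr_eq_of_equiv e]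
      apply hbad E'
      intro hE'
      apply hf
      rw [← hmap]
      exact fine2_of_fineK2 (φ.comp ι) E' hE')
  rw [hsup] at h1
  have h2 : (Nat.card {x : ClassGroup (𝓞 φ.fieldRange) // x ^ 3 = 1} : ℝ) = t3 K' := by
    rw [t3_eq_of_equiv eM']
    rfl
  rw [h2, ← absDiscr_eq_of_equiv eM'] at h1
  have h3 := hC' K K' s hn hK2 hs htop
  have h4 := discr_adjoin_le hs hK2 htop
  rw [hn] at h4
  have hTp : 0 < T ^ (-δ) := Real.rpow_pos_of_pos hT _
  have hDK : 0 ≤ |(discr K : ℝ)| := abs_nonneg _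
  have hmono : |(discr K' : ℝ)| ^ (1 / 2 + ε) ≤
      ((12 : ℝ) ^ n) ^ (1 / 2 + ε) * (|(discr K : ℝ)| ^ 2) ^ (1 / 2 + ε) := by
    rw [← Real.mul_rpow (by positivity) (by positivity)]
    exact Real.rpow_le_rpow (abs_nonneg _) h4 (by positivity)
  have hpow : (|(discr K : ℝ)| ^ 2) ^ (1 / 2 + ε) = (|(discr K : ℝ)| ^ (1 / 2 + ε)) ^ 2 := by
    rw [← Real.rpow_natCast, ← Real.rpow_natCast, ← Real.rpow_mul hDK, ← Real.rpow_mul hDK,
      mul_comm]
  have hTpow : T ^ (-δ) = (T ^ (-(δ / 2))) ^ 2 := by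
    rw [← Real.rpow_natCast, ← Real.rpow_mul hT.le]
    congr 1
    push_cast
    ring
  have h6 : (t3 K' : ℝ) ≤ (|C| * ((12 : ℝ) ^ n) ^ (1 / 2 + ε)) *
      ((|(discr K : ℝ)| ^ (1 / 2 + ε)) ^ 2 * (T ^ (-(δ / 2))) ^ 2) := by
    calc (t3 K' : ℝ) ≤ C * |(discr K' : ℝ)| ^ (1 / 2 + ε) * T ^ (-δ) := h1
      _ ≤ |C| * (((12 : ℝ) ^ n) ^ (1 / 2 + ε) * (|(discr K : ℝ)| ^ 2) ^ (1 / 2 + ε)) *
          T ^ (-δ) := by
        apply mul_le_mul_of_nonneg_right _ hTp.le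
        exact mul_le_mul (le_abs_self C) hmono (by positivity) (abs_nonneg _)
      _ = _ := by rw [hpow, hTpow]; ring
  have h7 : (t3 K : ℝ) ^ 2 ≤ (|C'| * (|C| * ((12 : ℝ) ^ n) ^ (1 / 2 + ε))) *
      ((|(discr K : ℝ)| ^ (1 / 2 + ε)) * (T ^ (-(δ / 2)))) ^ 2 := by
    calc (t3 K : ℝ) ^ 2 ≤ C' * t3 K' := h3
      _ ≤ |C'| * t3 K' := mul_le_mul_of_nonneg_right (le_abs_self C') (Nat.cast_nonneg _)
      _ ≤ |C'| * ((|C| * ((12 : ℝ) ^ n) ^ (1 / 2 + ε)) *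
          ((|(discr K : ℝ)| ^ (1 / 2 + ε)) ^ 2 * (T ^ (-(δ / 2))) ^ 2)) :=
        mul_le_mul_of_nonneg_left h6 (abs_nonneg _)
      _ = _ := by ring
  have h8 : (t3 K : ℝ) ≤ Real.sqrt ((|C'| * (|C| * ((12 : ℝ) ^ n) ^ (1 / 2 + ε))) *
      ((|(discr K : ℝ)| ^ (1 / 2 + ε)) * (T ^ (-(δ / 2)))) ^ 2) := Real.le_sqrt_of_sq_le h7
  rw [Real.sqrt_mul (by positivity), Real.sqrt_sq (by positivity)] at h8
  linarith

end Pool.Agent.Lib.MP_695920_nt.Od
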