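import Mathlib
import Pool.Agent.Lib.MP_695920_nt.Od.Final
import Pool.Agent.Lib.MP_695920_nt.Qt.FinD

/-!
Fields of degree `2 ^ a` and `3 * 2 ^ a`, and quartic and sextic fields.
-/

set_option autoImplicit false

open Finset NumberField Module IsDedekindDomain
open scoped nonZeroDivisors Pointwise IntermediateField

namespace Pool.Agent.Lib.MP_695920_nt.Od

open Pool.Agent.Lib.MP_695920_nt.Sx

lemma fineK2_of_degree {K : Type} [Field K] [NumberField K] {a b : ℕ} (hb : b ≤ 1)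
    (hn : finrank ℚ K = 2 ^ a * 3 ^ b) (E : IntermediateField ℚ K)
    (hE : |(discr E : ℝ)| ≠ |(discr K : ℝ)|) : FineK2 E := by
  have hmul := finrank_mul_finrank ℚ E K
  set m := finrank E K with hm
  have hm1 : m ≠ 1 := by
    intro h
    apply hE
    apply absDiscr_of_finrank_eq
    rw [← hmul, h, mul_one]
  rcases Nat.even_or_odd m with he | ho
  · right
    refine ⟨⊤, ?_⟩
    rw [top_inf_eq, IntermediateField.finrank_top', ← hmul, mul_comm 2]
    exact Nat.mul_dvd_mul_left _ he.two_dvd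
  · left
    have h1 : m ∣ 2 ^ a * 3 ^ b := by
      rw [← hn, ← hmul]
      exact Dvd.intro_left _ rfl
    have h2 : Nat.Coprime m (2 ^ a) := by
      apply Nat.Coprime.pow_right
      rw [Nat.coprime_comm, Nat.coprime_two_left]
      exact ho
    have h3 : m ∣ 3 ^ b := h2.dvd_of_dvd_mul_left h1
    have h4 : m ∣ 3 := by
      refine h3.trans ?_
      calc 3 ^ b ∣ 3 ^ 1 := pow_dvd_pow 3 hb
        _ = 3 := pow_one 3
    rcases (Nat.dvd_prime Nat.prime_three).mp h4 with h | h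
    · exact absurd h hm1
    · exact h

theorem three_degree (a b : ℕ) (hb : b ≤ 1) : ∃ Δ : ℝ, Δ < 1 / 2 ∧ ∃ C : ℝ,
    ∀ (K : Type) [Field K] [NumberField K], finrank ℚ K = 2 ^ a * 3 ^ b →
      (∀ x : K, x ^ 2 ≠ -3) → (t3 K : ℝ) ≤ C * |(discr K : ℝ)| ^ Δ := by
  obtain ⟨δ, hδ, h⟩ := three_any (2 ^ a * 3 ^ b)
  obtain ⟨C, hC⟩ := h (δ / 2) (by positivity)
  refine ⟨1 / 2 - δ / 2, by linarith, C, ?_⟩
  intro K _ _ hn hK
  have hD1 : 1 ≤ |(discr K : ℝ)| := Pool.Agent.Lib.MP_695920_nt.Solv.one_le_absdiscr K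
  have hD0 : 0 < |(discr K : ℝ)| := by linarith
  have h1 := hC K |(discr K : ℝ)| hn hK hD0 (by
    intro E hf
    by_contra hcon
    push Not at hcon
    exact hf (fineK2_of_degree hb hn E hcon.ne))
  rw [mul_assoc, ← Real.rpow_add hD0] at h1
  have h2 : 1 / 2 + δ / 2 + -δ = 1 / 2 - δ / 2 := by ring
  rw [h2] at h1
  exact h1

theorem three_quartic : ∃ Δ : ℝ, Δ < 1 / 2 ∧ ∃ C : ℝ,
    ∀ (K : Type) [Field K] [NumberField K], finrank ℚ K = 4 →
      (t3 K : ℝ) ≤ C * |(discr K : ℝ)| ^ Δ := by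
  obtain ⟨Δ1, hΔ1, C1, h1⟩ := three_degree 2 0 (by norm_num)
  obtain ⟨δ, hδ, C2, h2⟩ := Pool.Agent.Lib.MP_695920_nt.Qt.three_torsion_quartic
  refine ⟨max Δ1 (1 / 2 - δ), max_lt hΔ1 (by linarith), |C1| + |C2|, ?_⟩
  intro K _ _ hn
  have hD1 : 1 ≤ |(discr K : ℝ)| := Pool.Agent.Lib.MP_695920_nt.Solv.one_le_absdiscr K
  have hD0 : 0 < |(discr K : ℝ)| := by linarith
  have key : ∀ (C Δ : ℝ), Δ ≤ max Δ1 (1 / 2 - δ) → |C| ≤ |C1| + |C2| →
      C * |(discr K : ℝ)| ^ Δ ≤ (|C1| + |C2|) * |(discr K : ℝ)| ^ (max Δ1 (1 / 2 - δ)) := by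
    intro C Δ hΔ hC
    calc C * |(discr K : ℝ)| ^ Δ ≤ |C| * |(discr K : ℝ)| ^ Δ :=
          mul_le_mul_of_nonneg_right (le_abs_self C) (by positivity)
      _ ≤ _ := mul_le_mul hC (Real.rpow_le_rpow_of_exponent_le hD1 hΔ) (by positivity)
          (by positivity)
  by_cases hs : ∃ x : K, x ^ 2 = -3
  · exact (h2 K hn hs).trans (key C2 _ (le_max_right _ _) (by linarith [abs_nonneg C1]))
  · push Not at hs
    exact (h1 K (by rw [hn]; norm_num) hs).trans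
      (key C1 _ (le_max_left _ _) (by linarith [abs_nonneg C2]))

lemma no_sqrt_of_odd {K : Type} [Field K] [NumberField K] (h : Odd (finrank ℚ K)) (x : K) :
    x ^ 2 ≠ -3 := by
  intro hx
  have h1 := finrank_sqrt hx
  have h2 := finrank_dvd_of K ℚ⟮x⟯
  rw [h1] at h2
  rw [← Nat.not_even_iff_odd] at h
  exact h (even_iff_two_dvd.mpr h2)

theorem three_quadratic : ∃ Δ : ℝ, Δ < 1 / 2 ∧ ∃ C : ℝ,
    ∀ (K : Type) [Field K] [NumberField K], finrank ℚ K = 2 →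
      (t3 K : ℝ) ≤ C * |(discr K : ℝ)| ^ Δ := by
  obtain ⟨Δ1, hΔ1, C1, h1⟩ := three_degree 1 0 (by norm_num)
  obtain ⟨δ, hδ, h2'⟩ := three_mem 2
  obtain ⟨C2, h2⟩ := h2' (δ / 2) (by positivity)
  refine ⟨max Δ1 (1 / 2 - δ / 2), max_lt hΔ1 (by linarith), |C1| + |C2|, ?_⟩
  intro K _ _ hn
  have hD1 : 1 ≤ |(discr K : ℝ)| := Pool.Agent.Lib.MP_695920_nt.Solv.one_le_absdiscr K
  have hD0 : 0 < |(discr K : ℝ)| := by linarith
  have key : ∀ (C Δ : ℝ), Δ ≤ max Δ1 (1 / 2 - δ / 2) → |C| ≤ |C1| + |C2| →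
      C * |(discr K : ℝ)| ^ Δ ≤ (|C1| + |C2|) * |(discr K : ℝ)| ^ (max Δ1 (1 / 2 - δ / 2)) := by
    intro C Δ hΔ hC
    calc C * |(discr K : ℝ)| ^ Δ ≤ |C| * |(discr K : ℝ)| ^ Δ :=
          mul_le_mul_of_nonneg_right (le_abs_self C) (by positivity)
      _ ≤ _ := mul_le_mul hC (Real.rpow_le_rpow_of_exponent_le hD1 hΔ) (by positivity)
          (by positivity)
  by_cases hs : ∃ x : K, x ^ 2 = -3
  · obtain ⟨s, hs⟩ := hs
    have h3 := h2 K s |(discr K : ℝ)| hn hs hD0 (by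
      intro E hsE _
      apply le_of_eq
      symm
      apply absDiscr_of_finrank_eq
      have h4 : finrank ℚ E ∣ 2 := hn ▸ finrank_dvd_of K E
      have h5 : 2 ∣ finrank ℚ E := by
        obtain ⟨b, hb⟩ := Pool.Agent.Lib.MP_695920_nt.Tow.finrank_dvd (X := ℚ⟮s⟯) (Y := E) (by
          rw [IntermediateField.adjoin_simple_le_iff]
          exact hsE)
        rw [hb, finrank_sqrt hs]
        exact Dvd.intro _ rfl
      rw [hn]
      exact Nat.dvd_antisymm h4 h5)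
    rw [mul_assoc, ← Real.rpow_add hD0] at h3
    have e : 1 / 2 + δ / 2 + -δ = 1 / 2 - δ / 2 := by ring
    rw [e] at h3
    exact h3.trans (key C2 _ (le_max_right _ _) (by linarith [abs_nonneg C1]))
  · push Not at hs
    exact (h1 K (by rw [hn]; norm_num) hs).trans
      (key C1 _ (le_max_left _ _) (by linarith [abs_nonneg C2]))

/-- fields of degree `2 ^ a` and `3 * 2 ^ a` -/
theorem three_degrees (a b : ℕ) (hb : b ≤ 1) : ∃ Δ : ℝ, Δ < 1 / 2 ∧ ∃ C : ℝ,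
    ∀ (K : Type) [Field K] [NumberField K], finrank ℚ K = 2 ^ a * 3 ^ b →
      (finrank ℚ K ≤ 6 ∨ ∀ x : K, x ^ 2 ≠ -3) → (t3 K : ℝ) ≤ C * |(discr K : ℝ)| ^ Δ := by
  rcases Nat.lt_or_ge 6 (2 ^ a * 3 ^ b) with h6 | h6
  · obtain ⟨Δ, hΔ, C, h⟩ := three_degree a b hb
    refine ⟨Δ, hΔ, C, ?_⟩
    intro K _ _ hn hK
    rcases hK with hK | hK
    · omega
    · exact h K hn hK
  · by_cases ho : Odd (2 ^ a * 3 ^ b)
    · obtain ⟨Δ, hΔ, C, h⟩ := three_degree a b hb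
      refine ⟨Δ, hΔ, C, ?_⟩
      intro K _ _ hn _
      exact h K hn (fun x => no_sqrt_of_odd (by rw [hn]; exact ho) x)
    · have hcases : 2 ^ a * 3 ^ b = 2 ∨ 2 ^ a * 3 ^ b = 4 ∨ 2 ^ a * 3 ^ b = 6 := by
        have ha : a ≤ 2 := by
          by_contra hcon
          push Not at hcon
          have h1 : 2 ^ 3 ≤ 2 ^ a := Nat.pow_le_pow_right (by norm_num) hcon
          have h2 : 1 ≤ 3 ^ b := Nat.one_le_pow _ _ (by norm_num)
          nlinarith
        rw [Nat.not_odd_iff_even] at ho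
        interval_cases a <;> interval_cases b <;> simp_all (config := { decide := true })
      rcases hcases with h | h | h
      · rw [h]
        obtain ⟨Δ, hΔ, C, h⟩ := three_quadratic
        exact ⟨Δ, hΔ, C, fun K _ _ hn _ => h K hn⟩
      · rw [h]
        obtain ⟨Δ, hΔ, C, h⟩ := three_quartic
        exact ⟨Δ, hΔ, C, fun K _ _ hn _ => h K hn⟩
      · rw [h]
        obtain ⟨Δ, hΔ, C, h⟩ := sextic reflection_holds
        exact ⟨Δ, hΔ, C, fun K _ _ hn _ => h K hn⟩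

end Pool.Agent.Lib.MP_695920_nt.Od
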